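import Pool.Agent.TH703.Cone.Stm

set_option autoImplicit false

/-!
Definitions and intermediate statements for the completion of the project `TH703.Cone`
(MP_65ff7c_an, S04892).
-/

open MeasureTheory Set Metric Filter Topology
open scoped ENNReal RealInnerProductSpace
open Pool.Agent.TH703.Cone

namespace Pool.Agent.Helper188_CS

/-- the profile: an odd C¹ function, `-1` on the left of `-1`, `1` on the right of `1` -/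
noncomputable def sm (t : ℝ) : ℝ := if t ≤ -1 then -1 else if 1 ≤ t then 1 else (3 * t - t ^ 3) / 2

/-- its derivative -/
noncomputable def sm' (t : ℝ) : ℝ := if t ≤ -1 then 0 else if 1 ≤ t then 0 else 3 * (1 - t ^ 2) / 2

/-- the vector `(i x, 0)` -/
noncomputable def rot {b : ℕ} (z : W b) : W b := WithLp.toLp 2 (Complex.I * z.fst, 0)

/-- the rotational field with the cut-off `κ` -/
noncomputable def fld {b : ℕ} (κ : W b → ℝ) (u : ℂ) (σ : ℝ) (z : W b) : W b :=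
  (κ z * sm ((z.fst * u).im / (σ * ‖z.fst‖)) / ‖z.fst‖) • rot z

/-- **BB.** the barycentre of a convex set of volume at least `v₀` is deep inside -/
def S_BB (E : Type) [NormedAddCommGroup E] [InnerProductSpace ℝ E] [FiniteDimensional ℝ E]
    [MeasurableSpace E] [BorelSpace E] : Prop :=
  ∀ R v₀ : ℝ, 0 < R → 0 < v₀ → ∃ δ : ℝ, 0 < δ ∧ ∀ H : Set E, Convex ℝ H → IsOpen H →
    H ⊆ ball 0 R → ENNReal.ofReal v₀ ≤ volume H → ball (⨍ z in H, z) δ ⊆ H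

/-- **M1.** -/
def S_M1 : Prop := ∀ (b : ℕ) (s : ℝ), 1 ≤ b → 0 ≤ s →
    volume {z : W b | z ∈ Om b 1 ∧ ‖z.fst‖ ≤ s} ≤
      ENNReal.ofReal (((b : ℝ) + 1) * (b + 2) * s ^ 2 / 2) * volume (Om b 1)

/-- **M2.** -/
def S_M2 : Prop := ∀ (b : ℕ) (e : B b), 1 ≤ b → ‖e‖ = 1 →
    ∫ z in Om b 1, ⟪z.snd, e⟫ ^ 2 ≤ 1 / b * volume.real (Om b 1)

/-- **BARY.** a convex cone of volume at least `c |Om|` contains a robust point `m` of `Om` with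
`‖m.snd‖` small against `‖m.fst‖` -/
def S_BARY : Prop := ∀ (b : ℕ) (c K : ℝ), 0 < c → c ≤ 1 → 2 ≤ K → 1000 * K ^ 2 / c ^ 2 < b →
    ∃ δ : ℝ, 0 < δ ∧ δ ≤ 1 ∧ ∀ G : Set (W b), IsOpen G → (∀ z ∈ G, ∀ t : ℝ, 0 < t → t • z ∈ G) →
      (∀ z ∈ G, ∀ w ∈ G, z + w ∈ G) →
      ENNReal.ofReal c * volume (Om b 1) ≤ volume (Om b 1 ∩ G) →
      ∃ m : W b, ball m δ ⊆ G ∧ 0 < ‖m.fst‖ ∧ ‖m.fst‖ ≤ 1 ∧
        (K - 1) / b * (1 + ‖m.snd‖ / ‖m.fst‖) ≤ 1 / 2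

/-- **T6.** geometry of cones of volume at least `c |Om b ε|` (the constant `24` of `S_T6` replaced by `1000`) -/
def S_T6k : Prop := ∀ (b : ℕ) (c K r₀ : ℝ), 0 < c → c ≤ 1 → 2 ≤ K → 1000 * K ^ 2 / c ^ 2 < b →
    0 < r₀ → ∃ σ η : ℝ, 0 < σ ∧ σ ≤ 1 / 2 ∧ 0 < η ∧ ∀ (ε : ℝ) (G : Set (W b)), 0 < ε →
      IsOpen G → (∀ z ∈ G, ∀ t : ℝ, 0 < t → t • z ∈ G) → (∀ z ∈ G, ∀ w ∈ G, z + w ∈ G) →
      ENNReal.ofReal c * volume (Om b ε) ≤ volume (Om b ε ∩ G) →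
      ∃ u : ℂ, ‖u‖ = 1 ∧ ∀ x ∈ Wp u σ r₀ ((K - 1) / b),
        ENNReal.ofReal (η * vb b ε) ≤ volume (fib (Om b ε ∩ G) x)

/-- given, proved elsewhere -/
def G4a : Prop := ∀ (b : ℕ) (ε : ℝ) (κ : W b → ℝ), ContDiff ℝ 1 κ → HasCompactSupport κ →
    tsupport κ ⊆ {z | z ∈ Om b ε ∧ z.fst ≠ 0} → (∀ z, 0 ≤ κ z) → (∀ z, κ z ≤ 1) →
    (∀ z, fderiv ℝ κ z (rot z) = 0) → ∀ u : ℂ, ‖u‖ = 1 → ∀ σ : ℝ, 0 < σ →
    Tst (Om b ε) (fld κ u σ) ∧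
    ∀ z, dv (fld κ u σ) z = κ z * (sm' ((z.fst * u).im / (σ * ‖z.fst‖)) *
      ((z.fst * u).re / (σ * ‖z.fst‖ ^ 2)))

/-- given, proved elsewhere -/
def G4b : Prop := ∀ (b : ℕ) (ε r₀ R₁ : ℝ), 0 < ε → 0 < r₀ → r₀ < R₁ → R₁ < 1 →
    ∃ κ : ℕ → W b → ℝ, ∀ n, ContDiff ℝ 1 (κ n) ∧ HasCompactSupport (κ n) ∧
      tsupport (κ n) ⊆ {z | z ∈ Om b ε ∧ r₀ < ‖z.fst‖ ∧ ‖z.fst‖ < R₁} ∧ (∀ z, 0 ≤ κ n z) ∧
      (∀ z, κ n z ≤ 1) ∧ (∀ z, fderiv ℝ (κ n) z (rot z) = 0) ∧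
      ∀ z, z ∈ Om b ε → r₀ < ‖z.fst‖ → ‖z.fst‖ < R₁ → Tendsto (fun m => κ m z) atTop (𝓝 1)

/-- given, proved elsewhere -/
def G4c : Prop := ∀ (b : ℕ) (ε r₀ R₁ σ : ℝ) (u : ℂ), 1 ≤ b → 0 < ε → 0 < r₀ →
    r₀ < R₁ → R₁ < 1 → ‖u‖ = 1 → 0 < σ → σ ≤ 1 / 2 →
    ∫ z in {z : W b | z ∈ Om b ε ∧ r₀ ≤ ‖z.fst‖ ∧ ‖z.fst‖ ≤ R₁ ∧ 0 < (z.fst * u).re},
      sm' ((z.fst * u).im / (σ * ‖z.fst‖)) * ((z.fst * u).re / (σ * ‖z.fst‖ ^ 2)) =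
    vb b ε * (2 * ∫ ρ in r₀..R₁, (1 - ρ) ^ b)

end Pool.Agent.Helper188_CS
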