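import Pool.Agent.TH703.Cone.Stm

set_option autoImplicit false

/-!
Basic facts on the body `Om b ε` and on fibres.
-/

open MeasureTheory Set Metric Filter Topology
open scoped ENNReal RealInnerProductSpace
open Pool.Agent.TH703.Cone

namespace Pool.Agent.Helper188_CS

theorem continuous_fst' {b : ℕ} : Continuous (fun z : W b => z.fst) :=
  continuous_fst.comp (WithLp.prod_continuous_ofLp 2 ℂ (B b))

theorem continuous_snd' {b : ℕ} : Continuous (fun z : W b => z.snd) :=
  continuous_snd.comp (WithLp.prod_continuous_ofLp 2 ℂ (B b))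

theorem Om_isOpen (b : ℕ) (ε : ℝ) : IsOpen (Om b ε) :=
  isOpen_lt (continuous_fst'.norm.add (continuous_snd'.norm.div_const ε)) continuous_const

theorem Om_zero (b : ℕ) (ε : ℝ) : (0 : W b) ∈ Om b ε := by
  unfold Om
  simp

theorem Om_convex (b : ℕ) {ε : ℝ} (hε : 0 < ε) : Convex ℝ (Om b ε) := by
  intro z hz w hw s t hs ht hst
  unfold Om at *
  simp only [mem_ofPred_eq] at *
  have h1 : (s • z + t • w).fst = s • z.fst + t • w.fst := rfl
  have h2 : (s • z + t • w).snd = s • z.snd + t • w.snd := rfl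
  rw [h1, h2]
  have h3 : ‖s • z.fst + t • w.fst‖ ≤ s * ‖z.fst‖ + t * ‖w.fst‖ := by
    refine (norm_add_le _ _).trans ?_
    rw [norm_smul, norm_smul, Real.norm_of_nonneg hs, Real.norm_of_nonneg ht]
  have h4 : ‖s • z.snd + t • w.snd‖ ≤ s * ‖z.snd‖ + t * ‖w.snd‖ := by
    refine (norm_add_le _ _).trans ?_
    rw [norm_smul, norm_smul, Real.norm_of_nonneg hs, Real.norm_of_nonneg ht]
  have h5 : ‖s • z.snd + t • w.snd‖ / ε ≤ s * (‖z.snd‖ / ε) + t * (‖w.snd‖ / ε) := by
    rw [div_le_iff₀ hε]
    have e1 : (s * (‖z.snd‖ / ε) + t * (‖w.snd‖ / ε)) * ε = s * ‖z.snd‖ + t * ‖w.snd‖ := by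
      field_simp
    rw [e1]; exact h4
  rcases hs.eq_or_lt with h | h
  · subst h
    have : t = 1 := by linarith
    subst this
    linarith
  · nlinarith

theorem Om_neg {b : ℕ} {ε : ℝ} {z : W b} (hz : z ∈ Om b ε) : -z ∈ Om b ε := by
  unfold Om at *
  simp only [mem_ofPred_eq] at *
  have h1 : (-z).fst = -z.fst := rfl
  have h2 : (-z).snd = -z.snd := rfl
  rw [h1, h2, norm_neg, norm_neg]
  exact hz

theorem Om_fst {b : ℕ} {ε : ℝ} (hε : 0 < ε) {z : W b} (hz : z ∈ Om b ε) : ‖z.fst‖ < 1 := by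
  unfold Om at hz
  simp only [mem_ofPred_eq] at hz
  have : 0 ≤ ‖z.snd‖ / ε := by positivity
  linarith

theorem Om_bdd (b : ℕ) {ε : ℝ} (hε : 0 < ε) : Bornology.IsBounded (Om b ε) := by
  refine (isBounded_ball (x := (0 : W b)) (r := 1 + ε)).subset ?_
  intro z hz
  rw [mem_ball, dist_zero_right]
  have h1 := Om_fst hε hz
  have h2 : ‖z.snd‖ < ε := by
    unfold Om at hz
    simp only [mem_ofPred_eq] at hz
    have : ‖z.snd‖ / ε < 1 := by
      have := norm_nonneg z.fst
      linarith
    rwa [div_lt_one hε] at this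
  have h3 : ‖z‖ ≤ ‖z.fst‖ + ‖z.snd‖ := by
    rw [WithLp.prod_norm_eq_of_L2]
    refine Real.sqrt_le_iff.mpr ⟨by positivity, ?_⟩
    nlinarith [norm_nonneg z.fst, norm_nonneg z.snd]
  linarith

theorem fst_measurable {b : ℕ} : Measurable (fun z : W b => z.fst) := continuous_fst'.measurable

theorem Wp_meas (u : ℂ) (σ r₀ R₁ : ℝ) : MeasurableSet (Wp u σ r₀ R₁) := by
  have m1 : MeasurableSet {x : ℂ | r₀ ≤ ‖x‖} := measurableSet_le measurable_const measurable_norm
  have m2 : MeasurableSet {x : ℂ | ‖x‖ ≤ R₁} := measurableSet_le measurable_norm measurable_const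
  have m3 : MeasurableSet {x : ℂ | 0 < (x * u).re} := measurableSet_lt measurable_const
    (Complex.continuous_re.comp (continuous_id.mul continuous_const)).measurable
  have m4 : MeasurableSet {x : ℂ | |(x * u).im| ≤ σ * ‖x‖} := measurableSet_le
    ((Complex.continuous_im.comp (continuous_id.mul continuous_const)).abs).measurable
    (continuous_const.mul continuous_norm).measurable
  exact m1.inter (m2.inter (m3.inter m4))

/-- the volume of the part over `U` -/
theorem fub {b : ℕ} {S : Set (W b)} (hS : MeasurableSet S) {U : Set ℂ} (hU : MeasurableSet U) :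
    volume {z : W b | z ∈ S ∧ z.fst ∈ U} = ∫⁻ x in U, volume (fib S x) := by
  have hmp : MeasurePreserving (@WithLp.ofLp 2 (ℂ × B b)) :=
    WithLp.volume_preserving_ofLp ℂ (B b)
  set T : Set (ℂ × B b) := {p | (WithLp.toLp 2 p : W b) ∈ S ∧ p.1 ∈ U} with hT
  have hTm : MeasurableSet T := by
    refine MeasurableSet.inter ?_ (measurable_fst hU)
    exact (WithLp.prod_continuous_toLp 2 ℂ (B b)).measurable hS
  have h1 : {z : W b | z ∈ S ∧ z.fst ∈ U} = WithLp.ofLp ⁻¹' T := by
    ext z
    rfl
  rw [h1, hmp.measure_preimage hTm.nullMeasurableSet]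
  rw [show (volume : Measure (ℂ × B b)) = (volume : Measure ℂ).prod volume from rfl,
    Measure.prod_apply hTm, ← lintegral_indicator hU]
  refine lintegral_congr fun x => ?_
  by_cases hx : x ∈ U
  · rw [indicator_of_mem hx]
    congr 1
    ext y
    simp [hT, fib, hx]
  · rw [indicator_of_notMem hx]
    have : Prod.mk x ⁻¹' T = ∅ := by
      ext y
      simp [hT, hx]
    rw [this, measure_empty]

theorem fib_meas {b : ℕ} {S : Set (W b)} (hS : MeasurableSet S) (x : ℂ) :
    MeasurableSet (fib S x) := by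
  unfold fib
  exact (((WithLp.prod_continuous_toLp 2 ℂ (B b)).comp
    (continuous_const.prodMk continuous_id)).measurable) hS

theorem fib_aemeas {b : ℕ} {S : Set (W b)} (hS : MeasurableSet S) :
    Measurable (fun x => volume (fib S x)) := by
  have hT : MeasurableSet {p : ℂ × B b | (WithLp.toLp 2 p : W b) ∈ S} :=
    (WithLp.prod_continuous_toLp 2 ℂ (B b)).measurable hS
  exact measurable_measure_prodMk_left hT

/-- the fibres of a null set are null almost everywhere -/
theorem fib_null {b : ℕ} {S : Set (W b)} (hS : MeasurableSet S) (h0 : volume S = 0) :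
    ∀ᵐ x : ℂ, volume (fib S x) = 0 := by
  have h1 := fub hS MeasurableSet.univ
  simp only [mem_univ, and_true, ofPred_mem_eq, Measure.restrict_univ] at h1
  rw [h0] at h1
  exact (lintegral_eq_zero_iff (fib_aemeas hS)).mp h1.symm

end Pool.Agent.Helper188_CS
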