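import Pool.Agent.TH703.Cone.Stm

set_option autoImplicit false
set_option linter.unusedSectionVars false

/-!
The statement of `MP_65ff7c_an` for one constant and one finite-dimensional inner product space, and
its invariance under linear isometries.
-/

open MeasureTheory Set Metric Filter Topology
open scoped ENNReal RealInnerProductSpace
open Pool.Agent.TH703.Cone

namespace Pool.Agent.Helper188_CS

section

variable (E : Type) [NormedAddCommGroup E] [InnerProductSpace ℝ E] [FiniteDimensional ℝ E]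
  [MeasurableSpace E] [BorelSpace E]

/-- the body of the frozen statement for the constant `c` in the space `E` -/
def Cl (c : ℝ) : Prop :=
  ∀ (Ω A : Set E), IsOpen Ω → Ω.Nonempty → Convex ℝ Ω → Bornology.IsBounded Ω →
    (∀ x ∈ Ω, -x ∈ Ω) → MeasurableSet A → A ⊆ Ω → volume A = volume Ω / 2 →
    (∀ F : Set E, MeasurableSet F → F ⊆ Ω → volume F = volume A →
      ∀ φ : E → E, ContDiff ℝ 1 φ → HasCompactSupport φ → tsupport φ ⊆ Ω → (∀ x, ‖φ x‖ ≤ 1) →
        ∀ ε : ℝ, 0 < ε → ∃ ψ : E → E, ContDiff ℝ 1 ψ ∧ HasCompactSupport ψ ∧ tsupport ψ ⊆ Ω ∧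
          (∀ x, ‖ψ x‖ ≤ 1) ∧
          (∫ x in A, LinearMap.trace ℝ E (fderiv ℝ φ x).toLinearMap) ≤
            (∫ x in F, LinearMap.trace ℝ E (fderiv ℝ ψ x).toLinearMap) + ε) →
    ∃ Γ : ConvexCone ℝ E, volume ((Ω ∩ (Γ : Set E)) \ A) = 0 ∧
      volume ((Ω ∩ {x | -x ∈ Γ}) ∩ A) = 0 ∧
      ENNReal.ofReal c * volume Ω ≤ volume (Ω ∩ (Γ : Set E))

end

section transport

variable {E F : Type} [NormedAddCommGroup E] [InnerProductSpace ℝ E] [FiniteDimensional ℝ E]
  [MeasurableSpace E] [BorelSpace E] [NormedAddCommGroup F] [InnerProductSpace ℝ F]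
  [FiniteDimensional ℝ F] [MeasurableSpace F] [BorelSpace F]

/-- conjugation of a field -/
def cj (L : E ≃ₗᵢ[ℝ] F) (φ : F → F) : E → E := fun z => L.symm (φ (L z))

theorem cj_cd (L : E ≃ₗᵢ[ℝ] F) {φ : F → F} (h : ContDiff ℝ 1 φ) : ContDiff ℝ 1 (cj L φ) :=
  L.symm.contDiff.comp (h.comp L.contDiff)

theorem cj_tsupport (L : E ≃ₗᵢ[ℝ] F) (φ : F → F) : tsupport (cj L φ) = L ⁻¹' tsupport φ := by
  have h1 : Function.support (cj L φ) = L.toHomeomorph ⁻¹' Function.support φ := by
    ext z
    simp only [Function.mem_support, mem_preimage, cj]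
    constructor
    · intro h h0; exact h (by rw [show φ (L z) = 0 from h0, map_zero])
    · intro h h0
      apply h
      have : L (L.symm (φ (L z))) = L 0 := by rw [h0]
      rw [LinearIsometryEquiv.apply_symm_apply, map_zero] at this
      exact this
  unfold tsupport
  rw [h1, ← L.toHomeomorph.preimage_closure]
  rfl

theorem cj_cs (L : E ≃ₗᵢ[ℝ] F) {φ : F → F} (h : HasCompactSupport φ) :
    HasCompactSupport (cj L φ) := by
  unfold HasCompactSupport
  rw [cj_tsupport]
  exact L.toHomeomorph.isCompact_preimage.mpr h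

theorem cj_norm (L : E ≃ₗᵢ[ℝ] F) {φ : F → F} (h : ∀ x, ‖φ x‖ ≤ 1) (z : E) : ‖cj L φ z‖ ≤ 1 := by
  unfold cj
  rw [LinearIsometryEquiv.norm_map]
  exact h _

theorem cj_trace (L : E ≃ₗᵢ[ℝ] F) {φ : F → F} (h : ContDiff ℝ 1 φ) (z : E) :
    LinearMap.trace ℝ E (fderiv ℝ (cj L φ) z).toLinearMap =
      LinearMap.trace ℝ F (fderiv ℝ φ (L z)).toLinearMap := by
  have hd : DifferentiableAt ℝ φ (L z) := (h.differentiable one_ne_zero) _
  have h1 : HasFDerivAt (cj L φ)
      ((L.symm.toContinuousLinearEquiv : F →L[ℝ] E).comp ((fderiv ℝ φ (L z)).comp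
        (L.toContinuousLinearEquiv : E →L[ℝ] F))) z := by
    have h2 := hd.hasFDerivAt.comp z (L.toContinuousLinearEquiv.hasFDerivAt (x := z))
    exact (L.symm.toContinuousLinearEquiv.hasFDerivAt (x := φ (L z))).comp z h2
  rw [h1.fderiv]
  have h3 : (((L.symm.toContinuousLinearEquiv : F →L[ℝ] E).comp ((fderiv ℝ φ (L z)).comp
      (L.toContinuousLinearEquiv : E →L[ℝ] F)) : E →L[ℝ] E) : E →ₗ[ℝ] E) =
      L.toLinearEquiv.symm.conj (fderiv ℝ φ (L z)).toLinearMap := by
    ext x; rfl
  rw [h3, LinearMap.trace_conj']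

theorem cl_of_equiv (L : E ≃ₗᵢ[ℝ] F) {c : ℝ} (h : Cl F c) : Cl E c := by
  intro Ω A hΩ hne hconv hbd hsym hA hAΩ hvol hmin
  have hmp : MeasurePreserving L := L.measurePreserving
  have hmp' : MeasurePreserving L.symm := L.symm.measurePreserving
  have hem : MeasurableEmbedding L := L.toHomeomorph.measurableEmbedding
  have hem' : MeasurableEmbedding L.symm := L.symm.toHomeomorph.measurableEmbedding
  have hv : ∀ S : Set E, volume (L.symm ⁻¹' S) = volume S := fun S =>
    hmp'.measure_preimage_emb hem' S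
  have hv' : ∀ S : Set F, volume (L ⁻¹' S) = volume S := fun S =>
    hmp.measure_preimage_emb hem S
  have hback : ∀ S : Set F, L.symm ⁻¹' (L ⁻¹' S) = S := by
    intro S; ext x; simp
  obtain ⟨Γ, h1, h2, h3⟩ := h (L.symm ⁻¹' Ω) (L.symm ⁻¹' A) (hΩ.preimage L.symm.continuous)
    (by
      obtain ⟨x, hx⟩ := hne
      exact ⟨L x, by simpa using hx⟩)
    (hconv.linear_preimage L.symm.toLinearEquiv.toLinearMap)
    (by
      obtain ⟨R, hR⟩ := hbd.subset_closedBall 0
      refine (isBounded_closedBall (x := (0 : F)) (r := R)).subset ?_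
      intro x hx
      have h4 := hR hx
      rw [mem_closedBall, dist_zero_right] at h4 ⊢
      rwa [LinearIsometryEquiv.norm_map] at h4)
    (by
      intro x hx
      change L.symm (-x) ∈ Ω
      rw [map_neg]
      exact hsym _ hx)
    (hA.preimage L.symm.continuous.measurable) (fun x hx => hAΩ hx)
    (by rw [hv, hv, hvol])
    (by
      intro G hG hGΩ hGv φ p1 p2 p3 p4 ε hε
      obtain ⟨ψ, q1, q2, q3, q4, q5⟩ := hmin (L ⁻¹' G) (hG.preimage L.continuous.measurable)
        (by
          intro x hx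
          have := hGΩ hx
          simpa using this)
        (by rw [hv', hGv, hv]) (cj L φ) (cj_cd L p1) (cj_cs L p2)
        (by
          rw [cj_tsupport]
          intro x hx
          have := p3 hx
          simpa using this)
        (cj_norm L p4) ε hε
      refine ⟨cj L.symm ψ, cj_cd L.symm q1, cj_cs L.symm q2, ?_, cj_norm L.symm q4, ?_⟩
      · rw [cj_tsupport]
        exact fun x hx => q3 hx
      · have e1 : ∫ x in L.symm ⁻¹' A, LinearMap.trace ℝ F (fderiv ℝ φ x).toLinearMap =
            ∫ x in A, LinearMap.trace ℝ E (fderiv ℝ (cj L φ) x).toLinearMap := by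
          rw [← hmp'.setIntegral_preimage_emb hem']
          refine setIntegral_congr_fun (hA.preimage L.symm.continuous.measurable) fun x _ => ?_
          change _ = LinearMap.trace ℝ E (fderiv ℝ (cj L φ) (L.symm x)).toLinearMap
          rw [cj_trace L p1, LinearIsometryEquiv.apply_symm_apply]
        have e2 : ∫ x in G, LinearMap.trace ℝ F (fderiv ℝ (cj L.symm ψ) x).toLinearMap =
            ∫ x in L ⁻¹' G, LinearMap.trace ℝ E (fderiv ℝ ψ x).toLinearMap := by
          rw [← hmp.setIntegral_preimage_emb hem]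
          refine setIntegral_congr_fun (hG.preimage L.continuous.measurable) fun x _ => ?_
          change LinearMap.trace ℝ F (fderiv ℝ (cj L.symm ψ) (L x)).toLinearMap =
            LinearMap.trace ℝ E (fderiv ℝ ψ x).toLinearMap
          rw [cj_trace L.symm q1, LinearIsometryEquiv.symm_apply_apply]
        rw [e1, e2]
        exact q5)
  refine ⟨Γ.comap L.toLinearEquiv.toLinearMap, ?_, ?_, ?_⟩
  · rw [← hv]
    refine Eq.trans ?_ h1
    congr 1
    ext x
    simp
  · rw [← hv]
    refine Eq.trans ?_ h2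
    congr 1
    ext x
    simp
  · rw [← hv, ← hv (Ω ∩ _)]
    refine le_trans h3 (le_of_eq ?_)
    congr 1
    ext x
    simp

end transport

end Pool.Agent.Helper188_CS
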