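import Pool.Agent.TH703.Cone.Exist
import Pool.Agent.TH703.Cone.Trans
import Pool.Agent.Helper188_CS.Fub
import Pool.Agent.Helper188_CS.Defs
import Pool.Agent.Helper188_CS.Transport

set_option autoImplicit false

/-!
The minimizer of half volume in `Om b ε` is not trapped by a cone of volume at least `c |Om b ε|`.
-/

open MeasureTheory Set Metric Filter Topology
open scoped ENNReal RealInnerProductSpace Pointwise
open Pool.Agent.TH703.Cone

namespace Pool.Agent.Helper188_CS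

/-- the numerical inequality -/
def S_NUM : Prop := ∀ b : ℕ, 1000 ≤ b →
    (∃ r : ℝ, 0 < r ∧ r < 1 ∧ (1 - r) ^ (b + 1) * (1 + ((b : ℝ) + 1) * r) = 1 / 2) ∧
    ∀ r : ℝ, 0 < r → r < 1 → (1 - r) ^ (b + 1) * (1 + ((b : ℝ) + 1) * r) = 1 / 2 →
      2 * Real.pi * r * (1 - r) ^ b + 1 / (100 * ((b : ℝ) + 1)) ≤
        2 * ∫ ρ in (1 / (2000 * ((b : ℝ) + 1)))..(7 / (b : ℝ)), (1 - ρ) ^ b

theorem vb_pos (b : ℕ) {ε : ℝ} (hε : 0 < ε) : 0 < vb b ε := by
  unfold vb Measure.real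
  refine ENNReal.toReal_pos (measure_ball_pos _ _ hε).ne' measure_ball_lt_top.ne

/-- the key estimate of the error sets, from T5 -/
theorem err_le (h5 : S_T5) {b : ℕ} {ε I η : ℝ} (hb : 1 ≤ b) (hε : 0 < ε) (hη : 0 < η)
    {A : Set (W b)} (hA : MeasurableSet A) (hAΩ : A ⊆ Om b ε) (hI : 0 ≤ I)
    (hP : PLE (Om b ε) A I) {U : Set ℂ} (hU : MeasurableSet U) (X Y : Set (W b))
    (hY : MeasurableSet Y)
    (hXY : ∀ x, volume (fib X x) * volume (fib Y x) =
      volume (fib A x) * volume (fib (Om b ε \ A) x))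
    (hX : ∀ᵐ x : ℂ, x ∈ U → ENNReal.ofReal (η * vb b ε) ≤ volume (fib X x)) :
    volume.real {z : W b | z ∈ Y ∧ z.fst ∈ U} ≤ 2 ^ (b + 1) * ε * I / η := by
  have hvb := vb_pos b hε
  have h1 := h5 b ε I A hb hε hA hAΩ hI hP
  have h2 : ENNReal.ofReal (η * vb b ε) * volume {z : W b | z ∈ Y ∧ z.fst ∈ U} ≤
      ENNReal.ofReal (2 ^ (b + 1) * ε * vb b ε * I) := by
    rw [fub hY hU, ← lintegral_const_mul _ (fib_aemeas hY)]
    refine le_trans ?_ h1
    calc ∫⁻ x in U, ENNReal.ofReal (η * vb b ε) * volume (fib Y x)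
        ≤ ∫⁻ x in U, volume (fib X x) * volume (fib Y x) := by
          refine lintegral_mono_ae ?_
          rw [ae_restrict_iff' hU]
          filter_upwards [hX] with x hx hxU
          exact mul_le_mul_left (hx hxU) _
      _ = ∫⁻ x in U, volume (fib A x) * volume (fib (Om b ε \ A) x) :=
          lintegral_congr fun x => hXY x
      _ ≤ _ := setLIntegral_le_lintegral _ _
  have h3 : volume {z : W b | z ∈ Y ∧ z.fst ∈ U} ≤ ENNReal.ofReal (2 ^ (b + 1) * ε * I / η) := by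
    have h4 : ENNReal.ofReal (η * vb b ε) * ENNReal.ofReal (2 ^ (b + 1) * ε * I / η) =
        ENNReal.ofReal (2 ^ (b + 1) * ε * vb b ε * I) := by
      rw [← ENNReal.ofReal_mul (by positivity)]
      congr 1
      field_simp
    rw [← h4] at h2
    exact (ENNReal.mul_le_mul_iff_right (by
      rw [ne_eq, ENNReal.ofReal_eq_zero, not_le]; positivity) ENNReal.ofReal_ne_top).mp h2
  unfold Measure.real
  refine ENNReal.toReal_le_of_le_ofReal (by positivity) h3


/-- For every `c` the claim fails in `W b` for a suitable `b`. -/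
theorem not_cl (h3 : S_T3) (h4 : S_T4) (h5 : S_T5) (h6 : S_T6k) (h7b : S_T7b) (hN : S_NUM)
    {c : ℝ} (hc : 0 < c) (hc1 : c ≤ 1) : ∃ b : ℕ, ¬ Cl (W b) c := by
  obtain ⟨b, hb⟩ := exists_nat_gt (1000 * (8 : ℝ) ^ 2 / c ^ 2)
  have hbR : (1000 : ℝ) ≤ b := by
    have h1 : (1000 : ℝ) * 8 ^ 2 ≤ 1000 * 8 ^ 2 / c ^ 2 := by
      rw [le_div_iff₀ (by positivity)]
      have : c ^ 2 ≤ 1 := by nlinarith
      nlinarith
    linarith
  have hb1000 : 1000 ≤ b := by exact_mod_cast hbR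
  have hb1 : 1 ≤ b := by omega
  have hb0 : (0 : ℝ) < b := by linarith
  refine ⟨b, fun hcl => ?_⟩
  obtain ⟨⟨r, hr0, hr1, hrF⟩, hnum⟩ := hN b hb1000
  have hNUM := hnum r hr0 hr1 hrF
  set r₀ : ℝ := 1 / (2000 * ((b : ℝ) + 1)) with hr₀
  have hr₀pos : 0 < r₀ := by positivity
  obtain ⟨σ, η, hσ, hσ1, hη, hT6⟩ := h6 b c 8 r₀ hc hc1 (by norm_num) hb hr₀pos
  have hK : ((8 : ℝ) - 1) / b = 7 / b := by norm_num
  rw [hK] at hT6
  have hR : r₀ < 7 / b := by
    rw [hr₀, div_lt_div_iff₀ (by positivity) hb0]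
    nlinarith
  have hR1 : (7 : ℝ) / b < 1 := by
    rw [div_lt_one hb0]; linarith
  -- the choice of `ε`
  set Q : ℝ := 3 / (2 * σ * r₀) * (2 * (2 ^ (b + 1) * (2 * Real.pi) / η)) with hQ
  have hQpos : 0 < Q := by positivity
  set ε : ℝ := 1 / (200 * ((b : ℝ) + 1) * Q) with hεdef
  have hε : 0 < ε := by positivity
  have hεQ : Q * ε = 1 / (200 * ((b : ℝ) + 1)) := by
    rw [hεdef]; field_simp
  have hvb := vb_pos b hε
  have hΩo := Om_isOpen b ε
  have hΩfin : volume (Om b ε) ≠ ⊤ := (Om_bdd b hε).measure_lt_top.ne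
  -- the cylinder of half volume
  set A₀ : Set (W b) := {z | z ∈ Om b ε ∧ ‖z.fst‖ < r} with hA₀
  have hA₀m : MeasurableSet A₀ :=
    hΩo.measurableSet.inter (measurableSet_lt continuous_fst'.norm.measurable measurable_const)
  have hvol1 : volume (Om b ε) =
      ENNReal.ofReal (vb b ε * (2 * Real.pi * (1 / ((b + 1) * (b + 2))))) := by
    have h1 := h7b b ε 1 hb1 hε zero_le_one le_rfl
    have h2 : {z | z ∈ Om b ε ∧ ‖z.fst‖ < 1} = Om b ε := by
      ext z
      exact ⟨fun h => h.1, fun h => ⟨h, Om_fst hε h⟩⟩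
    rw [h2] at h1
    rw [h1]
    congr 3
    simp
  have hvol2 : volume A₀ = volume (Om b ε) / 2 := by
    have h1 := h7b b ε r hb1 hε hr0.le hr1.le
    rw [hrF] at h1
    rw [hA₀, h1, hvol1]
    rw [show (2 : ℝ≥0∞) = ENNReal.ofReal 2 by simp, ← ENNReal.ofReal_div_of_pos (by norm_num)]
    congr 1
    ring
  -- the minimizer
  set P₀ : ℝ := vb b ε * (2 * Real.pi * r * (1 - r) ^ b) with hP₀
  have hPLE₀ : PLE (Om b ε) A₀ P₀ := h3 b ε r hb1 hε hr0 hr1
  obtain ⟨A, I, hA, hAΩ, hAv, hAP, hmin⟩ := exist (W b) (t1 (W b)) (Om b ε) A₀ P₀ hΩo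
    (Om_convex b hε) (Om_zero b ε) (Om_bdd b hε) hA₀m (fun z hz => hz.1) hPLE₀
  have hIP : I ≤ P₀ := hmin A₀ P₀ hA₀m (fun z hz => hz.1) rfl hPLE₀
  have hI0 : 0 ≤ I := by
    have ht : Tst (Om b ε) (fun _ : W b => (0 : W b)) := by
      refine ⟨contDiff_const, HasCompactSupport.zero, ?_, fun x => by simp⟩
      have : tsupport (fun _ : W b => (0 : W b)) = ∅ := by
        rw [tsupport_eq_empty_iff]; rfl
      rw [this]
      exact empty_subset _
    have h2 := hAP _ ht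
    have h3 : ∀ x : W b, dv (fun _ : W b => (0 : W b)) x = 0 := by
      intro x
      unfold dv
      simp
    simp only [h3, integral_zero] at h2
    exact h2
  -- the cone
  obtain ⟨Γ, hΓ1, hΓ2, hΓ3⟩ := hcl (Om b ε) A hΩo ⟨0, Om_zero b ε⟩ (Om_convex b hε)
    (Om_bdd b hε) (fun x hx => Om_neg hx) hA hAΩ (by rw [hAv, hvol2])
    (by
      intro F hF hFΩ hFv φ p1 p2 p3 p4 δ hδ
      by_contra hcon
      push Not at hcon
      have hle : PLE (Om b ε) F ((∫ x in A, dv φ x) - δ) := by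
        intro ψ hψ
        have := hcon ψ hψ.c1 hψ.cs hψ.sub hψ.le
        unfold dv
        linarith
      have h1 := hmin F _ hF hFΩ (by rw [hFv, hAv]) hle
      have h2 := hAP φ ⟨p1, p2, p3, p4⟩
      linarith)
  set G : Set (W b) := interior (Γ : Set (W b)) with hG
  have hGo : IsOpen G := isOpen_interior
  have hGs : ∀ z ∈ G, ∀ t : ℝ, 0 < t → t • z ∈ G := by
    intro z hz t ht
    have h1 : t • G ⊆ (Γ : Set (W b)) := by
      rintro _ ⟨y, hy, rfl⟩
      exact Γ.smul_mem ht (interior_subset hy)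
    exact interior_maximal h1 (hGo.smul₀ ht.ne') (smul_mem_smul_set hz)
  have hGa : ∀ z ∈ G, ∀ w ∈ G, z + w ∈ G := by
    intro z hz w hw
    have h1 : (fun y => y + w) '' G ⊆ (Γ : Set (W b)) := by
      rintro _ ⟨y, hy, rfl⟩
      exact Γ.add_mem (interior_subset hy) (interior_subset hw)
    have h2 : IsOpen ((fun y => y + w) '' G) := (Homeomorph.addRight w).isOpenMap _ hGo
    exact interior_maximal h1 h2 ⟨z, hz, rfl⟩
  have hfr : volume (frontier (Γ : Set (W b))) = 0 := Γ.convex.addHaar_frontier volume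
  have hΓG : ENNReal.ofReal c * volume (Om b ε) ≤ volume (Om b ε ∩ G) := by
    refine hΓ3.trans ?_
    have h1 : Om b ε ∩ (Γ : Set (W b)) ⊆ (Om b ε ∩ G) ∪ frontier (Γ : Set (W b)) := by
      rintro z ⟨hz1, hz2⟩
      by_cases h : z ∈ G
      · exact Or.inl ⟨hz1, h⟩
      · exact Or.inr ⟨subset_closure hz2, h⟩
    calc volume (Om b ε ∩ (Γ : Set (W b))) ≤ volume (Om b ε ∩ G) +
          volume (frontier (Γ : Set (W b))) := (measure_mono h1).trans (measure_union_le _ _)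
      _ = volume (Om b ε ∩ G) := by rw [hfr, add_zero]
  have hG1 : volume ((Om b ε ∩ G) \ A) = 0 := by
    refine measure_mono_null ?_ hΓ1
    rintro z ⟨⟨h1, h2⟩, h3⟩
    exact ⟨⟨h1, interior_subset h2⟩, h3⟩
  have hG2 : volume ((Om b ε ∩ {x | -x ∈ G}) ∩ A) = 0 := by
    refine measure_mono_null ?_ hΓ2
    rintro z ⟨⟨h1, h2⟩, h3⟩
    have h4 : -z ∈ interior (Γ : Set (W b)) := h2
    have h5 : -z ∈ Γ := interior_subset h4
    exact ⟨⟨h1, h5⟩, h3⟩
  have hGnm : MeasurableSet {x : W b | -x ∈ G} := (hGo.preimage continuous_neg).measurableSet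
  obtain ⟨u, hu, hW⟩ := hT6 ε G hε hGo hGs hGa hΓG
  -- the two error sets
  have hE1 : volume.real {z : W b | z ∈ Om b ε \ A ∧ z.fst ∈ Wp u σ r₀ (7 / b)} ≤
      2 ^ (b + 1) * ε * I / η := by
    refine err_le h5 hb1 hε hη hA hAΩ hI0 hAP (Wp_meas _ _ _ _) A (Om b ε \ A)
      (hΩo.measurableSet.diff hA) (fun x => rfl) ?_
    have hn := fib_null ((hΩo.measurableSet.inter hGo.measurableSet).diff hA) hG1
    filter_upwards [hn] with x hx hxW
    refine (hW x hxW).trans ?_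
    have h1 : fib (Om b ε ∩ G) x ⊆ fib A x ∪ fib ((Om b ε ∩ G) \ A) x := by
      intro y hy
      by_cases h : y ∈ fib A x
      · exact Or.inl h
      · exact Or.inr ⟨hy, h⟩
    calc volume (fib (Om b ε ∩ G) x) ≤ volume (fib A x) + volume (fib ((Om b ε ∩ G) \ A) x) :=
          (measure_mono h1).trans (measure_union_le _ _)
      _ = volume (fib A x) := by rw [hx, add_zero]
  have hE2 : volume.real {z : W b | z ∈ A ∧ -z.fst ∈ Wp u σ r₀ (7 / b)} ≤
      2 ^ (b + 1) * ε * I / η := by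
    have hUm : MeasurableSet {x : ℂ | -x ∈ Wp u σ r₀ (7 / b)} :=
      continuous_neg.measurable (Wp_meas _ _ _ _)
    refine err_le h5 hb1 hε hη hA hAΩ hI0 hAP hUm (Om b ε \ A) A
      hA (fun x => mul_comm _ _) ?_
    have hn := fib_null ((hΩo.measurableSet.inter hGnm).inter hA) hG2
    filter_upwards [hn] with x hx hxW
    refine (hW (-x) hxW).trans ?_
    have e1 : fib (Om b ε ∩ G) (-x) = -fib (Om b ε ∩ {x | -x ∈ G}) x := by
      ext y
      constructor
      · rintro ⟨g1, g2⟩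
        refine ⟨?_, ?_⟩
        · have := Om_neg g1
          have e2 : -(WithLp.toLp 2 (-x, y) : W b) = WithLp.toLp 2 (x, -y) := by
            rw [← WithLp.toLp_neg]; simp
          rwa [e2] at this
        · change -(WithLp.toLp 2 (x, -y) : W b) ∈ G
          have e2 : -(WithLp.toLp 2 (x, -y) : W b) = WithLp.toLp 2 (-x, y) := by
            rw [← WithLp.toLp_neg]; simp
          rw [e2]; exact g2
      · rintro ⟨g1, g2⟩
        refine ⟨?_, ?_⟩
        · have := Om_neg g1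
          have e2 : -(WithLp.toLp 2 (x, -y) : W b) = WithLp.toLp 2 (-x, y) := by
            rw [← WithLp.toLp_neg]; simp
          rwa [e2] at this
        · have g3 : -(WithLp.toLp 2 (x, -y) : W b) ∈ G := g2
          have e2 : -(WithLp.toLp 2 (x, -y) : W b) = WithLp.toLp 2 (-x, y) := by
            rw [← WithLp.toLp_neg]; simp
          rw [e2] at g3; exact g3
    rw [e1, Measure.measure_neg]
    have h1 : fib (Om b ε ∩ {x | -x ∈ G}) x ⊆ fib (Om b ε \ A) x ∪
        fib ((Om b ε ∩ {x | -x ∈ G}) ∩ A) x := by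
      intro y hy
      by_cases h : y ∈ fib A x
      · exact Or.inr ⟨hy, h⟩
      · exact Or.inl ⟨hy.1, h⟩
    calc volume (fib (Om b ε ∩ {x | -x ∈ G}) x) ≤ volume (fib (Om b ε \ A) x) +
          volume (fib ((Om b ε ∩ {x | -x ∈ G}) ∩ A) x) :=
          (measure_mono h1).trans (measure_union_le _ _)
      _ = volume (fib (Om b ε \ A) x) := by rw [hx, add_zero]
  -- the contradiction
  have hlow := h4 b ε I A u σ r₀ (7 / b) hb1 hε hA hAΩ hAP hu hσ hσ1 hr₀pos hR hR1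
  have hI2 : I ≤ vb b ε * (2 * Real.pi) := by
    refine hIP.trans ?_
    rw [hP₀]
    have h1 : (1 - r) ^ b ≤ 1 := pow_le_one₀ (by linarith) (by linarith)
    have h2 : r * (1 - r) ^ b ≤ 1 := by nlinarith [pow_nonneg (sub_nonneg.mpr hr1.le) b]
    have h3 : 2 * Real.pi * r * (1 - r) ^ b ≤ 2 * Real.pi := by
      have := Real.pi_pos
      nlinarith
    exact mul_le_mul_of_nonneg_left h3 hvb.le
  have hsum : 3 / (2 * σ * r₀) *
      (volume.real {z : W b | z ∈ Om b ε \ A ∧ z.fst ∈ Wp u σ r₀ (7 / b)} +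
        volume.real {z : W b | z ∈ A ∧ -z.fst ∈ Wp u σ r₀ (7 / b)}) ≤
      vb b ε * (1 / (200 * ((b : ℝ) + 1))) := by
    rw [← hεQ, hQ]
    have h1 : 2 ^ (b + 1) * ε * I / η ≤ 2 ^ (b + 1) * ε * (vb b ε * (2 * Real.pi)) / η := by
      gcongr
    calc 3 / (2 * σ * r₀) *
        (volume.real {z : W b | z ∈ Om b ε \ A ∧ z.fst ∈ Wp u σ r₀ (7 / b)} +
          volume.real {z : W b | z ∈ A ∧ -z.fst ∈ Wp u σ r₀ (7 / b)}) ≤
        3 / (2 * σ * r₀) * (2 ^ (b + 1) * ε * (vb b ε * (2 * Real.pi)) / η +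
          2 ^ (b + 1) * ε * (vb b ε * (2 * Real.pi)) / η) := by
          gcongr
          · exact hE1.trans h1
          · exact hE2.trans h1
      _ = _ := by ring
  have h8 : vb b ε * (2 * ∫ ρ in r₀..(7 / (b : ℝ)), (1 - ρ) ^ b) ≤
      vb b ε * (2 * Real.pi * r * (1 - r) ^ b) + vb b ε * (1 / (200 * ((b : ℝ) + 1))) := by
    calc _ ≤ _ := hlow
      _ ≤ _ := add_le_add hIP hsum
  have h9 : 2 * ∫ ρ in r₀..(7 / (b : ℝ)), (1 - ρ) ^ b ≤
      2 * Real.pi * r * (1 - r) ^ b + 1 / (200 * ((b : ℝ) + 1)) := by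
    have : vb b ε * (2 * ∫ ρ in r₀..(7 / (b : ℝ)), (1 - ρ) ^ b) ≤
        vb b ε * (2 * Real.pi * r * (1 - r) ^ b + 1 / (200 * ((b : ℝ) + 1))) := by
      rw [mul_add]; exact h8
    exact le_of_mul_le_mul_left this hvb
  have h10 : (1 : ℝ) / (200 * ((b : ℝ) + 1)) < 1 / (100 * ((b : ℝ) + 1)) := by
    rw [div_lt_div_iff₀ (by positivity) (by positivity)]
    nlinarith
  linarith

end Pool.Agent.Helper188_CS
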