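import Pool.Agent.Helper188_CS.Defs

set_option autoImplicit false

open MeasureTheory Set Metric Filter Topology
open scoped ENNReal RealInnerProductSpace
open Pool.Agent.TH703.Cone

namespace Pool.Agent.Helper188_CS

theorem t7a : S_T7a := by
  intro b ε hb hε f hf
  have : NeZero b := ⟨by omega⟩
  have : Nonempty (Fin b) := ⟨⟨0, by omega⟩⟩
  have hmp : MeasurePreserving (@WithLp.ofLp 2 (ℂ × B b)) volume volume :=
    WithLp.volume_preserving_ofLp ℂ (B b)
  set S : Set (ℂ × B b) := {p | ‖p.1‖ + ‖p.2‖ / ε < 1} with hS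
  have hSo : MeasurableSet S := by
    apply IsOpen.measurableSet
    apply isOpen_lt _ continuous_const
    fun_prop
  have hpre : Om b ε = (@WithLp.ofLp 2 (ℂ × B b)) ⁻¹' S := rfl
  have h1 : ∫⁻ z in Om b ε, f z.fst = ∫⁻ p in S, f p.1 := by
    rw [hpre]
    rw [← hmp.setLIntegral_comp_preimage hSo (f := fun p : ℂ × B b => f p.1) (by fun_prop)]
    rfl
  rw [h1, ← lintegral_indicator hSo, Measure.volume_eq_prod]
  have hmeas : Measurable (S.indicator (fun p : ℂ × B b => f p.1)) :=
    (hf.comp measurable_fst).indicator hSo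
  rw [lintegral_prod _ hmeas.aemeasurable]
  rw [← lintegral_indicator measurableSet_ball, ← lintegral_const_mul' _ _ ENNReal.ofReal_ne_top]
  apply lintegral_congr
  intro x
  have h2 : ∀ y : B b, S.indicator (fun p : ℂ × B b => f p.1) (x, y)
      = (ball (0 : B b) (ε * (1 - ‖x‖))).indicator (fun _ => f x) y := by
    intro y
    have h3 : (x, y) ∈ S ↔ y ∈ ball (0 : B b) (ε * (1 - ‖x‖)) := by
      rw [mem_ball_zero_iff]
      show ‖x‖ + ‖y‖ / ε < 1 ↔ _
      constructor
      · intro h
        have : ‖y‖ / ε < 1 - ‖x‖ := by linarith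
        rw [div_lt_iff₀ hε] at this
        linarith
      · intro h
        have : ‖y‖ / ε < 1 - ‖x‖ := by
          rw [div_lt_iff₀ hε]
          linarith
        linarith
    by_cases h4 : (x, y) ∈ S
    · rw [indicator_of_mem h4, indicator_of_mem (h3.mp h4)]
    · rw [indicator_of_notMem h4, indicator_of_notMem (fun h => h4 (h3.mpr h))]
  simp_rw [h2]
  rw [lintegral_indicator measurableSet_ball, setLIntegral_const]
  by_cases hx : x ∈ ball (0 : ℂ) 1
  · rw [indicator_of_mem hx]
    rw [mem_ball_zero_iff] at hx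
    have h5 : 0 < 1 - ‖x‖ := by linarith
    have h6 : volume (ball (0 : B b) (ε * (1 - ‖x‖)))
        = ENNReal.ofReal ((1 - ‖x‖) ^ b) * volume (ball (0 : B b) ε) := by
      have := Measure.addHaar_ball_mul_of_pos (volume : Measure (B b)) (0 : B b) h5 ε
      rw [mul_comm ε, this]
      simp
    rw [h6]
    have h7 : volume (ball (0 : B b) ε) = ENNReal.ofReal (vb b ε) := by
      unfold vb Measure.real
      rw [ENNReal.ofReal_toReal]
      exact measure_ball_lt_top.ne
    rw [h7]
    ring
  · rw [indicator_of_notMem hx, mul_zero]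
    rw [mem_ball_zero_iff, not_lt] at hx
    have : ball (0 : B b) (ε * (1 - ‖x‖)) = ∅ := by
      apply ball_eq_empty.mpr
      nlinarith
    rw [this]
    simp

end Pool.Agent.Helper188_CS
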