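import Pool.Agent.Helper188_CS.Defs

set_option autoImplicit false

open MeasureTheory Set Metric Filter Topology
open scoped ENNReal RealInnerProductSpace
open Pool.Agent.TH703.Cone

namespace Pool.Agent.Helper188_CS



namespace M12

theorem cont_fst (b : ℕ) : Continuous (fun z : W b => z.fst) := by
  fun_prop

theorem cont_snd (b : ℕ) : Continuous (fun z : W b => z.snd) := by
  fun_prop

theorem om_open (b : ℕ) : IsOpen (Om b 1) := by
  unfold Om
  exact isOpen_lt (by fun_prop) continuous_const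

theorem om_lt {b : ℕ} {z : W b} (hz : z ∈ Om b 1) : ‖z.fst‖ < 1 ∧ ‖z.snd‖ < 1 := by
  have h : ‖z.fst‖ + ‖z.snd‖ / 1 < 1 := hz
  rw [div_one] at h
  have h1 := norm_nonneg z.fst
  have h2 := norm_nonneg z.snd
  constructor <;> linarith

theorem om_vol (h7b : S_T7b) {b : ℕ} (hb : 1 ≤ b) :
    volume (Om b 1) = ENNReal.ofReal (vb b 1 * (2 * Real.pi * (1 / ((b + 1) * (b + 2))))) := by
  have h := h7b b 1 1 hb one_pos zero_le_one le_rfl
  have e : {z : W b | z ∈ Om b 1 ∧ ‖z.fst‖ < 1} = Om b 1 := by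
    ext z
    exact ⟨fun h => h.1, fun h => ⟨h, (om_lt h).1⟩⟩
  rw [e] at h
  rw [h]
  simp

theorem m1 (h7a : S_T7a) (h7b : S_T7b) : S_M1 := by
  intro b s hb hs
  have hms : MeasurableSet (closedBall (0 : ℂ) s) := measurableSet_closedBall
  have hmf : Measurable (fun z : W b => z.fst) := (cont_fst b).measurable
  have hvb : 0 ≤ vb b 1 := measureReal_nonneg
  have h1 : volume {z : W b | z ∈ Om b 1 ∧ ‖z.fst‖ ≤ s} =
      ∫⁻ z in Om b 1, (closedBall (0 : ℂ) s).indicator (fun _ => (1 : ℝ≥0∞)) z.fst := by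
    have e1 : (fun z : W b => (closedBall (0 : ℂ) s).indicator (fun _ => (1 : ℝ≥0∞)) z.fst) =
        ((fun z : W b => z.fst) ⁻¹' (closedBall (0 : ℂ) s)).indicator (fun _ => (1 : ℝ≥0∞)) := by
      funext z
      rfl
    rw [e1, lintegral_indicator_const (hms.preimage hmf), one_mul,
      Measure.restrict_apply (hms.preimage hmf)]
    congr 1
    ext z
    simp only [mem_setOf_eq, mem_inter_iff, mem_preimage, mem_closedBall, dist_zero_right]
    exact and_comm
  rw [h1, h7a b 1 hb one_pos _ (measurable_const.indicator hms), om_vol h7b hb]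
  have h2 : ∫⁻ x in ball (0 : ℂ) 1, (closedBall (0 : ℂ) s).indicator (fun _ => (1 : ℝ≥0∞)) x *
      ENNReal.ofReal ((1 - ‖x‖) ^ b) ≤ ENNReal.ofReal (Real.pi * s ^ 2) := by
    calc ∫⁻ x in ball (0 : ℂ) 1, (closedBall (0 : ℂ) s).indicator (fun _ => (1 : ℝ≥0∞)) x *
          ENNReal.ofReal ((1 - ‖x‖) ^ b)
        ≤ ∫⁻ x in ball (0 : ℂ) 1, (closedBall (0 : ℂ) s).indicator (fun _ => (1 : ℝ≥0∞)) x := by
          refine setLIntegral_mono' measurableSet_ball (fun x hx => ?_)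
          have h3 : ENNReal.ofReal ((1 - ‖x‖) ^ b) ≤ 1 := by
            rw [ENNReal.ofReal_le_one]
            have hx' : ‖x‖ < 1 := by simpa using hx
            exact pow_le_one₀ (by linarith) (by linarith [norm_nonneg x])
          calc _ ≤ (closedBall (0 : ℂ) s).indicator (fun _ => (1 : ℝ≥0∞)) x * 1 := by gcongr
            _ = _ := mul_one _
      _ ≤ ∫⁻ x : ℂ, (closedBall (0 : ℂ) s).indicator (fun _ => (1 : ℝ≥0∞)) x :=
          setLIntegral_le_lintegral _ _
      _ = volume (closedBall (0 : ℂ) s) := by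
          rw [lintegral_indicator_const hms, one_mul]
      _ = ENNReal.ofReal (Real.pi * s ^ 2) := by
          rw [Complex.volume_closedBall, ← ENNReal.ofReal_pow hs, mul_comm,
            ENNReal.ofReal_mul Real.pi_pos.le]
          congr 1
          rw [← NNReal.coe_real_pi, ENNReal.ofReal_coe_nnreal]
  calc ENNReal.ofReal (vb b 1) * _ ≤ ENNReal.ofReal (vb b 1) * ENNReal.ofReal (Real.pi * s ^ 2) := by
        gcongr
    _ = ENNReal.ofReal (((b : ℝ) + 1) * (b + 2) * s ^ 2 / 2) *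
        ENNReal.ofReal (vb b 1 * (2 * Real.pi * (1 / ((b + 1) * (b + 2))))) := by
        rw [← ENNReal.ofReal_mul hvb, ← ENNReal.ofReal_mul (by positivity)]
        congr 1
        have h4 : ((b : ℝ) + 1) ≠ 0 := by positivity
        have h5 : ((b : ℝ) + 2) ≠ 0 := by positivity
        field_simp

theorem om_fin (h7b : S_T7b) {b : ℕ} (hb : 1 ≤ b) : volume (Om b 1) ≠ ∞ := by
  rw [om_vol h7b hb]
  exact ENNReal.ofReal_ne_top

theorem int_on (h7b : S_T7b) {b : ℕ} (hb : 1 ≤ b) (f : W b → ℝ) (hf : Continuous f)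
    (h : ∀ z ∈ Om b 1, ‖f z‖ ≤ 1) : IntegrableOn f (Om b 1) := by
  refine ⟨hf.aestronglyMeasurable, ?_⟩
  exact HasFiniteIntegral.restrict_of_bounded (C := 1) (om_fin h7b hb).lt_top
    ((ae_restrict_iff' (om_open b).measurableSet).2 (Eventually.of_forall h))

theorem inner_le {b : ℕ} {z : W b} {e : B b} (hz : z ∈ Om b 1) (he : ‖e‖ = 1) :
    ‖⟪z.snd, e⟫ ^ 2‖ ≤ 1 := by
  have h1 := abs_real_inner_le_norm z.snd e
  rw [he, mul_one] at h1
  have h2 := (om_lt hz).2
  rw [Real.norm_eq_abs, abs_pow]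
  exact pow_le_one₀ (abs_nonneg _) (h1.trans h2.le)

theorem int_eq {b : ℕ} (e e' : B b) (he : ‖e‖ = ‖e'‖) :
    ∫ z in Om b 1, ⟪z.snd, e⟫ ^ 2 = ∫ z in Om b 1, ⟪z.snd, e'⟫ ^ 2 := by
  let L : B b ≃ₗᵢ[ℝ] B b := Submodule.reflection (ℝ ∙ (e - e'))ᗮ
  have hL : L e = e' := Submodule.reflection_sub he
  let T : W b ≃ₗᵢ[ℝ] W b := LinearIsometryEquiv.withLpProdCongr 2
    (LinearIsometryEquiv.refl ℝ ℂ) L
  have hT1 : ∀ z, (T z).fst = z.fst := fun z => rfl
  have hT2 : ∀ z, (T z).snd = L z.snd := fun z => rfl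
  have hpre : T ⁻¹' (Om b 1) = Om b 1 := by
    ext z
    simp only [mem_preimage, Om, mem_setOf_eq, hT1, hT2, LinearIsometryEquiv.norm_map]
  have hmp : MeasurePreserving T volume volume := T.measurePreserving
  have h := hmp.setIntegral_preimage_emb T.toHomeomorph.measurableEmbedding
    (fun z => ⟪z.snd, e'⟫ ^ 2) (Om b 1)
  rw [hpre] at h
  rw [← h]
  refine setIntegral_congr_fun (om_open b).measurableSet (fun z _ => ?_)
  simp only [hT2]
  rw [← hL, LinearIsometryEquiv.inner_map_map]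

theorem m2 (h7b : S_T7b) : S_M2 := by
  intro b e hb he
  let u := EuclideanSpace.basisFun (Fin b) ℝ
  have h1 : ∀ i, ∫ z in Om b 1, ⟪z.snd, u i⟫ ^ 2 = ∫ z in Om b 1, ⟪z.snd, e⟫ ^ 2 := fun i =>
    int_eq (u i) e (by rw [he, u.norm_eq_one])
  have h2 : (b : ℝ) * ∫ z in Om b 1, ⟪z.snd, e⟫ ^ 2 = ∫ z in Om b 1, ‖z.snd‖ ^ 2 := by
    calc (b : ℝ) * ∫ z in Om b 1, ⟪z.snd, e⟫ ^ 2
        = ∑ i : Fin b, ∫ z in Om b 1, ⟪z.snd, u i⟫ ^ 2 := by
          rw [Finset.sum_congr rfl (fun i _ => h1 i)]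
          simp
      _ = ∫ z in Om b 1, ∑ i : Fin b, ⟪z.snd, u i⟫ ^ 2 := by
          rw [integral_finset_sum]
          intro i _
          refine int_on h7b hb _ (by fun_prop) (fun z hz => inner_le hz (u.norm_eq_one i))
      _ = ∫ z in Om b 1, ‖z.snd‖ ^ 2 := by
          simp only [OrthonormalBasis.sum_sq_inner_left]
  have h3 : ∫ z in Om b 1, ‖z.snd‖ ^ 2 ≤ ∫ z in Om b 1, (1 : ℝ) := by
    refine setIntegral_mono_on ?_ ?_ (om_open b).measurableSet (fun z hz => ?_)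
    · refine int_on h7b hb _ (by fun_prop) (fun z hz => ?_)
      rw [Real.norm_eq_abs, abs_pow, abs_norm]
      exact pow_le_one₀ (norm_nonneg _) (om_lt hz).2.le
    · exact int_on h7b hb _ continuous_const (fun z _ => by simp)
    · exact pow_le_one₀ (norm_nonneg _) (om_lt hz).2.le
  rw [setIntegral_const, smul_eq_mul, mul_one] at h3
  have hb0 : (0 : ℝ) < b := by exact_mod_cast hb
  rw [← h2] at h3
  rw [one_div, inv_mul_eq_div, le_div_iff₀ hb0, mul_comm]
  exact h3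

end M12

theorem m12 (h7a : S_T7a) (h7b : S_T7b) : S_M1 ∧ S_M2 :=
  ⟨M12.m1 h7a h7b, M12.m2 h7b⟩

end Pool.Agent.Helper188_CS
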