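import Pool.Agent.Helper188_CS.Defs

set_option autoImplicit false

open MeasureTheory Set Metric Filter Topology
open scoped ENNReal RealInnerProductSpace
open Pool.Agent.TH703.Cone

namespace Pool.Agent.Helper188_CS





theorem bary_Om_open (b : ℕ) : IsOpen (Om b 1) := by
  have h : Continuous (fun z : W b => ‖z.fst‖ + ‖z.snd‖ / 1) := by
    have h1 : Continuous (fun z : W b => z.fst) := (WithLp.fstL 2 ℝ ℂ (B b)).continuous
    have h2 : Continuous (fun z : W b => z.snd) := (WithLp.sndL 2 ℝ ℂ (B b)).continuous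
    exact h1.norm.add (h2.norm.div_const 1)
  exact isOpen_lt h continuous_const

theorem bary_Om_convex (b : ℕ) : Convex ℝ (Om b 1) := by
  intro x hx y hy s t hs ht hst
  simp only [Om, mem_ofPred_eq, div_one] at *
  have e1 : (s • x + t • y).fst = s • x.fst + t • y.fst := rfl
  have e2 : (s • x + t • y).snd = s • x.snd + t • y.snd := rfl
  rw [e1, e2]
  have n1 : ‖s • x.fst + t • y.fst‖ ≤ s * ‖x.fst‖ + t * ‖y.fst‖ := by
    refine (norm_add_le _ _).trans ?_
    rw [norm_smul, norm_smul, Real.norm_of_nonneg hs, Real.norm_of_nonneg ht]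
  have n2 : ‖s • x.snd + t • y.snd‖ ≤ s * ‖x.snd‖ + t * ‖y.snd‖ := by
    refine (norm_add_le _ _).trans ?_
    rw [norm_smul, norm_smul, Real.norm_of_nonneg hs, Real.norm_of_nonneg ht]
  rcases hs.eq_or_lt with h0 | h0
  · have ht1 : t = 1 := by linarith
    subst h0; subst ht1
    simp only [zero_mul, one_mul, zero_add] at n1 n2
    linarith
  · nlinarith [mul_lt_mul_of_pos_left hx h0, mul_le_mul_of_nonneg_left hy.le ht]

theorem bary_Om_sub (b : ℕ) : Om b 1 ⊆ ball 0 2 := by
  intro z hz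
  simp only [Om, mem_ofPred_eq, div_one] at hz
  rw [mem_ball_zero_iff]
  have h := WithLp.prod_norm_sq_eq_of_L2 z
  have h1 := norm_nonneg z.fst
  have h2 := norm_nonneg z.snd
  have h3 := norm_nonneg z
  nlinarith

theorem bary_wedge (x : ℂ) (hx : x ≠ 0) :
    ‖x‖ / 2 < (x * 1).re ∨ ‖x‖ / 2 < (x * Complex.I).re ∨ ‖x‖ / 2 < (x * (-1)).re ∨
      ‖x‖ / 2 < (x * (-Complex.I)).re := by
  have hn : 0 < ‖x‖ := norm_pos_iff.mpr hx
  have h := Complex.sq_norm_sub_sq_re x
  have e1 : (x * 1).re = x.re := by simp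
  have e2 : (x * Complex.I).re = -x.im := by simp
  have e3 : (x * (-1)).re = -x.re := by simp
  have e4 : (x * (-Complex.I)).re = x.im := by simp
  rw [e1, e2, e3, e4]
  by_contra hcon
  push Not at hcon
  obtain ⟨a1, a2, a3, a4⟩ := hcon
  have b1 : x.re ^ 2 ≤ (‖x‖ / 2) ^ 2 := by
    apply sq_le_sq'
    · linarith
    · linarith
  have b2 : x.im ^ 2 ≤ (‖x‖ / 2) ^ 2 := by
    apply sq_le_sq'
    · linarith
    · linarith
  nlinarith


/-- final arithmetic -/
theorem bary_arith (b c K x y s : ℝ) (hc : 0 < c) (hc1 : c ≤ 1) (hK : 2 ≤ K)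
    (hb : 1000 * K ^ 2 / c ^ 2 < b) (hb4 : 4000 < b) (hs : 0 < s) (hs2 : s ^ 2 = c / (6 * (b + 2) ^ 2))
    (hx : s / 3 ≤ x) (hy0 : 0 ≤ y) (hy : y ^ 2 ≤ 4 / (c * b)) :
    (K - 1) / b * (1 + y / x) ≤ 1 / 2 := by
  have hb0 : 0 < b := by linarith
  have hx0 : 0 < x := by linarith [div_pos hs (by norm_num : (0:ℝ) < 3)]
  have hKb : 1000 * K ^ 2 < b * c ^ 2 := by
    rwa [div_lt_iff₀ (by positivity)] at hb
  -- first part
  have h1 : (K - 1) / b ≤ 1 / 1000 := by
    rw [div_le_iff₀ hb0]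
    have : c ^ 2 ≤ 1 := by nlinarith
    nlinarith
  -- second part
  have hK1 : 0 ≤ (K - 1) / b := by
    apply div_nonneg <;> linarith
  have hyx : 0 ≤ y / x := div_nonneg hy0 hx0.le
  have h2 : ((K - 1) / b * (y / x)) ^ 2 ≤ (49 / 100) ^ 2 := by
    have hx2 : s ^ 2 / 9 ≤ x ^ 2 := by nlinarith
    have hx3 : c / (54 * (b + 2) ^ 2) ≤ x ^ 2 := by
      refine le_trans (le_of_eq ?_) hx2
      rw [hs2]; field_simp; norm_num
    have hyx2 : (y / x) ^ 2 ≤ 216 * (b + 2) ^ 2 / (c ^ 2 * b) := by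
      rw [div_pow, div_le_iff₀ (by positivity)]
      calc y ^ 2 ≤ 4 / (c * b) := hy
        _ = 216 * (b + 2) ^ 2 / (c ^ 2 * b) * (c / (54 * (b + 2) ^ 2)) := by
            field_simp; norm_num
        _ ≤ _ := by
            apply mul_le_mul_of_nonneg_left hx3
            positivity
    have hKK : ((K - 1) / b) ^ 2 ≤ c ^ 2 / (1000 * b) := by
      rw [div_pow, div_le_div_iff₀ (by positivity) (by positivity)]
      have : (K - 1) ^ 2 ≤ K ^ 2 := by nlinarith
      nlinarith [mul_pos hb0 hb0]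
    calc ((K - 1) / b * (y / x)) ^ 2 = ((K - 1) / b) ^ 2 * (y / x) ^ 2 := by ring
      _ ≤ c ^ 2 / (1000 * b) * (216 * (b + 2) ^ 2 / (c ^ 2 * b)) := by
          apply mul_le_mul hKK hyx2 (by positivity) (by positivity)
      _ = 216 * (b + 2) ^ 2 / (1000 * b ^ 2) := by field_simp
      _ ≤ (49 / 100) ^ 2 := by
          rw [div_le_iff₀ (by positivity)]
          nlinarith
  have h3 : (K - 1) / b * (y / x) ≤ 49 / 100 := by
    have := abs_le_of_sq_le_sq' h2 (by norm_num)
    exact this.2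
  calc (K - 1) / b * (1 + y / x) = (K - 1) / b + (K - 1) / b * (y / x) := by ring
    _ ≤ 1 / 1000 + 49 / 100 := by linarith
    _ ≤ 1 / 2 := by norm_num

/-- a linear functional of the barycentre -/
theorem bary_lin {E : Type} [NormedAddCommGroup E] [NormedSpace ℝ E] [CompleteSpace E]
    [MeasurableSpace E] (μ : Measure E) (H : Set E) (hi : IntegrableOn (fun z : E => z) H μ)
    (h0 : μ.real H ≠ 0) (L : E →L[ℝ] ℝ) :
    μ.real H * L (⨍ z in H, z ∂μ) = ∫ z in H, L z ∂μ := by
  rw [setAverage_eq, map_smul, smul_eq_mul, ← ContinuousLinearMap.integral_comp_comm L hi,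
    ← mul_assoc, mul_inv_cancel₀ h0, one_mul]

/-- second moment bounds the first -/
theorem bary_cs {E : Type} [MeasurableSpace E] (μ : Measure E) (H : Set E) (f : E → ℝ) (a : ℝ)
    (hi : IntegrableOn f H μ) (hi2 : IntegrableOn (fun z => f z ^ 2) H μ) (hfin : μ H ≠ ⊤)
    (h : μ.real H * a = ∫ z in H, f z ∂μ) :
    μ.real H * a ^ 2 ≤ ∫ z in H, f z ^ 2 ∂μ := by
  have h1 : 0 ≤ ∫ z in H, (f z - a) ^ 2 ∂μ := integral_nonneg (fun z => sq_nonneg _)
  have h2 : ∫ z in H, (f z - a) ^ 2 ∂μ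
      = ∫ z in H, f z ^ 2 ∂μ - 2 * a * ∫ z in H, f z ∂μ + μ.real H * a ^ 2 := by
    have e : ∀ z, (f z - a) ^ 2 = (f z ^ 2 - 2 * a * f z) + a ^ 2 := fun z => by ring
    simp_rw [e]
    have hc : IntegrableOn (fun _ : E => a ^ 2) H μ := by
      apply integrableOn_const hfin
    have hs : IntegrableOn (fun z => f z ^ 2 - 2 * a * f z) H μ := hi2.sub (hi.const_mul _)
    rw [integral_add hs hc, integral_sub hi2 (hi.const_mul _),
      integral_const_mul, setIntegral_const, smul_eq_mul]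
  rw [h2, ← h] at h1
  nlinarith


theorem bary (hBB : ∀ b : ℕ, S_BB (W b)) (hM1 : S_M1) (hM2 : S_M2) : S_BARY := by
  intro b c K hc hc1 hK hb
  have hb4 : (4000 : ℝ) < b := by
    refine lt_of_le_of_lt ?_ hb
    rw [le_div_iff₀ (by positivity)]
    have : c ^ 2 ≤ 1 := by nlinarith
    nlinarith
  have hb1 : 1 ≤ b := by
    have : (1 : ℝ) ≤ b := by linarith
    exact_mod_cast this
  have hb0 : (0 : ℝ) < b := by linarith
  -- the volume of `Om`
  have hOmO := bary_Om_open b
  have hOmfin : volume (Om b 1) ≠ ⊤ :=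
    (measure_ball_lt_top.trans_le' (measure_mono (bary_Om_sub b))).ne
  have hOmne : (Om b 1).Nonempty := ⟨0, by
    have e1 : (0 : W b).fst = 0 := rfl
    have e2 : (0 : W b).snd = 0 := rfl
    simp [Om, e1, e2]⟩
  have hOmpos : 0 < volume (Om b 1) := hOmO.measure_pos volume hOmne
  set V : ℝ := volume.real (Om b 1) with hVdef
  have hV : 0 < V := ENNReal.toReal_pos hOmpos.ne' hOmfin
  have hVe : volume (Om b 1) = ENNReal.ofReal V := (ENNReal.ofReal_toReal hOmfin).symm
  obtain ⟨δ₀, hδ₀, hBB'⟩ := hBB b 2 (c / 4 * V) (by norm_num) (by positivity)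
  refine ⟨min δ₀ 1, lt_min hδ₀ one_pos, min_le_right _ _, ?_⟩
  intro G hGo hGs hGa hGv
  -- choose the wedge
  have hfst : Continuous (fun z : W b => z.fst) := (WithLp.fstL 2 ℝ ℂ (B b)).continuous
  have hsnd : Continuous (fun z : W b => z.snd) := (WithLp.sndL 2 ℝ ℂ (B b)).continuous
  let S : ℂ → Set (W b) := fun u => {z | ‖z.fst‖ / 2 < (z.fst * u).re}
  have hSo : ∀ u, IsOpen (S u) := fun u =>
    isOpen_lt (hfst.norm.div_const 2) (Complex.continuous_re.comp (hfst.mul continuous_const))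
  have hSc : ∀ u, Convex ℝ (S u) := by
    intro u x hx y hy s t hs ht hst
    simp only [S, mem_ofPred_eq] at *
    have e1 : (s • x + t • y).fst = s • x.fst + t • y.fst := rfl
    have e2 : ((s • x.fst + t • y.fst) * u).re = s * (x.fst * u).re + t * (y.fst * u).re := by
      simp [add_mul, Complex.add_re, Complex.mul_re]
      ring
    rw [e1, e2]
    have n1 : ‖s • x.fst + t • y.fst‖ ≤ s * ‖x.fst‖ + t * ‖y.fst‖ := by
      refine (norm_add_le _ _).trans ?_
      rw [norm_smul, norm_smul, Real.norm_of_nonneg hs, Real.norm_of_nonneg ht]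
    rcases hs.eq_or_lt with h0 | h0
    · have ht1 : t = 1 := by linarith
      subst h0; subst ht1
      simp only [zero_mul, one_mul, zero_add] at n1 ⊢
      linarith
    · nlinarith [mul_lt_mul_of_pos_left hx h0, mul_le_mul_of_nonneg_left hy.le ht]
  have hcover : Om b 1 ∩ G ⊆ {z : W b | z ∈ Om b 1 ∧ ‖z.fst‖ ≤ 0} ∪
      ((Om b 1 ∩ G ∩ S 1) ∪ (Om b 1 ∩ G ∩ S Complex.I) ∪
        ((Om b 1 ∩ G ∩ S (-1)) ∪ (Om b 1 ∩ G ∩ S (-Complex.I)))) := by
    intro z hz
    by_cases h0 : z.fst = 0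
    · left
      exact ⟨hz.1, by simp [h0]⟩
    · right
      rcases bary_wedge z.fst h0 with h | h | h | h
      · exact Or.inl (Or.inl ⟨hz, h⟩)
      · exact Or.inl (Or.inr ⟨hz, h⟩)
      · exact Or.inr (Or.inl ⟨hz, h⟩)
      · exact Or.inr (Or.inr ⟨hz, h⟩)
  have hnull : volume {z : W b | z ∈ Om b 1 ∧ ‖z.fst‖ ≤ 0} = 0 := by
    have h := hM1 b 0 hb1 le_rfl
    simpa using h
  have hu : ∃ u : ℂ, ‖u‖ = 1 ∧ ENNReal.ofReal (c / 4 * V) ≤ volume (Om b 1 ∩ G ∩ S u) := by
    by_contra hcon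
    push Not at hcon
    have h1 := hcon 1 (by simp)
    have h2 := hcon Complex.I (by simp)
    have h3 := hcon (-1) (by simp)
    have h4 := hcon (-Complex.I) (by simp)
    have hle : volume (Om b 1 ∩ G) ≤
        (volume (Om b 1 ∩ G ∩ S 1) + volume (Om b 1 ∩ G ∩ S Complex.I)) +
        (volume (Om b 1 ∩ G ∩ S (-1)) + volume (Om b 1 ∩ G ∩ S (-Complex.I))) := by
      refine (measure_mono hcover).trans ?_
      refine (measure_union_le _ _).trans ?_
      rw [hnull, zero_add]
      refine (measure_union_le _ _).trans ?_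
      exact add_le_add (measure_union_le _ _) (measure_union_le _ _)
    have hlt : (volume (Om b 1 ∩ G ∩ S 1) + volume (Om b 1 ∩ G ∩ S Complex.I)) +
        (volume (Om b 1 ∩ G ∩ S (-1)) + volume (Om b 1 ∩ G ∩ S (-Complex.I))) <
        (ENNReal.ofReal (c / 4 * V) + ENNReal.ofReal (c / 4 * V)) +
        (ENNReal.ofReal (c / 4 * V) + ENNReal.ofReal (c / 4 * V)) :=
      ENNReal.add_lt_add (ENNReal.add_lt_add h1 h2) (ENNReal.add_lt_add h3 h4)
    have heq : (ENNReal.ofReal (c / 4 * V) + ENNReal.ofReal (c / 4 * V)) +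
        (ENNReal.ofReal (c / 4 * V) + ENNReal.ofReal (c / 4 * V)) =
        ENNReal.ofReal c * volume (Om b 1) := by
      rw [hVe, ← ENNReal.ofReal_mul hc.le, ← ENNReal.ofReal_add (by positivity) (by positivity),
        ← ENNReal.ofReal_add (by positivity) (by positivity)]
      congr 1
      ring
    exact absurd (hGv.trans hle) (not_le.mpr (heq ▸ hlt))
  obtain ⟨u, hu1, huv⟩ := hu
  set H : Set (W b) := Om b 1 ∩ G ∩ S u with hHdef
  have hGc : Convex ℝ G := by
    intro x hx y hy s t hs ht hst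
    rcases hs.eq_or_lt with h0 | h0
    · have ht1 : t = 1 := by linarith
      subst h0; subst ht1
      simpa using hy
    · rcases ht.eq_or_lt with h0' | h0'
      · have ht1 : s = 1 := by linarith
        subst h0'; subst ht1
        simpa using hx
      · exact hGa _ (hGs _ hx _ h0) _ (hGs _ hy _ h0')
  have hHo : IsOpen H := (hOmO.inter hGo).inter (hSo u)
  have hHc : Convex ℝ H := ((bary_Om_convex b).inter hGc).inter (hSc u)
  have hHOm : H ⊆ Om b 1 := fun z hz => hz.1.1
  have hHsub : H ⊆ ball 0 2 := hHOm.trans (bary_Om_sub b)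
  have hHfin : volume H ≠ ⊤ := (lt_of_le_of_lt (measure_mono hHOm) hOmfin.lt_top).ne
  have hball := hBB' H hHc hHo hHsub huv
  set m : W b := ⨍ z in H, z with hm
  have hmH : m ∈ H := hball (mem_ball_self hδ₀)
  set VH : ℝ := volume.real H with hVH
  have hVHle : c / 4 * V ≤ VH := by
    have := ENNReal.toReal_mono hHfin huv
    rwa [ENNReal.toReal_ofReal (by positivity)] at this
  have hVHpos : 0 < VH := lt_of_lt_of_le (by positivity) hVHle
  have hVHV : VH ≤ V := ENNReal.toReal_mono hOmfin (measure_mono hHOm)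
  -- integrability of continuous functions
  have hint : ∀ {F : Type} [NormedAddCommGroup F] (f : W b → F), Continuous f →
      IntegrableOn f (Om b 1) volume := by
    intro F _ f hf
    have : IntegrableOn f (closedBall (0 : W b) 2) volume :=
      hf.continuousOn.integrableOn_compact (isCompact_closedBall _ _)
    exact this.mono_set ((bary_Om_sub b).trans ball_subset_closedBall)
  have hidH : IntegrableOn (fun z : W b => z) H volume := (hint _ continuous_id).mono_set hHOm
  -- (3) the first coordinate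
  set s : ℝ := Real.sqrt (c / (6 * ((b : ℝ) + 2) ^ 2)) with hs
  have hs2 : s ^ 2 = c / (6 * ((b : ℝ) + 2) ^ 2) := Real.sq_sqrt (by positivity)
  have hspos : 0 < s := Real.sqrt_pos.mpr (by positivity)
  have hM1s := hM1 b s hb1 hspos.le
  set T : Set (W b) := {z | z ∈ Om b 1 ∧ ‖z.fst‖ ≤ s} with hT
  have hTOm : T ⊆ Om b 1 := fun z hz => hz.1
  have hTfin : volume T ≠ ⊤ := (lt_of_le_of_lt (measure_mono hTOm) hOmfin.lt_top).ne
  have hTm : MeasurableSet T :=
    hOmO.measurableSet.inter (isClosed_le hfst.norm continuous_const).measurableSet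
  have hTr : volume.real T ≤ c / 12 * V := by
    have h1 : volume.real T ≤ ((b : ℝ) + 1) * (b + 2) * s ^ 2 / 2 * V := by
      rw [hVe, ← ENNReal.ofReal_mul (by positivity)] at hM1s
      have := ENNReal.toReal_mono ENNReal.ofReal_ne_top hM1s
      rwa [ENNReal.toReal_ofReal (by positivity)] at this
    refine h1.trans ?_
    apply mul_le_mul_of_nonneg_right _ hV.le
    rw [hs2, div_le_iff₀ (by norm_num), ← mul_div_assoc, div_le_iff₀ (by positivity)]
    have : ((b : ℝ) + 1) * (b + 2) ≤ (b + 2) ^ 2 := by nlinarith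
    nlinarith
  have hdiff : VH - c / 12 * V ≤ volume.real (H \ T) := by
    have h1 : VH - volume.real T ≤ volume.real (H \ T) := le_measureReal_sdiff hTfin
    linarith
  have hnormint : IntegrableOn (fun z : W b => ‖z.fst‖) H volume :=
    (hint _ hfst.norm).mono_set hHOm
  have hI1 : s * volume.real (H \ T) ≤ ∫ z in H, ‖z.fst‖ := by
    have h1 : s * volume.real (H \ T) ≤ ∫ z in H \ T, ‖z.fst‖ := by
      apply setIntegral_ge_of_const_le_real (hHo.measurableSet.diff hTm)
      · exact (lt_of_le_of_lt (measure_mono sdiff_subset) hHfin.lt_top).ne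
      · intro z hz
        by_contra hcon
        exact hz.2 ⟨hHOm hz.1, (not_le.mp hcon).le⟩
      · exact hnormint.mono_set sdiff_subset
    refine h1.trans ?_
    apply setIntegral_mono_set hnormint
    · exact Filter.Eventually.of_forall (fun z => norm_nonneg _)
    · exact (Filter.Eventually.of_forall (fun z hz => hz.1))
  let L1 : W b →L[ℝ] ℝ :=
    (Complex.reCLM.comp (ContinuousLinearMap.mul ℝ ℂ u)).comp (WithLp.fstL 2 ℝ ℂ (B b))
  have hL1 : ∀ z : W b, L1 z = (z.fst * u).re := fun z => by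
    show (u * z.fst).re = _
    rw [mul_comm]
  have hL1m := bary_lin volume H hidH hVHpos.ne' L1
  have hI2 : (1 / 2) * ∫ z in H, ‖z.fst‖ ≤ ∫ z in H, L1 z := by
    rw [← integral_const_mul]
    apply setIntegral_mono_on (hnormint.const_mul _)
    · exact (hint _ L1.continuous).mono_set hHOm
    · exact hHo.measurableSet
    · intro z hz
      have : ‖z.fst‖ / 2 < (z.fst * u).re := hz.2
      rw [hL1]
      linarith
  have hx1 : s / 3 ≤ L1 m := by
    have h1 : VH * (s / 3) ≤ VH * L1 m := by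
      have h2 : VH * L1 m = ∫ z in H, L1 z := hL1m
      rw [h2]
      have h3 : s * (VH - c / 12 * V) ≤ s * volume.real (H \ T) :=
        mul_le_mul_of_nonneg_left hdiff hspos.le
      have h4 : s * (c / 12 * V) ≤ s * (VH / 3) := by
        apply mul_le_mul_of_nonneg_left _ hspos.le
        linarith
      nlinarith
    exact le_of_mul_le_mul_left h1 hVHpos
  have hx2 : s / 3 ≤ ‖m.fst‖ := by
    refine hx1.trans ?_
    rw [hL1]
    refine (Complex.re_le_norm _).trans ?_
    rw [norm_mul, hu1, mul_one]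
  have hxpos : 0 < ‖m.fst‖ := lt_of_lt_of_le (by positivity) hx2
  have hmOm : ‖m.fst‖ + ‖m.snd‖ / 1 < 1 := hHOm hmH
  -- (4) the second coordinate
  have hy : ‖m.snd‖ ^ 2 ≤ 4 / (c * b) := by
    by_cases h0 : m.snd = 0
    · have h00 : (0 : ℝ) ≤ 4 / (c * b) := by positivity
      rw [h0, norm_zero]
      simpa using h00
    have hn : 0 < ‖m.snd‖ := norm_pos_iff.mpr h0
    set e : B b := (‖m.snd‖)⁻¹ • m.snd with he
    have he1 : ‖e‖ = 1 := by
      rw [he, norm_smul, norm_inv, norm_norm, inv_mul_cancel₀ hn.ne']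
    let L2 : W b →L[ℝ] ℝ := (innerSL ℝ e).comp (WithLp.sndL 2 ℝ ℂ (B b))
    have hL2 : ∀ z : W b, L2 z = ⟪z.snd, e⟫ := fun z => by
      show ⟪e, z.snd⟫ = _
      rw [real_inner_comm]
    have hL2m : L2 m = ‖m.snd‖ := by
      rw [hL2, he, real_inner_smul_right, real_inner_self_eq_norm_sq, sq, ← mul_assoc,
        inv_mul_cancel₀ hn.ne', one_mul]
    have h1 := bary_lin volume H hidH hVHpos.ne' L2
    have h2 := bary_cs volume H L2 (L2 m) ((hint _ L2.continuous).mono_set hHOm)
      ((hint _ (L2.continuous.pow 2)).mono_set hHOm) hHfin h1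
    have h3 : ∫ z in H, L2 z ^ 2 ≤ ∫ z in Om b 1, L2 z ^ 2 := by
      apply setIntegral_mono_set (hint _ (L2.continuous.pow 2))
      · exact Filter.Eventually.of_forall (fun z => sq_nonneg _)
      · exact (Filter.Eventually.of_forall (fun z hz => hHOm hz))
    have h4 : ∫ z in Om b 1, L2 z ^ 2 ≤ 1 / b * V := by
      have := hM2 b e hb1 he1
      simp_rw [hL2]
      exact this
    rw [hL2m] at h2
    have h5 : VH * ‖m.snd‖ ^ 2 ≤ 1 / b * V := h2.trans (h3.trans h4)
    rw [le_div_iff₀ (by positivity)]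
    have h6 : c / 4 * V * ‖m.snd‖ ^ 2 ≤ 1 / b * V :=
      (mul_le_mul_of_nonneg_right hVHle (by positivity)).trans h5
    have h7 : c / 4 * ‖m.snd‖ ^ 2 ≤ 1 / b := by
      have h70 : V * (c / 4 * ‖m.snd‖ ^ 2) ≤ V * (1 / b) :=
        calc V * (c / 4 * ‖m.snd‖ ^ 2) = c / 4 * V * ‖m.snd‖ ^ 2 := by ring
          _ ≤ 1 / b * V := h6
          _ = V * (1 / b) := by ring
      exact le_of_mul_le_mul_left h70 hV
    have h8 : c / 4 * ‖m.snd‖ ^ 2 * b ≤ 1 := by
      rwa [le_div_iff₀ hb0] at h7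
    linarith
  refine ⟨m, ?_, hxpos, ?_, ?_⟩
  · exact (ball_subset_ball (min_le_left _ _)).trans (hball.trans (fun z hz => hz.1.2))
  · have := norm_nonneg m.snd
    rw [div_one] at hmOm
    linarith
  · exact bary_arith b c K ‖m.fst‖ ‖m.snd‖ s hc hc1 hK hb hb4 hspos hs2 hx2 (norm_nonneg _) hy

end Pool.Agent.Helper188_CS
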