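-- JOB for MP_65ff7c_an (S04892, full negative answer; finishing the starting project Pool/Agent/TH703/Cone).
-- Owner helper188. Copy the starting files Pool/Agent/TH703/Cone/*.lean from outputs/live to your Pool tree.
-- One file, one TARGET; keep the statement unchanged. Paste the full proved file back (UPDATE jobs SET result ...).
import Pool.Agent.Helper188_CS.Defs

set_option autoImplicit false

open MeasureTheory Set Metric Filter Topology
open scoped ENNReal RealInnerProductSpace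
open Pool.Agent.TH703.Cone

namespace Pool.Agent.Helper188_CS



/-- the linear map `(x, y) ↦ (x, ε y)` -/
noncomputable def t6k_D (b : ℕ) (ε : ℝ) : W b →ₗ[ℝ] W b where
  toFun z := WithLp.toLp 2 (z.fst, ε • z.snd)
  map_add' z w := by
    apply (WithLp.ofLp_injective 2)
    ext1
    · simp
    · simp [smul_add]
  map_smul' c z := by
    apply (WithLp.ofLp_injective 2)
    ext1
    · simp
    · simp [smul_comm c ε]

theorem t6k_D_apply (b : ℕ) (ε : ℝ) (z : W b) :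
    t6k_D b ε z = WithLp.toLp 2 (z.fst, ε • z.snd) := rfl

theorem t6k_D_comp (b : ℕ) (ε : ℝ) (hε : 0 < ε) :
    (t6k_D b ε) ∘ₗ (t6k_D b ε⁻¹) = LinearMap.id := by
  ext1 z
  apply (WithLp.ofLp_injective 2)
  ext1
  · simp [t6k_D_apply]
  · simp [t6k_D_apply, smul_smul, hε.ne']

theorem t6k_D_det (b : ℕ) (ε : ℝ) (hε : 0 < ε) : LinearMap.det (t6k_D b ε) ≠ 0 := by
  intro h
  have h1 := congrArg LinearMap.det (t6k_D_comp b ε hε)
  rw [LinearMap.det_comp, h, zero_mul, LinearMap.det_id] at h1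
  exact zero_ne_one h1

theorem t6k_norm_le {b : ℕ} (z : W b) : ‖z‖ ≤ ‖z.fst‖ + ‖z.snd‖ := by
  rw [WithLp.prod_norm_eq_of_L2]
  apply Real.sqrt_le_iff.mpr
  constructor
  · positivity
  · nlinarith [norm_nonneg z.fst, norm_nonneg z.snd]

theorem t6k_plane (u x p : ℂ) (a σ : ℝ) (ha : 0 < a) (hp : ‖p‖ = a)
    (hu : u = (starRingEnd ℂ) p / (a : ℂ)) (h1 : 0 < (x * u).re)
    (h2 : |(x * u).im| ≤ σ * ‖x‖) :
    ‖u‖ = 1 ∧ ‖x - ((‖x‖ / a : ℝ) : ℂ) * p‖ ≤ 2 * σ * ‖x‖ := by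
  have hac : (a : ℂ) ≠ 0 := by exact_mod_cast ha.ne'
  have hu1 : ‖u‖ = 1 := by
    rw [hu, norm_div, Complex.norm_real, RCLike.norm_conj, hp, Real.norm_eq_abs, abs_of_pos ha]
    exact div_self ha.ne'
  refine ⟨hu1, ?_⟩
  have hpp : p * (starRingEnd ℂ) p = (a : ℂ) * a := by
    rw [Complex.mul_conj, Complex.normSq_eq_norm_sq, hp]
    push_cast
    ring
  have h3 : (x - ((‖x‖ / a : ℝ) : ℂ) * p) * u = x * u - (‖x‖ : ℂ) := by
    rw [sub_mul, hu]
    congr 1
    push_cast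
    field_simp
    calc (‖x‖ : ℂ) * p * (starRingEnd ℂ) p = (‖x‖ : ℂ) * (p * (starRingEnd ℂ) p) := by ring
      _ = (‖x‖ : ℂ) * ((a : ℂ) * a) := by rw [hpp]
      _ = (‖x‖ : ℂ) * (a : ℂ) ^ 2 := by ring
  have h4 : ‖x - ((‖x‖ / a : ℝ) : ℂ) * p‖ = ‖x * u - (‖x‖ : ℂ)‖ := by
    rw [← h3, norm_mul, hu1, mul_one]
  rw [h4]
  have h5 : ‖x * u‖ = ‖x‖ := by rw [norm_mul, hu1, mul_one]
  have h6 := Complex.norm_le_abs_re_add_abs_im (x * u - (‖x‖ : ℂ))
  have h7 := Complex.norm_le_abs_re_add_abs_im (x * u)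
  have h8 := Complex.abs_re_le_norm (x * u)
  simp only [Complex.sub_re, Complex.sub_im, Complex.ofReal_re, Complex.ofReal_im, sub_zero] at h6
  rw [h5] at h7 h8
  rw [abs_of_pos h1] at h7 h8
  have h9 : |(x * u).re - ‖x‖| = ‖x‖ - (x * u).re := by
    rw [abs_sub_comm, abs_of_nonneg (by linarith)]
  rw [h9] at h6
  linarith

/-
TARGET T6k, from BARY.
Plain proof. (1) `ε = 1`. Take `δ` from BARY, `σ = δ/4`, `τ = min (r₀ δ / 2) (1/2)`, `η = τ^b`. Given `G`, take `m`, and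
`u = conj (m.fst) / ‖m.fst‖`. Let `x ∈ Wp u σ r₀ ((K-1)/b)`, `ρ = ‖x‖`, `t = ρ/‖m.fst‖ ≥ ρ ≥ r₀`. Then
`‖x - t m.fst‖ = ‖x u - ρ‖ ≤ 2 σ ρ` (`x u = a + i c'`, `a > 0`, `a^2 + c'^2 = ρ^2`, `|c'| ≤ σ ρ`, `ρ - a ≤ |c'|`). For
`‖y - t m.snd‖ < τ`: `‖(x,y) - t m‖ ≤ ‖x - t m.fst‖ + ‖y - t m.snd‖ < 2σρ + τ ≤ ρ δ ≤ t δ`, so `(x,y) ∈ t • ball m δ ⊆ G`; and
`‖x‖ + ‖y‖ < ρ + t ‖m.snd‖ + τ = ρ (1 + ‖m.snd‖/‖m.fst‖) + τ ≤ 1/2 + 1/2`, so `(x,y) ∈ Om b 1`. Hence the fibre contains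
`ball (t m.snd) τ`, of volume `τ^b * volume (ball 0 1) = η * vb b 1`.
(2) General `ε`: `G' = {(x,y) : (x, ε y) ∈ G}` is an open cone, the linear map `D : (x,y) ↦ (x, ε y)` maps `Om b 1 ∩ G'` onto
`Om b ε ∩ G` and multiplies volumes by `ε^b` (pass to `ℂ × B b` by `WithLp.volume_preserving_ofLp` and use Tonelli with
`Measure.addHaar_preimage_smul`/`addHaar_smul` in the fibre, or `Measure.addHaar_preimage_linearMap`), so the hypothesis
for `(ε, G)` gives the one for `(1, G')`; the fibre of `Om b ε ∩ G` over `x` is `ε •` the fibre of `Om b 1 ∩ G'`, of volume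
`≥ ε^b * η * vb b 1 = η * vb b ε`. (For the volumes of `Om b ε ∩ G`: integrate the fibres over `x`.)
-/
theorem t6k (hB : S_BARY) : S_T6k := by
  intro b c K r₀ hc hc1 hK hb hr₀
  obtain ⟨δ, hδ, hδ1, hbary⟩ := hB b c K hc hc1 hK hb
  have hb0 : (0 : ℝ) < b := by
    refine lt_of_le_of_lt ?_ hb
    positivity
  set τ : ℝ := min (r₀ * δ / 2) (1 / 2) with hτ
  have hτ0 : 0 < τ := by
    rw [hτ]
    apply lt_min
    · positivity
    · norm_num
  have hτ1 : τ ≤ r₀ * δ / 2 := min_le_left _ _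
  have hτ2 : τ ≤ 1 / 2 := min_le_right _ _
  refine ⟨δ / 4, τ ^ b, by positivity, by linarith, by positivity, ?_⟩
  intro ε G hε hGo hGc hGa hvol
  set D := t6k_D b ε with hD
  have hDc : Continuous D := LinearMap.continuous_of_finiteDimensional D
  set G' : Set (W b) := D ⁻¹' G with hG'
  have hG'o : IsOpen G' := hGo.preimage hDc
  have hG'c : ∀ z ∈ G', ∀ t : ℝ, 0 < t → t • z ∈ G' := by
    intro z hz t ht
    show D (t • z) ∈ G
    rw [map_smul]
    exact hGc _ hz t ht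
  have hG'a : ∀ z ∈ G', ∀ w ∈ G', z + w ∈ G' := by
    intro z hz w hw
    show D (z + w) ∈ G
    rw [map_add]
    exact hGa _ hz _ hw
  have hOm : D ⁻¹' (Om b ε) = Om b 1 := by
    ext z
    simp only [Set.mem_preimage, Om, Set.mem_ofPred_eq, hD, t6k_D_apply]
    have h1 : ‖ε • z.snd‖ / ε = ‖z.snd‖ / 1 := by
      rw [norm_smul, Real.norm_eq_abs, abs_of_pos hε]
      field_simp
    rw [← h1]
    rfl
  have hvol' : ENNReal.ofReal c * volume (Om b 1) ≤ volume (Om b 1 ∩ G') := by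
    have h1 : Om b 1 ∩ G' = D ⁻¹' (Om b ε ∩ G) := by
      rw [Set.preimage_inter, hOm]
    rw [h1, ← hOm, Measure.addHaar_preimage_linearMap volume (t6k_D_det b ε hε),
      Measure.addHaar_preimage_linearMap volume (t6k_D_det b ε hε)]
    calc ENNReal.ofReal c * (ENNReal.ofReal |(LinearMap.det (t6k_D b ε))⁻¹| * volume (Om b ε))
        = ENNReal.ofReal |(LinearMap.det (t6k_D b ε))⁻¹| *
            (ENNReal.ofReal c * volume (Om b ε)) := by ring
      _ ≤ ENNReal.ofReal |(LinearMap.det (t6k_D b ε))⁻¹| * volume (Om b ε ∩ G) :=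
            mul_le_mul_right hvol _
  obtain ⟨m, hm1, hm2, hm3, hm4⟩ := hbary G' hG'o hG'c hG'a hvol'
  set a : ℝ := ‖m.fst‖ with ha
  set u : ℂ := (starRingEnd ℂ) m.fst / (a : ℂ) with hu
  have hu1 : ‖u‖ = 1 := by
    rw [hu, norm_div, Complex.norm_real, RCLike.norm_conj, ← ha, Real.norm_eq_abs, abs_of_pos hm2]
    exact div_self hm2.ne'
  refine ⟨u, hu1, ?_⟩
  intro x hx
  obtain ⟨hx1, hx2, hx3, hx4⟩ := hx
  have hρ : 0 < ‖x‖ := lt_of_lt_of_le hr₀ hx1
  obtain ⟨-, hpl⟩ := t6k_plane u x m.fst a (δ / 4) hm2 ha.symm hu hx3 hx4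
  set t : ℝ := ‖x‖ / a with ht
  have ht0 : 0 < t := by positivity
  have htρ : ‖x‖ ≤ t := by
    rw [ht, le_div_iff₀ hm2]
    nlinarith
  have hsub : ball (ε • (t • m.snd)) (ε * τ) ⊆ fib (Om b ε ∩ G) x := by
    intro y hy
    rw [mem_ball, dist_eq_norm] at hy
    set y' : B b := ε⁻¹ • y with hy'
    have hyy : y = ε • y' := by
      rw [hy', smul_smul, mul_inv_cancel₀ hε.ne', one_smul]
    have hy1 : ‖y' - t • m.snd‖ < τ := by
      rw [hyy, ← smul_sub, norm_smul, Real.norm_eq_abs, abs_of_pos hε] at hy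
      exact lt_of_mul_lt_mul_left hy hε.le
    set z : W b := WithLp.toLp 2 (x, y') with hz
    have hzf : z.fst = x := rfl
    have hzs : z.snd = y' := rfl
    have hDz : D z = WithLp.toLp 2 (x, y) := by
      rw [hD, t6k_D_apply, hzf, hzs, hyy]
    have hzG : z ∈ G' := by
      have h1 : t⁻¹ • z ∈ ball m δ := by
        rw [mem_ball, dist_eq_norm]
        have h2 : t⁻¹ • z - m = t⁻¹ • (z - t • m) := by
          rw [smul_sub, smul_smul, inv_mul_cancel₀ ht0.ne', one_smul]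
        rw [h2, norm_smul, Real.norm_eq_abs, abs_of_pos (inv_pos.mpr ht0), inv_mul_lt_iff₀ ht0]
        have h3 := t6k_norm_le (z - t • m)
        have h4 : (z - t • m).fst = x - ((t : ℝ) : ℂ) * m.fst := by
          rw [WithLp.sub_fst, WithLp.smul_fst, hzf, Complex.real_smul]
        have h5 : (z - t • m).snd = y' - t • m.snd := by
          rw [WithLp.sub_snd, WithLp.smul_snd, hzs]
        rw [h4, h5] at h3
        have h6 : r₀ * δ / 2 ≤ ‖x‖ * δ / 2 := by
          have := mul_le_mul_of_nonneg_right hx1 hδ.le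
          linarith
        have h7 : ‖x‖ * δ ≤ t * δ := mul_le_mul_of_nonneg_right htρ hδ.le
        linarith
      have h8 := hG'c _ (hm1 h1) t ht0
      rwa [smul_smul, mul_inv_cancel₀ ht0.ne', one_smul] at h8
    have hzOm : z ∈ Om b 1 := by
      show ‖z.fst‖ + ‖z.snd‖ / 1 < 1
      rw [hzf, hzs, div_one]
      have h1 : ‖y'‖ ≤ ‖y' - t • m.snd‖ + ‖t • m.snd‖ := by
        have := norm_add_le (y' - t • m.snd) (t • m.snd)
        rwa [sub_add_cancel] at this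
      have h0 : ‖t • m.snd‖ = t * ‖m.snd‖ := by
        rw [norm_smul, Real.norm_eq_abs, abs_of_pos ht0]
      rw [h0] at h1
      have h2 : t * ‖m.snd‖ = ‖x‖ * (‖m.snd‖ / a) := by
        rw [ht]
        ring
      have h3 : ‖x‖ * (1 + ‖m.snd‖ / a) ≤ (K - 1) / b * (1 + ‖m.snd‖ / a) := by
        apply mul_le_mul_of_nonneg_right hx2
        positivity
      nlinarith
    show (WithLp.toLp 2 (x, y) : W b) ∈ Om b ε ∩ G
    rw [← hDz]
    refine ⟨?_, hzG⟩
    have : z ∈ D ⁻¹' (Om b ε) := by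
      rw [hOm]
      exact hzOm
    exact this
  refine le_trans ?_ (measure_mono hsub)
  have hfin : volume (ball (0 : B b) 1) ≠ ⊤ := measure_ball_lt_top.ne
  rw [Measure.addHaar_ball_of_pos volume _ (by positivity : 0 < ε * τ), finrank_euclideanSpace_fin]
  have hvb : vb b ε = ε ^ b * (volume (ball (0 : B b) 1)).toReal := by
    rw [vb, Measure.real, Measure.addHaar_ball_of_pos volume _ hε, finrank_euclideanSpace_fin,
      ENNReal.toReal_mul, ENNReal.toReal_ofReal (by positivity)]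
  rw [hvb]
  have h1 : τ ^ b * (ε ^ b * (volume (ball (0 : B b) 1)).toReal) =
      (ε * τ) ^ b * (volume (ball (0 : B b) 1)).toReal := by
    rw [mul_pow]
    ring
  rw [h1, ENNReal.ofReal_mul (by positivity), ENNReal.ofReal_toReal hfin]

end Pool.Agent.Helper188_CS
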