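-- JOB for MP_65ff7c_an (S04892, full negative answer; finishing the starting project Pool/Agent/TH703/Cone).
-- Owner helper188. Copy the starting files Pool/Agent/TH703/Cone/*.lean from outputs/live to your Pool tree.
-- One file, one TARGET; keep the statement unchanged. Paste the full proved file back (UPDATE jobs SET result ...).
import Pool.Agent.Helper188_CS.Defs

set_option autoImplicit false

open MeasureTheory Set Metric Filter Topology
open scoped ENNReal RealInnerProductSpace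
open Pool.Agent.TH703.Cone

namespace Pool.Agent.Helper188_CS

/-
TARGET NUM (elementary inequality).
Plain proof. Put `m = b + 1`, `F r = (1-r)^m (1 + m r)`; `F 0 = 1`, `F 1 = 0`, so by the intermediate value theorem some
`r ∈ (0,1)` has `F r = 1/2`. For ANY such `r`: if `m r ≥ 1.7` then `F r ≤ exp(-m r)(1 + m r) ≤ exp(-1.7) * 2.7 < 1/2`
(`1 - r ≤ exp(-r)`; `t ↦ exp(-t)(1+t)` is antitone for `t ≥ 0`; `exp(1.7) > 5.4`), a contradiction, so `m r < 1.7`.
Then `2π r (1-r)^b = 2π r (1-r)^m/(1-r) = π r / ((1 + m r)(1-r)) = (π/m) (m r/(1+m r))/(1-r) ≤ (π/m)(1.7/2.7)/(1-1.7/m) ≤ 1.982/m`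
for `m ≥ 1001`. On the other side, `2 ∫_{r₀}^{7/b} (1-ρ)^b dρ = (2/m)((1-r₀)^m - (1-7/b)^m)
≥ (2/m)(1 - m r₀ - exp(-7)) ≥ (2/m)(1 - 1/2000 - 0.001) = 1.997/m` with `r₀ = 1/(2000 (b+1))`
(Bernoulli `one_add_mul_le_pow`; `(1-7/b)^m ≤ exp(-7 m/b) ≤ exp(-7) < 0.001`). The difference is at least `0.01/m`.
-/
theorem num_exp17 : (5.4 : ℝ) < Real.exp 1.7 := by
  have h1 := Real.exp_one_gt_d9
  have h2 : (2 : ℝ) < Real.exp 0.7 := by
    rw [← Real.log_lt_iff_lt_exp (by norm_num)]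
    exact Real.log_two_lt_d9.trans (by norm_num)
  have h3 : Real.exp 1.7 = Real.exp 1 * Real.exp 0.7 := by
    rw [← Real.exp_add]; norm_num
  rw [h3]
  nlinarith

theorem num_exp7 : Real.exp (-7) < 0.001 := by
  have h1 := Real.exp_one_gt_d9
  have h2 : (1000 : ℝ) < Real.exp 7 := by
    have h3 : Real.exp 7 = Real.exp 1 ^ 7 := by
      rw [← Real.exp_nat_mul]; norm_num
    rw [h3]
    calc (1000 : ℝ) < 2.7182818283 ^ 7 := by norm_num
      _ ≤ Real.exp 1 ^ 7 := pow_le_pow_left₀ (by norm_num) h1.le 7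
  rw [Real.exp_neg]
  rw [show (0.001 : ℝ) = (1000 : ℝ)⁻¹ by norm_num]
  exact (inv_lt_inv₀ (Real.exp_pos 7) (by norm_num)).2 h2

theorem num_t (b : ℕ) (r : ℝ) (hr0 : 0 < r) (hr1 : r < 1)
    (h : (1 - r) ^ (b + 1) * (1 + ((b : ℝ) + 1) * r) = 1 / 2) : ((b : ℝ) + 1) * r < 1.7 := by
  by_contra hcon
  rw [not_lt] at hcon
  obtain ⟨t, ht⟩ : ∃ t : ℝ, t = ((b : ℝ) + 1) * r := ⟨_, rfl⟩
  rw [← ht] at h hcon
  have h1 : (1 - r) ^ (b + 1) ≤ Real.exp (-t) := by
    have h2 : 1 - r ≤ Real.exp (-r) := by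
      have := Real.add_one_le_exp (-r)
      linarith
    calc (1 - r) ^ (b + 1) ≤ Real.exp (-r) ^ (b + 1) := pow_le_pow_left₀ (by linarith) h2 _
      _ = Real.exp (-t) := by
          rw [← Real.exp_nat_mul, ht]
          congr 1
          push_cast
          ring
  have h3 : 2 * (1 + t) < Real.exp t := by
    have h4 : Real.exp t = Real.exp 1.7 * Real.exp (t - 1.7) := by
      rw [← Real.exp_add]; congr 1; ring
    have h5 := Real.add_one_le_exp (t - 1.7)
    have h6 := num_exp17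
    have h7 : 0 < t - 1.7 + 1 := by linarith
    rw [h4]
    calc 2 * (1 + t) ≤ 5.4 * (t - 1.7 + 1) := by linarith
      _ < Real.exp 1.7 * (t - 1.7 + 1) := mul_lt_mul_of_pos_right h6 h7
      _ ≤ Real.exp 1.7 * Real.exp (t - 1.7) := mul_le_mul_of_nonneg_left h5 (Real.exp_pos _).le
  have h8 : Real.exp (-t) * Real.exp t = 1 := by rw [← Real.exp_add]; simp
  have h9 : (1 - r) ^ (b + 1) * (1 + t) ≤ Real.exp (-t) * (1 + t) :=
    mul_le_mul_of_nonneg_right h1 (by linarith)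
  have h10 := Real.exp_pos (-t)
  have h11 : Real.exp (-t) * (2 * (1 + t)) < 1 :=
    (mul_lt_mul_of_pos_left h3 h10).trans_eq h8
  linarith

theorem num (b : ℕ) (hb : 1000 ≤ b) :
    (∃ r : ℝ, 0 < r ∧ r < 1 ∧ (1 - r) ^ (b + 1) * (1 + ((b : ℝ) + 1) * r) = 1 / 2) ∧
    ∀ r : ℝ, 0 < r → r < 1 → (1 - r) ^ (b + 1) * (1 + ((b : ℝ) + 1) * r) = 1 / 2 →
      2 * Real.pi * r * (1 - r) ^ b + 1 / (100 * ((b : ℝ) + 1)) ≤
        2 * ∫ ρ in (1 / (2000 * ((b : ℝ) + 1)))..(7 / (b : ℝ)), (1 - ρ) ^ b := by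
  constructor
  · have hc : ContinuousOn (fun r : ℝ => (1 - r) ^ (b + 1) * (1 + ((b : ℝ) + 1) * r)) (Set.Icc 0 1) := by
      fun_prop
    have h1 := intermediate_value_Icc' (zero_le_one' ℝ) hc
    have h2 : (1 / 2 : ℝ) ∈ Set.Icc ((fun r : ℝ => (1 - r) ^ (b + 1) * (1 + ((b : ℝ) + 1) * r)) 1)
        ((fun r : ℝ => (1 - r) ^ (b + 1) * (1 + ((b : ℝ) + 1) * r)) 0) := by
      constructor
      · simp
      · simp; norm_num
    obtain ⟨r, ⟨hr0, hr1⟩, hr⟩ := h1 h2
    have hr' : (1 - r) ^ (b + 1) * (1 + ((b : ℝ) + 1) * r) = 1 / 2 := hr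
    refine ⟨r, lt_of_le_of_ne hr0 ?_, lt_of_le_of_ne hr1 ?_, hr'⟩
    · rintro rfl
      norm_num at hr'
    · rintro rfl
      simp at hr'
  · intro r hr0 hr1 hr
    have hbr : (1000 : ℝ) ≤ b := by exact_mod_cast hb
    have ht := num_t b r hr0 hr1 hr
    obtain ⟨m, hm⟩ : ∃ m : ℝ, m = (b : ℝ) + 1 := ⟨_, rfl⟩
    rw [← hm] at hr ht ⊢
    have hm1 : 1001 ≤ m := by rw [hm]; linarith
    have hm0 : 0 < m := by linarith
    -- the integral
    have hI : ∫ ρ in (1 / (2000 * m))..(7 / (b : ℝ)), (1 - ρ) ^ b =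
        ((1 - 1 / (2000 * m)) ^ (b + 1) - (1 - 7 / (b : ℝ)) ^ (b + 1)) / m := by
      rw [intervalIntegral.integral_comp_sub_left (fun x => x ^ b) (1 : ℝ), integral_pow, hm]
    rw [hI]
    have hA : 1 - 1 / 2000 ≤ (1 - 1 / (2000 * m)) ^ (b + 1) := by
      have h1 : 1 / (2000 * m) ≤ 1 := by
        rw [div_le_one (by positivity)]
        linarith
      have h2 := one_add_mul_le_pow (a := -(1 / (2000 * m))) (by linarith) (b + 1)
      have h3 : (1 : ℝ) + ((b + 1 : ℕ) : ℝ) * -(1 / (2000 * m)) = 1 - 1 / 2000 := by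
        push_cast
        rw [← hm]
        field_simp
        norm_num
      rw [h3] at h2
      calc (1 : ℝ) - 1 / 2000 ≤ (1 + -(1 / (2000 * m))) ^ (b + 1) := h2
        _ = (1 - 1 / (2000 * m)) ^ (b + 1) := by ring
    have hB : (1 - 7 / (b : ℝ)) ^ (b + 1) ≤ 0.001 := by
      have hb0 : (0 : ℝ) < b := by linarith
      have h1 : 0 ≤ 1 - 7 / (b : ℝ) := by
        have : 7 / (b : ℝ) ≤ 1 := by rw [div_le_one hb0]; linarith
        linarith
      have h2 : 1 - 7 / (b : ℝ) ≤ Real.exp (-(7 / (b : ℝ))) := by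
        have := Real.add_one_le_exp (-(7 / (b : ℝ)))
        linarith
      calc (1 - 7 / (b : ℝ)) ^ (b + 1) ≤ Real.exp (-(7 / (b : ℝ))) ^ (b + 1) := pow_le_pow_left₀ h1 h2 _
        _ = Real.exp (-(7 / (b : ℝ) * (b + 1))) := by
            rw [← Real.exp_nat_mul]
            congr 1
            push_cast
            ring
        _ ≤ Real.exp (-7) := by
            rw [Real.exp_le_exp, neg_le_neg_iff, div_mul_eq_mul_div, le_div_iff₀ hb0]
            linarith
        _ ≤ 0.001 := num_exp7.le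
    -- the left side
    obtain ⟨q, hq⟩ : ∃ q : ℝ, q = (1 - r) ^ b := ⟨_, rfl⟩
    rw [pow_succ, ← hq] at hr
    rw [← hq]
    have hq0 : 0 < q := by rw [hq]; exact pow_pos (by linarith) _
    have hr2 : r ≤ 0.0017 := by
      by_contra hcon
      rw [not_le] at hcon
      nlinarith
    have hpi := Real.pi_lt_d4
    have hpi0 := Real.pi_pos
    have hL : 2 * Real.pi * r * q ≤ 1.982 / m := by
      rw [le_div_iff₀ hm0]
      obtain ⟨t, ht'⟩ : ∃ t : ℝ, t = m * r := ⟨_, rfl⟩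
      rw [← ht'] at hr ht
      have ht0 : 0 < t := by rw [ht']; positivity
      have h1 : 2 * Real.pi * r * q * m = 2 * Real.pi * t * q := by rw [ht']; ring
      rw [h1]
      have h2 : Real.pi * t ≤ 1.982 * ((1 - r) * (1 + t)) := by
        have h3 : 0.9983 * (1 + t) ≤ (1 - r) * (1 + t) :=
          mul_le_mul_of_nonneg_right (by linarith) (by linarith)
        nlinarith
      have h4 : 2 * q * (Real.pi * t) ≤ 2 * q * (1.982 * ((1 - r) * (1 + t))) :=
        mul_le_mul_of_nonneg_left h2 (by positivity)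
      have h5 : 2 * q * (1.982 * ((1 - r) * (1 + t))) = 1.982 * (2 * (q * (1 - r) * (1 + t))) := by ring
      rw [h5, hr] at h4
      linarith
    have h6 : 1 / (100 * m) = 0.01 / m := by
      field_simp
      norm_num
    rw [h6]
    calc 2 * Real.pi * r * q + 0.01 / m ≤ 1.982 / m + 0.01 / m := by linarith
      _ = 1.992 / m := by rw [← add_div]; norm_num
      _ ≤ (2 * ((1 - 1 / (2000 * m)) ^ (b + 1) - (1 - 7 / (b : ℝ)) ^ (b + 1))) / m := by
          apply div_le_div_of_nonneg_right _ hm0.le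
          linarith
      _ = 2 * (((1 - 1 / (2000 * m)) ^ (b + 1) - (1 - 7 / (b : ℝ)) ^ (b + 1)) / m) := by ring

end Pool.Agent.Helper188_CS
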