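-- t7b proved, statement unchanged, compiles in 5 s, axioms standard.
-- JOB for MP_65ff7c_an (S04892, full negative answer; finishing the starting project Pool/Agent/TH703/Cone).
-- Owner helper188. Copy the starting files Pool/Agent/TH703/Cone/*.lean from outputs/live to your Pool tree.
-- One file, one TARGET; keep the statement unchanged. Paste the full proved file back (UPDATE jobs SET result ...).
import Pool.Agent.Helper188_CS.Defs

set_option autoImplicit false

open MeasureTheory Set Metric Filter Topology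
open scoped ENNReal RealInnerProductSpace
open Pool.Agent.TH703.Cone

namespace Pool.Agent.Helper188_CS

/-
TARGET T7b (volumes of the cylinders), from T7a.
Plain proof. Apply `h7a` with `f` the indicator of `{‖x‖ < r}`: the volume is
`ofReal (vb b ε) * ∫⁻ x in ball 0 1 ∩ {‖x‖ < r}, ofReal ((1 - ‖x‖)^b)`. Polar coordinates
(`Complex.lintegral_comp_polarCoord_symm` / `Complex.integral_comp_polarCoord_symm`, or
`integral_fun_norm_addHaar`) give `2π ∫_0^r ρ (1-ρ)^b dρ`, and
`∫_0^r ρ (1-ρ)^b dρ = (1 - (1-r)^(b+1) (1 + (b+1) r)) / ((b+1)(b+2))` (antiderivative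
`-(1-ρ)^(b+1) (1+(b+1)ρ) / ((b+1)(b+2))`, `integral_eq_sub_of_hasDerivAt`).
-/

theorem t7b_int (b : ℕ) (r : ℝ) : ∫ ρ in (0 : ℝ)..r, ρ * (1 - ρ) ^ b =
    (1 - (1 - r) ^ (b + 1) * (1 + (b + 1) * r)) / ((b + 1) * (b + 2)) := by
  have hb1 : ((b : ℝ) + 1) ≠ 0 := by positivity
  have hb2 : ((b : ℝ) + 2) ≠ 0 := by positivity
  have h : ∀ x : ℝ, HasDerivAt
      (fun ρ : ℝ => -((1 - ρ) ^ (b + 1) * (1 + (b + 1) * ρ)) / ((b + 1) * (b + 2)))
      (x * (1 - x) ^ b) x := by
    intro x
    have h1 : HasDerivAt (fun ρ : ℝ => 1 - ρ) (-1) x := by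
      simpa using (hasDerivAt_id x).const_sub 1
    have h2 := h1.pow (b + 1)
    have h3 : HasDerivAt (fun ρ : ℝ => 1 + ((b : ℝ) + 1) * ρ) ((b : ℝ) + 1) x := by
      simpa using ((hasDerivAt_id x).const_mul ((b : ℝ) + 1)).const_add 1
    have h4 := ((h2.mul h3).neg).div_const (((b : ℝ) + 1) * (b + 2))
    refine h4.congr_deriv ?_
    push_cast
    field_simp
    simp only [Pi.pow_apply]
    ring
  rw [intervalIntegral.integral_eq_sub_of_hasDerivAt (fun x _ => h x)]
  · field_simp
    ring
  · exact Continuous.intervalIntegrable (by fun_prop) _ _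

theorem t7b_polar (b : ℕ) (r : ℝ) (hr : 0 ≤ r) : ∫ x in ball (0 : ℂ) r, (1 - ‖x‖) ^ b =
    2 * Real.pi * ((1 - (1 - r) ^ (b + 1) * (1 + (b + 1) * r)) / ((b + 1) * (b + 2))) := by
  have h1 : ∫ x in ball (0 : ℂ) r, (1 - ‖x‖) ^ b =
      ∫ x : ℂ, (fun ρ : ℝ => (Iio r).indicator (fun ρ => (1 - ρ) ^ b) ρ) ‖x‖ := by
    rw [← integral_indicator measurableSet_ball]
    congr 1
    ext x
    by_cases hx : ‖x‖ < r
    · rw [indicator_of_mem (by simpa using hx)]
      dsimp only
      rw [indicator_of_mem (by simpa using hx)]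
    · rw [indicator_of_notMem (by simpa using hx)]
      dsimp only
      rw [indicator_of_notMem (by simpa using hx)]
  rw [h1, integral_fun_norm_addHaar volume
    (fun ρ : ℝ => (Iio r).indicator (fun ρ => (1 - ρ) ^ b) ρ)]
  have hd : Module.finrank ℝ ℂ = 2 := Complex.finrank_real_complex
  have hv : volume.real (ball (0 : ℂ) 1) = Real.pi := by
    rw [measureReal_def, Complex.volume_ball]
    simp
  rw [hd, hv, ← t7b_int]
  have h2 : ∫ y in Ioi (0 : ℝ), y ^ (2 - 1) • (Iio r).indicator (fun ρ : ℝ => (1 - ρ) ^ b) y =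
      ∫ y in (0 : ℝ)..r, y * (1 - y) ^ b := by
    rw [intervalIntegral.integral_of_le hr, ← integral_Ioc_eq_integral_Ioo.symm]
    have h3 : (fun y : ℝ => y ^ (2 - 1) • (Iio r).indicator (fun ρ : ℝ => (1 - ρ) ^ b) y) =
        (Iio r).indicator (fun y => y * (1 - y) ^ b) := by
      ext y
      by_cases hy : y < r
      · rw [indicator_of_mem (by simpa using hy), indicator_of_mem (by simpa using hy)]
        simp
      · rw [indicator_of_notMem (by simpa using hy), indicator_of_notMem (by simpa using hy)]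
        simp
    rw [h3, setIntegral_indicator measurableSet_Iio, Ioi_inter_Iio]
  rw [h2]
  simp only [nsmul_eq_mul, smul_eq_mul]
  push_cast
  ring

theorem t7b (h7a : S_T7a) : S_T7b := by
  intro b ε r hb hε hr hr1
  have hm : MeasurableSet {x : ℂ | ‖x‖ < r} := measurableSet_lt measurable_norm measurable_const
  have hfst : Continuous fun z : W b => z.fst := by fun_prop
  have hm2 : MeasurableSet {z : W b | ‖z.fst‖ < r} :=
    (isOpen_lt hfst.norm continuous_const).measurableSet
  have h1 := h7a b ε hb hε ({x : ℂ | ‖x‖ < r}.indicator fun _ => 1) (measurable_const.indicator hm)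
  have h2 : ∫⁻ z in Om b ε, ({x : ℂ | ‖x‖ < r}.indicator fun _ => (1 : ℝ≥0∞)) z.fst =
      volume {z | z ∈ Om b ε ∧ ‖z.fst‖ < r} := by
    have e1 : (fun z : W b => ({x : ℂ | ‖x‖ < r}.indicator fun _ => (1 : ℝ≥0∞)) z.fst) =
        {z : W b | ‖z.fst‖ < r}.indicator fun _ => 1 := by
      ext z
      by_cases hz : ‖z.fst‖ < r
      · rw [indicator_of_mem (by simpa using hz), indicator_of_mem (by simpa using hz)]
      · rw [indicator_of_notMem (by simpa using hz), indicator_of_notMem (by simpa using hz)]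
    rw [e1, lintegral_indicator hm2, setLIntegral_one, Measure.restrict_apply hm2, inter_comm]
    rfl
  have h3 : ∫⁻ x in ball (0 : ℂ) 1, ({x : ℂ | ‖x‖ < r}.indicator fun _ => (1 : ℝ≥0∞)) x *
      ENNReal.ofReal ((1 - ‖x‖) ^ b) = ENNReal.ofReal (∫ x in ball (0 : ℂ) r, (1 - ‖x‖) ^ b) := by
    have hc : Continuous fun x : ℂ => (1 - ‖x‖) ^ b := by fun_prop
    have hint : IntegrableOn (fun x : ℂ => (1 - ‖x‖) ^ b) (ball (0 : ℂ) r) :=
      (hc.continuousOn.integrableOn_compact (isCompact_closedBall (0 : ℂ) r)).mono_set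
        ball_subset_closedBall
    rw [ofReal_integral_eq_lintegral_ofReal hint ?_]
    · have e1 : (fun x : ℂ => ({x : ℂ | ‖x‖ < r}.indicator fun _ => (1 : ℝ≥0∞)) x *
          ENNReal.ofReal ((1 - ‖x‖) ^ b)) =
          (ball (0 : ℂ) r).indicator fun x => ENNReal.ofReal ((1 - ‖x‖) ^ b) := by
        ext x
        by_cases hx : ‖x‖ < r
        · rw [indicator_of_mem (by simpa using hx), indicator_of_mem (by simpa using hx), one_mul]
        · rw [indicator_of_notMem (by simpa using hx), indicator_of_notMem (by simpa using hx),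
            zero_mul]
      rw [e1, lintegral_indicator measurableSet_ball, Measure.restrict_restrict measurableSet_ball,
        inter_eq_left.2 (ball_subset_ball hr1)]
    · refine (ae_restrict_iff' measurableSet_ball).2 (Filter.Eventually.of_forall fun x hx => ?_)
      have hx' : ‖x‖ < r := by simpa using hx
      exact pow_nonneg (by linarith) _
  rw [h2, h3, t7b_polar b r hr, ← ENNReal.ofReal_mul (by unfold vb; positivity)] at h1
  rw [h1]

end Pool.Agent.Helper188_CS
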