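import Pool.Agent.Helper188_CS.Defs
import Pool.Agent.TH703.Cone.Div

set_option autoImplicit false

open MeasureTheory Set Metric Filter Topology
open scoped ENNReal RealInnerProductSpace
open Pool.Agent.TH703.Cone

namespace Pool.Agent.Helper188_CS

/-- the cut-off function -/
noncomputable def hh (s r : ℝ) (u : ℝ) : ℝ := Real.smoothTransition ((r ^ 2 - u) / (r ^ 2 - s ^ 2))

lemma hh_contDiff (s r : ℝ) : ContDiff ℝ 1 (hh s r) := by
  unfold hh
  exact Real.smoothTransition.contDiff.comp ((contDiff_const.sub contDiff_id).div_const _)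

lemma sq_sub_pos {s r : ℝ} (hs : 0 < s) (hsr : s < r) : 0 < r ^ 2 - s ^ 2 := by nlinarith

lemma hh_antitone {s r : ℝ} (hs : 0 < s) (hsr : s < r) : Antitone (hh s r) := by
  intro u v huv
  unfold hh
  apply Real.smoothTransition.monotone
  have := sq_sub_pos hs hsr
  gcongr

lemma hh_one {s r u : ℝ} (hs : 0 < s) (hsr : s < r) (hu : u ≤ s ^ 2) : hh s r u = 1 := by
  unfold hh
  apply Real.smoothTransition.one_of_one_le
  have := sq_sub_pos hs hsr
  rw [le_div_iff₀ this]
  linarith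

lemma hh_zero {s r u : ℝ} (hs : 0 < s) (hsr : s < r) (hu : r ^ 2 ≤ u) : hh s r u = 0 := by
  unfold hh
  apply Real.smoothTransition.zero_of_nonpos
  have := sq_sub_pos hs hsr
  apply div_nonpos_of_nonpos_of_nonneg (by linarith) this.le

lemma hh_nonneg (s r u : ℝ) : 0 ≤ hh s r u := Real.smoothTransition.nonneg _
lemma hh_le_one (s r u : ℝ) : hh s r u ≤ 1 := Real.smoothTransition.le_one _

lemma hh_deriv_nonpos {s r : ℝ} (hs : 0 < s) (hsr : s < r) (u : ℝ) : deriv (hh s r) u ≤ 0 :=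
  (hh_antitone hs hsr).deriv_nonpos

lemma hh_deriv_lt {s r u : ℝ} (hs : 0 < s) (hsr : s < r) (hu : u < s ^ 2) : deriv (hh s r) u = 0 := by
  have : hh s r =ᶠ[𝓝 u] fun _ => 1 := by
    filter_upwards [Iio_mem_nhds hu] with v hv
    exact hh_one hs hsr (le_of_lt hv)
  rw [this.deriv_eq]
  simp

lemma hh_deriv_gt {s r u : ℝ} (hs : 0 < s) (hsr : s < r) (hu : r ^ 2 < u) : deriv (hh s r) u = 0 := by
  have : hh s r =ᶠ[𝓝 u] fun _ => 0 := by
    filter_upwards [Ioi_mem_nhds hu] with v hv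
    exact hh_zero hs hsr (le_of_lt hv)
  rw [this.deriv_eq]
  simp

lemma hh_deriv_cont (s r : ℝ) : Continuous (deriv (hh s r)) :=
  (hh_contDiff s r).continuous_deriv (by norm_num)

/-- the size of the gradient of the cut-off in terms of the distance from the axis -/
noncomputable def Fr (s r : ℝ) (y : ℝ) : ℝ := -deriv (hh s r) (y ^ 2) * (2 * y)

lemma Fr_cont (s r : ℝ) : Continuous (Fr s r) := by
  unfold Fr
  exact (((hh_deriv_cont s r).comp (continuous_pow 2)).neg).mul (continuous_const.mul continuous_id)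

lemma Fr_nonneg {s r y : ℝ} (hs : 0 < s) (hsr : s < r) (hy : 0 ≤ y) : 0 ≤ Fr s r y := by
  unfold Fr
  have := hh_deriv_nonpos hs hsr (y ^ 2)
  apply mul_nonneg (by linarith) (by linarith)

lemma Fr_lt {s r y : ℝ} (hs : 0 < s) (hsr : s < r) (hy : 0 ≤ y) (hys : y < s) : Fr s r y = 0 := by
  unfold Fr
  rw [hh_deriv_lt hs hsr (by nlinarith)]
  simp

lemma Fr_gt {s r y : ℝ} (hs : 0 < s) (hsr : s < r) (hys : r < y) : Fr s r y = 0 := by
  unfold Fr
  rw [hh_deriv_gt hs hsr (by nlinarith)]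
  simp

lemma Fr_int {s r : ℝ} (hs : 0 < s) (hsr : s < r) : IntegrableOn (Fr s r) (Ioi 0) := by
  have h1 : IntegrableOn (Fr s r) (Ioc 0 r) := (Fr_cont s r).integrableOn_Ioc
  have h2 : IntegrableOn (Fr s r) (Ioi r) := by
    have h0 : IntegrableOn (fun _ : ℝ => (0 : ℝ)) (Ioi r) := integrableOn_zero
    refine h0.congr_fun ?_ measurableSet_Ioi
    intro y hy
    exact (Fr_gt hs hsr hy).symm
  have h3 : Ioi (0:ℝ) = Ioc 0 r ∪ Ioi r := (Ioc_union_Ioi_eq_Ioi (by linarith)).symm
  rw [h3]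
  exact h1.union h2

lemma Fr_integral {s r : ℝ} (hs : 0 < s) (hsr : s < r) : ∫ y in Ioi (0 : ℝ), Fr s r y = 1 := by
  have hd : ∀ x ∈ Ici (0 : ℝ), HasDerivAt (fun y => - hh s r (y ^ 2)) (Fr s r x) x := by
    intro x _
    have h1 : HasDerivAt (hh s r) (deriv (hh s r) (x ^ 2)) (x ^ 2) :=
      ((hh_contDiff s r).differentiable (by norm_num) (x ^ 2)).hasDerivAt
    have h2 : HasDerivAt (fun y : ℝ => y ^ 2) (2 * x) x := by
      simpa using hasDerivAt_pow 2 x
    have h3 := (HasDerivAt.comp (h₂ := hh s r) (h := fun y : ℝ => y ^ 2) x h1 h2).neg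
    have h4 : Fr s r x = -(deriv (hh s r) (x ^ 2) * (2 * x)) := by
      unfold Fr; ring
    rw [h4]
    exact h3
  have ht : Tendsto (fun y => - hh s r (y ^ 2)) atTop (𝓝 0) := by
    refine tendsto_const_nhds.congr' ?_
    filter_upwards [eventually_ge_atTop r] with y hy
    rw [hh_zero hs hsr (by nlinarith), neg_zero]
  rw [integral_Ioi_of_hasDerivAt_of_tendsto' hd (Fr_int hs hsr) ht]
  rw [hh_one hs hsr (by nlinarith [sq_nonneg s])]
  norm_num

lemma Fr_C_integral {s r : ℝ} (hs : 0 < s) (hsr : s < r) :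
    ∫⁻ x : ℂ, ENNReal.ofReal (Fr s r ‖x‖) ≤ ENNReal.ofReal (2 * Real.pi * r) := by
  have hr : 0 < r := hs.trans hsr
  have hcont : Continuous (fun x : ℂ => Fr s r ‖x‖) := (Fr_cont s r).comp continuous_norm
  have hcs : HasCompactSupport (fun x : ℂ => Fr s r ‖x‖) := by
    refine HasCompactSupport.of_support_subset_isCompact (isCompact_closedBall (0 : ℂ) r) ?_
    intro x hx
    rw [mem_closedBall_zero_iff]
    by_contra h
    push Not at h
    exact hx (Fr_gt hs hsr h)
  have hint : Integrable (fun x : ℂ => Fr s r ‖x‖) := hcont.integrable_of_hasCompactSupport hcs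
  rw [← ofReal_integral_eq_lintegral_ofReal hint
    (Eventually.of_forall fun x => Fr_nonneg hs hsr (norm_nonneg x))]
  apply ENNReal.ofReal_le_ofReal
  have h1 := integral_fun_norm_addHaar (volume : Measure ℂ) (Fr s r)
  rw [h1]
  have hdim : Module.finrank ℝ ℂ = 2 := Complex.finrank_real_complex
  have hvol : (volume : Measure ℂ).real (ball 0 1) = Real.pi := by
    rw [Measure.real, Complex.volume_ball]
    simp
  rw [hdim, hvol]
  have h2 : ∫ y in Ioi (0 : ℝ), y ^ (2 - 1) • Fr s r y ≤ r := by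
    calc ∫ y in Ioi (0 : ℝ), y ^ (2 - 1) • Fr s r y ≤ ∫ y in Ioi (0 : ℝ), r * Fr s r y := by
          apply setIntegral_mono_on
          · have h5 : IntegrableOn (fun y => y ^ (2 - 1) • Fr s r y) (Ioi 0) := by
              have := (integrable_fun_norm_addHaar (volume : Measure ℂ) (f := Fr s r)).1 hint
              rw [hdim] at this
              exact this
            exact h5
          · exact (Fr_int hs hsr).const_mul r
          · exact measurableSet_Ioi
          · intro y hy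
            have hy0 : 0 < y := hy
            simp only [Nat.add_one_sub_one, pow_one, smul_eq_mul]
            by_cases hyr : y ≤ r
            · exact mul_le_mul_of_nonneg_right hyr (Fr_nonneg hs hsr hy0.le)
            · rw [Fr_gt hs hsr (lt_of_not_ge hyr)]
              simp
      _ = r := by
          rw [integral_const_mul, Fr_integral hs hsr, mul_one]
  have hpi := Real.pi_pos
  rw [nsmul_eq_mul, smul_eq_mul]
  push_cast
  nlinarith [mul_le_mul_of_nonneg_left h2 hpi.le]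

/-- the cut-off function on `W b` -/
noncomputable def gg {b : ℕ} (s r : ℝ) (z : W b) : ℝ := hh s r (‖z.fst‖ ^ 2)

lemma gg_contDiff {b : ℕ} (s r : ℝ) : ContDiff ℝ 1 (gg (b := b) s r) := by
  have h1 : ContDiff ℝ 1 (fun z : W b => z.fst) := (WithLp.fstL 2 ℝ ℂ (B b)).contDiff
  have h2 : ContDiff ℝ 1 (fun z : W b => ‖z.fst‖ ^ 2) := h1.norm_sq ℝ
  exact (hh_contDiff s r).comp h2

lemma gg_fderiv {b : ℕ} {s r : ℝ} (z v : W b) :
    fderiv ℝ (gg s r) z v = deriv (hh s r) (‖z.fst‖ ^ 2) * (2 * ⟪z.fst, v.fst⟫) := by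
  have h1 : HasFDerivAt (fun z : W b => z.fst) (WithLp.fstL 2 ℝ ℂ (B b)) z :=
    (WithLp.fstL 2 ℝ ℂ (B b)).hasFDerivAt
  have h2 := h1.norm_sq
  have h3 : HasDerivAt (hh s r) (deriv (hh s r) (‖z.fst‖ ^ 2)) (‖z.fst‖ ^ 2) :=
    ((hh_contDiff s r).differentiable (by norm_num) _).hasDerivAt
  have h4 := h3.comp_hasFDerivAt z h2
  have h5 : fderiv ℝ (gg s r) z = _ := HasFDerivAt.fderiv h4
  rw [h5]
  simp
  left
  ring

lemma gg_fderiv_le {b : ℕ} {s r : ℝ} (hs : 0 < s) (hsr : s < r) (z v : W b) (hv : ‖v‖ ≤ 1) :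
    ‖fderiv ℝ (gg s r) z v‖ ≤ Fr s r ‖z.fst‖ := by
  rw [gg_fderiv, norm_mul, norm_mul]
  unfold Fr
  have h1 : ‖deriv (hh s r) (‖z.fst‖ ^ 2)‖ = - deriv (hh s r) (‖z.fst‖ ^ 2) := by
    rw [Real.norm_eq_abs, abs_of_nonpos (hh_deriv_nonpos hs hsr _)]
  rw [h1]
  have h2 : ‖(⟪z.fst, v.fst⟫ : ℝ)‖ ≤ ‖z.fst‖ := by
    calc ‖(⟪z.fst, v.fst⟫ : ℝ)‖ ≤ ‖z.fst‖ * ‖v.fst‖ := norm_inner_le_norm _ _
      _ ≤ ‖z.fst‖ * 1 := by
        gcongr
        exact (WithLp.norm_fst_le ℂ v).trans hv
      _ = ‖z.fst‖ := mul_one _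
  have h3 : ‖(2 : ℝ)‖ = 2 := by simp
  rw [h3]
  have h4 := hh_deriv_nonpos hs hsr (‖z.fst‖ ^ 2)
  apply mul_le_mul_of_nonneg_left _ (by linarith)
  linarith

lemma isOpen_Om (b : ℕ) (ε : ℝ) : IsOpen (Om b ε) := by
  unfold Om
  have h1 : Continuous (fun z : W b => z.fst) := (WithLp.fstL 2 ℝ ℂ (B b)).continuous
  have h2 : Continuous (fun z : W b => z.snd) := (WithLp.sndL 2 ℝ ℂ (B b)).continuous
  exact isOpen_lt (h1.norm.add (h2.norm.div_const _)) continuous_const

lemma step {b : ℕ} (h7a : S_T7a) (hb : 1 ≤ b) {ε s r : ℝ} (hε : 0 < ε) (hs : 0 < s) (hsr : s < r)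
    (hr1 : r < 1) {φ : W b → W b} (hφ : Tst (Om b ε) φ) :
    ∫ z, gg s r z * dv φ z ≤ vb b ε * (2 * Real.pi * r * (1 - s) ^ b) := by
  have hr : 0 < r := hs.trans hsr
  have hvb : 0 ≤ vb b ε := measureReal_nonneg
  have hs1 : 0 < 1 - s := by linarith
  have hpi := Real.pi_pos
  rw [Div.integral_mul_dv (gg_contDiff s r) hφ.c1 hφ.cs]
  have h1 : - ∫ z, fderiv ℝ (gg s r) z (φ z) ≤ ‖∫ z, fderiv ℝ (gg s r) z (φ z)‖ := by
    rw [Real.norm_eq_abs]; exact neg_le_abs _
  refine h1.trans ((norm_integral_le_lintegral_norm _).trans ?_)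
  have hpos : 0 ≤ vb b ε * (2 * Real.pi * r * (1 - s) ^ b) := by positivity
  apply ENNReal.toReal_le_of_le_ofReal hpos
  calc ∫⁻ z, ENNReal.ofReal ‖fderiv ℝ (gg s r) z (φ z)‖
      ≤ ∫⁻ z, (Om b ε).indicator (fun z => ENNReal.ofReal (Fr s r ‖z.fst‖)) z := by
        apply lintegral_mono
        intro z
        by_cases hz : z ∈ Om b ε
        · rw [indicator_of_mem hz]
          exact ENNReal.ofReal_le_ofReal (gg_fderiv_le hs hsr z _ (hφ.le z))
        · rw [indicator_of_notMem hz]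
          have : φ z = 0 := image_eq_zero_of_notMem_tsupport (fun h => hz (hφ.sub h))
          simp [this]
    _ = ∫⁻ z in Om b ε, ENNReal.ofReal (Fr s r ‖z.fst‖) :=
        lintegral_indicator (isOpen_Om b ε).measurableSet _
    _ = ENNReal.ofReal (vb b ε) * ∫⁻ x in ball (0 : ℂ) 1,
          ENNReal.ofReal (Fr s r ‖x‖) * ENNReal.ofReal ((1 - ‖x‖) ^ b) :=
        h7a b ε hb hε (fun x => ENNReal.ofReal (Fr s r ‖x‖))
          ((Fr_cont s r).comp continuous_norm).measurable.ennreal_ofReal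
    _ ≤ ENNReal.ofReal (vb b ε) *
          (ENNReal.ofReal (2 * Real.pi * r) * ENNReal.ofReal ((1 - s) ^ b)) := by
        gcongr
        calc ∫⁻ x in ball (0 : ℂ) 1, ENNReal.ofReal (Fr s r ‖x‖) * ENNReal.ofReal ((1 - ‖x‖) ^ b)
            ≤ ∫⁻ x in ball (0 : ℂ) 1, ENNReal.ofReal (Fr s r ‖x‖) * ENNReal.ofReal ((1 - s) ^ b) := by
              apply setLIntegral_mono' measurableSet_ball
              intro x hx
              by_cases hxs : ‖x‖ < s
              · rw [Fr_lt hs hsr (norm_nonneg x) hxs]; simp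
              · push Not at hxs
                have hx1 : 0 ≤ 1 - ‖x‖ := by
                  have := mem_ball_zero_iff.1 hx
                  linarith
                gcongr
          _ ≤ ∫⁻ x, ENNReal.ofReal (Fr s r ‖x‖) * ENNReal.ofReal ((1 - s) ^ b) :=
              setLIntegral_le_lintegral _ _
          _ = (∫⁻ x : ℂ, ENNReal.ofReal (Fr s r ‖x‖)) * ENNReal.ofReal ((1 - s) ^ b) := by
              rw [lintegral_mul_const]
              exact ((Fr_cont s r).comp continuous_norm).measurable.ennreal_ofReal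
          _ ≤ ENNReal.ofReal (2 * Real.pi * r) * ENNReal.ofReal ((1 - s) ^ b) := by
              gcongr
              exact Fr_C_integral hs hsr
    _ = ENNReal.ofReal (vb b ε * (2 * Real.pi * r * (1 - s) ^ b)) := by
        rw [← ENNReal.ofReal_mul (by positivity), ← ENNReal.ofReal_mul hvb]

theorem t3 (h7a : S_T7a) : S_T3 := by
  intro b ε r hb hε hr hr1 φ hφ
  have hev : ∀ᶠ s in 𝓝[<] r, 0 < s ∧ s < r := by
    filter_upwards [self_mem_nhdsWithin, nhdsWithin_le_nhds (Ioi_mem_nhds hr)] with s h1 h2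
    exact ⟨h2, h1⟩
  have hmain : ∀ᶠ s in 𝓝[<] r, ∫ z, gg s r z * dv φ z ≤ vb b ε * (2 * Real.pi * r * (1 - s) ^ b) := by
    filter_upwards [hev] with s hs
    exact step h7a hb hε hs.1 hs.2 hr1 hφ
  have hR : Tendsto (fun s => vb b ε * (2 * Real.pi * r * (1 - s) ^ b)) (𝓝[<] r)
      (𝓝 (vb b ε * (2 * Real.pi * r * (1 - r) ^ b))) := by
    have hc : Continuous (fun s : ℝ => vb b ε * (2 * Real.pi * r * (1 - s) ^ b)) := by fun_prop
    exact (hc.tendsto r).mono_left nhdsWithin_le_nhds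
  have hfst : Continuous (fun z : W b => z.fst) := (WithLp.fstL 2 ℝ ℂ (B b)).continuous
  have hSo : IsOpen {z : W b | ‖z.fst‖ < r} := isOpen_lt hfst.norm continuous_const
  have hEq : ∫ z in {z | z ∈ Om b ε ∧ ‖z.fst‖ < r}, dv φ z =
      ∫ z, ({z : W b | ‖z.fst‖ < r}).indicator (dv φ) z := by
    rw [integral_indicator hSo.measurableSet]
    symm
    apply setIntegral_eq_of_subset_of_forall_sdiff_eq_zero hSo.measurableSet
    · intro z hz; exact hz.2
    · intro z hz
      apply Div.dv_eq_zero_of_notMem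
      intro h
      exact hz.2 ⟨hφ.sub h, hz.1⟩
  have hdv : Integrable (dv φ) := Div.integrable_dv hφ.c1 hφ.cs
  have hL : Tendsto (fun s => ∫ z, gg s r z * dv φ z) (𝓝[<] r)
      (𝓝 (∫ z in {z | z ∈ Om b ε ∧ ‖z.fst‖ < r}, dv φ z)) := by
    rw [hEq]
    apply tendsto_integral_filter_of_dominated_convergence (fun z => ‖dv φ z‖)
    · filter_upwards with s
      exact ((gg_contDiff s r).continuous.mul (Div.continuous_dv hφ.c1)).aestronglyMeasurable
    · filter_upwards with s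
      filter_upwards with z
      rw [norm_mul]
      have h1 : ‖gg s r z‖ ≤ 1 := by
        rw [Real.norm_eq_abs, abs_of_nonneg (by exact hh_nonneg _ _ _)]
        exact hh_le_one _ _ _
      calc ‖gg s r z‖ * ‖dv φ z‖ ≤ 1 * ‖dv φ z‖ := by gcongr
        _ = ‖dv φ z‖ := one_mul _
    · exact hdv.norm
    · filter_upwards with z
      by_cases hz : ‖z.fst‖ < r
      · rw [indicator_of_mem (by exact hz)]
        refine tendsto_const_nhds.congr' ?_
        filter_upwards [hev, nhdsWithin_le_nhds (Ioi_mem_nhds hz)] with s hs hs2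
        have hs2' : ‖z.fst‖ < s := hs2
        unfold gg
        rw [hh_one hs.1 hs.2 (by nlinarith [norm_nonneg z.fst]), one_mul]
      · rw [indicator_of_notMem (by exact hz)]
        push Not at hz
        refine tendsto_const_nhds.congr' ?_
        filter_upwards [hev] with s hs
        unfold gg
        rw [hh_zero hs.1 hs.2 (by nlinarith [norm_nonneg z.fst]), zero_mul]
  exact le_of_tendsto_of_tendsto hL hR hmain

end Pool.Agent.Helper188_CS

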