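import Pool.Agent.Helper188_CS.Defs

set_option autoImplicit false

open MeasureTheory Set Metric Filter Topology
open scoped ENNReal RealInnerProductSpace
open Pool.Agent.TH703.Cone

namespace Pool.Agent.Helper188_CS

namespace J4

variable {b : ℕ}

theorem om_cont (b : ℕ) (ε : ℝ) : Continuous fun z : W b => ‖z.fst‖ + ‖z.snd‖ / ε := by
  have h1 : Continuous fun z : W b => z.fst := WithLp.continuous_fst 2 _ _
  have h2 : Continuous fun z : W b => z.snd := WithLp.continuous_snd 2 _ _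
  fun_prop

theorem om_open (b : ℕ) (ε : ℝ) : IsOpen (Om b ε) :=
  isOpen_lt (om_cont b ε) continuous_const

theorem fst_lt {ε : ℝ} (hε : 0 < ε) {z : W b} (hz : z ∈ Om b ε) : ‖z.fst‖ < 1 := by
  have h : ‖z.fst‖ + ‖z.snd‖ / ε < 1 := hz
  have : 0 ≤ ‖z.snd‖ / ε := by positivity
  linarith

theorem snd_lt {ε : ℝ} (hε : 0 < ε) {z : W b} (hz : z ∈ Om b ε) : ‖z.snd‖ < ε := by
  have h : ‖z.fst‖ + ‖z.snd‖ / ε < 1 := hz
  have h0 : 0 ≤ ‖z.fst‖ := norm_nonneg _
  have : ‖z.snd‖ / ε < 1 := by linarith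
  rwa [div_lt_one hε] at this

theorem om_convex (b : ℕ) {ε : ℝ} (hε : 0 < ε) : Convex ℝ (Om b ε) := by
  intro z hz w hw s t hs ht hst
  have hz' : ‖z.fst‖ + ‖z.snd‖ / ε < 1 := hz
  have hw' : ‖w.fst‖ + ‖w.snd‖ / ε < 1 := hw
  show ‖(s • z + t • w).fst‖ + ‖(s • z + t • w).snd‖ / ε < 1
  have h1 : ‖(s • z + t • w).fst‖ ≤ s * ‖z.fst‖ + t * ‖w.fst‖ := by
    show ‖s • z.fst + t • w.fst‖ ≤ _
    refine (norm_add_le _ _).trans ?_
    rw [norm_smul, norm_smul, Real.norm_of_nonneg hs, Real.norm_of_nonneg ht]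
  have h2 : ‖(s • z + t • w).snd‖ ≤ s * ‖z.snd‖ + t * ‖w.snd‖ := by
    show ‖s • z.snd + t • w.snd‖ ≤ _
    refine (norm_add_le _ _).trans ?_
    rw [norm_smul, norm_smul, Real.norm_of_nonneg hs, Real.norm_of_nonneg ht]
  have h3 : ‖(s • z + t • w).snd‖ / ε ≤ s * (‖z.snd‖ / ε) + t * (‖w.snd‖ / ε) := by
    calc ‖(s • z + t • w).snd‖ / ε ≤ (s * ‖z.snd‖ + t * ‖w.snd‖) / ε := by gcongr
      _ = _ := by ring
  have h4 : s * (‖z.fst‖ + ‖z.snd‖ / ε) + t * (‖w.fst‖ + ‖w.snd‖ / ε) < 1 := by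
    rcases hs.eq_or_lt with h | h
    · have : t = 1 := by linarith
      subst this
      rw [← h]
      linarith
    · calc s * (‖z.fst‖ + ‖z.snd‖ / ε) + t * (‖w.fst‖ + ‖w.snd‖ / ε)
          < s * 1 + t * (‖w.fst‖ + ‖w.snd‖ / ε) := by gcongr
        _ ≤ s * 1 + t * 1 := by gcongr
        _ = 1 := by linarith
  linarith

theorem om_bdd (b : ℕ) {ε : ℝ} (hε : 0 < ε) : Bornology.IsBounded (Om b ε) := by
  refine (isBounded_iff_forall_norm_le).2 ⟨1 + ε, fun z hz => ?_⟩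
  have h1 := fst_lt hε hz
  have h2 := snd_lt hε hz
  have h3 : ‖z‖ ^ 2 = ‖z.fst‖ ^ 2 + ‖z.snd‖ ^ 2 := WithLp.prod_norm_sq_eq_of_L2 z
  have h4 : 0 ≤ ‖z.fst‖ := norm_nonneg _
  have h5 : 0 ≤ ‖z.snd‖ := norm_nonneg _
  nlinarith [norm_nonneg z]

theorem swap3 {X Y Z : Type*} [MeasureSpace X] [MeasureSpace Y] [MeasureSpace Z]
    [SFinite (volume : Measure X)] [SFinite (volume : Measure Y)] [SFinite (volume : Measure Z)]
    (F : X × Y → Z → ℝ≥0∞) (hF : Measurable (Function.uncurry F)) :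
    ∫⁻ x : X, ∫⁻ y : Y, ∫⁻ w : Z, F (x, y) w = ∫⁻ w : Z, ∫⁻ p : X × Y, F p w := by
  have hG : Measurable fun p : X × Y => ∫⁻ w : Z, F p w := hF.lintegral_prod_right'
  rw [← lintegral_lintegral_swap hF.aemeasurable]
  exact (lintegral_prod (μ := (volume : Measure X)) (ν := (volume : Measure Y))
    (fun p => ∫⁻ w : Z, F p w) hG.aemeasurable).symm

theorem core {X Y : Type*} [MeasureSpace X] [MeasureSpace Y] [AddCommGroup Y] [MeasurableAdd₂ Y]
    [SFinite (volume : Measure X)] [SFinite (volume : Measure Y)]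
    [(volume : Measure Y).IsAddLeftInvariant] (A D : Set (X × Y)) (hA : MeasurableSet A)
    (hD : MeasurableSet D) (hfin : ∀ x, volume {y | (x, y) ∈ D} ≠ ⊤) :
    ∫⁻ x : X, volume {y | (x, y) ∈ A} * volume {y | (x, y) ∈ D} =
      ∫⁻ w : Y, volume {p : X × Y | p ∈ A ∧ (p.1, p.2 + w) ∈ D} := by
  let F : X × Y → Y → ℝ≥0∞ := fun p w =>
    A.indicator 1 p * D.indicator 1 ((p.1, p.2 + w) : X × Y)
  have hmm : Measurable fun q : (X × Y) × Y => ((q.1.1, q.1.2 + q.2) : X × Y) :=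
    (measurable_fst.fst).prodMk (measurable_fst.snd.add measurable_snd)
  have hF : Measurable (Function.uncurry F) :=
    Measurable.mul ((measurable_one.indicator hA).comp measurable_fst)
      ((measurable_one.indicator hD).comp hmm)
  have hfib : ∀ x : X, volume {y | (x, y) ∈ A} * volume {y | (x, y) ∈ D} =
      ∫⁻ y : Y, ∫⁻ w : Y, F (x, y) w := by
    intro x
    have hAx : MeasurableSet {y | (x, y) ∈ A} := measurable_prodMk_left hA
    have hDx : MeasurableSet {y | (x, y) ∈ D} := measurable_prodMk_left hD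
    have e1 : volume {y | (x, y) ∈ A} = ∫⁻ y : Y, A.indicator 1 ((x, y) : X × Y) := by
      rw [← lintegral_indicator_one hAx]
      rfl
    have e2 : ∀ y : Y, volume {y | (x, y) ∈ D} =
        ∫⁻ w : Y, D.indicator 1 ((x, y + w) : X × Y) := by
      intro y
      rw [← lintegral_indicator_one hDx,
        ← lintegral_add_left_eq_self (μ := (volume : Measure Y)) _ y]
      rfl
    rw [e1, ← lintegral_mul_const' _ _ (hfin x)]
    refine lintegral_congr fun y => ?_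
    rw [e2 y, ← lintegral_const_mul']
    by_cases h : ((x, y) : X × Y) ∈ A <;> simp [h]
  rw [lintegral_congr hfib, swap3 F hF]
  refine lintegral_congr fun w => ?_
  have hm : MeasurableSet {p : X × Y | p ∈ A ∧ (p.1, p.2 + w) ∈ D} := by
    have h2 : Measurable fun p : X × Y => ((p.1, p.2 + w) : X × Y) :=
      measurable_fst.prodMk (measurable_snd.add_const w)
    exact hA.inter (h2 hD)
  rw [← lintegral_indicator_one hm]
  refine lintegral_congr fun p => ?_
  show A.indicator 1 p * D.indicator 1 (p.1, p.2 + w) = _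
  by_cases h : p ∈ A
  · by_cases h' : (p.1, p.2 + w) ∈ D
    · have : p ∈ {p : X × Y | p ∈ A ∧ (p.1, p.2 + w) ∈ D} := ⟨h, h'⟩
      rw [indicator_of_mem h, indicator_of_mem h', indicator_of_mem this]
      simp
    · have : p ∉ {p : X × Y | p ∈ A ∧ (p.1, p.2 + w) ∈ D} := fun h2 => h' h2.2
      rw [indicator_of_notMem h', indicator_of_notMem this, mul_zero]
  · have : p ∉ {p : X × Y | p ∈ A ∧ (p.1, p.2 + w) ∈ D} := fun h2 => h h2.1
    rw [indicator_of_notMem h, indicator_of_notMem this, zero_mul]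

theorem vol2 (b : ℕ) (ε : ℝ) : volume (ball (0 : B b) (2 * ε)) = ENNReal.ofReal (2 ^ b * vb b ε) := by
  have e2 : volume (ball (0 : B b) ε) = ENNReal.ofReal (vb b ε) := by
    unfold vb
    rw [ofReal_measureReal measure_ball_lt_top.ne]
  rw [Measure.addHaar_ball_mul_of_pos _ _ (by norm_num : (0 : ℝ) < 2), finrank_euclideanSpace,
    Fintype.card_fin, e2, ← ENNReal.ofReal_mul (by positivity)]

theorem lint_le {Y : Type*} [MeasureSpace Y] (f : Y → ℝ≥0∞) (s : Set Y) (hs : MeasurableSet s)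
    (c d : ℝ) (hc : 0 ≤ c) (hd : volume s = ENNReal.ofReal d)
    (hf : ∀ w, f w ≤ s.indicator (fun _ => ENNReal.ofReal c) w) :
    ∫⁻ w, f w ≤ ENNReal.ofReal (c * d) := by
  calc ∫⁻ w, f w ≤ ∫⁻ w, s.indicator (fun _ => ENNReal.ofReal c) w := lintegral_mono hf
    _ = ENNReal.ofReal c * volume s := by rw [lintegral_indicator hs, setLIntegral_const]
    _ = ENNReal.ofReal (c * d) := by rw [hd, ← ENNReal.ofReal_mul hc]

end J4

theorem t5 (h1 : ∀ b : ℕ, S_T1 (W b)) : S_T5 := by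
  intro b ε P A hb hε hA hAΩ hP hPLE
  have hDm : MeasurableSet (Om b ε \ A) := (J4.om_open b ε).measurableSet.diff hA
  have hψ : MeasurePreserving (WithLp.toLp 2 : ℂ × B b → W b) :=
    WithLp.volume_preserving_toLp ℂ (B b)
  have hmain : ∫⁻ x : ℂ, volume (fib A x) * volume (fib (Om b ε \ A) x) =
      ∫⁻ w : B b, volume {z : W b | z ∈ A ∧ z + WithLp.toLp 2 (0, w) ∈ Om b ε \ A} := by
    have h := J4.core (X := ℂ) (Y := B b) ((WithLp.toLp 2 : ℂ × B b → W b) ⁻¹' A)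
      ((WithLp.toLp 2 : ℂ × B b → W b) ⁻¹' (Om b ε \ A)) (hψ.measurable hA) (hψ.measurable hDm)
      (fun x => by
        have hsub : {y : B b | (x, y) ∈ (WithLp.toLp 2 : ℂ × B b → W b) ⁻¹' (Om b ε \ A)} ⊆
            ball (0 : B b) ε := fun y hy => mem_ball_zero_iff.2 (J4.snd_lt hε (z :=
              (WithLp.toLp 2 (x, y) : W b)) hy.1)
        exact ((measure_mono hsub).trans_lt measure_ball_lt_top).ne)
    refine h.trans ?_
    refine lintegral_congr fun w => ?_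
    have hm : MeasurableSet {z : W b | z ∈ A ∧ z + WithLp.toLp 2 (0, w) ∈ Om b ε \ A} :=
      hA.inter (measurable_id.add_const (WithLp.toLp 2 ((0 : ℂ), w) : W b) hDm)
    rw [← hψ.measure_preimage hm.nullMeasurableSet]
    congr 1
    ext p
    have e : (WithLp.toLp 2 p : W b) + WithLp.toLp 2 (0, w) = WithLp.toLp 2 (p.1, p.2 + w) := by
      rw [← WithLp.toLp_add]
      congr 1
      ext1 <;> simp
    show (WithLp.toLp 2 p : W b) ∈ A ∧ (WithLp.toLp 2 (p.1, p.2 + w) : W b) ∈ Om b ε \ A ↔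
      (WithLp.toLp 2 p : W b) ∈ A ∧ (WithLp.toLp 2 p : W b) + WithLp.toLp 2 (0, w) ∈ Om b ε \ A
    rw [e]
  have hbd : ∀ w : B b, volume {z : W b | z ∈ A ∧ z + WithLp.toLp 2 (0, w) ∈ Om b ε \ A} ≤
      (ball (0 : B b) (2 * ε)).indicator (fun _ => ENNReal.ofReal (2 * ε * P)) w := by
    intro w
    by_cases hw : w ∈ ball (0 : B b) (2 * ε)
    · rw [indicator_of_mem hw]
      refine (h1 b (Om b ε) A P (WithLp.toLp 2 (0, w)) (J4.om_open b ε) (J4.om_convex b hε)
        (J4.om_bdd b hε) hA hAΩ hP hPLE).trans ?_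
      refine ENNReal.ofReal_le_ofReal (mul_le_mul_of_nonneg_right ?_ hP)
      have e : ‖(WithLp.toLp 2 ((0 : ℂ), w) : W b)‖ = ‖w‖ := WithLp.norm_toLp_snd 2 ℂ (B b) w
      rw [e]
      exact (mem_ball_zero_iff.1 hw).le
    · rw [indicator_of_notMem hw]
      have : {z : W b | z ∈ A ∧ z + WithLp.toLp 2 (0, w) ∈ Om b ε \ A} = ∅ := by
        rw [eq_empty_iff_forall_notMem]
        rintro z ⟨hz, hz', -⟩
        apply hw
        have h2 := J4.snd_lt hε (hAΩ hz)
        have h3 := J4.snd_lt hε hz'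
        have e3 : (z + WithLp.toLp 2 ((0 : ℂ), w) : W b).snd = z.snd + w := rfl
        rw [e3] at h3
        rw [mem_ball_zero_iff]
        calc ‖w‖ = ‖(z.snd + w) - z.snd‖ := by rw [add_sub_cancel_left]
          _ ≤ ‖z.snd + w‖ + ‖z.snd‖ := norm_sub_le _ _
          _ < 2 * ε := by linarith
      rw [this]
      simp
  rw [hmain]
  refine (J4.lint_le _ (ball (0 : B b) (2 * ε)) measurableSet_ball (2 * ε * P) (2 ^ b * vb b ε)
    (by positivity) (J4.vol2 b ε) hbd).trans (le_of_eq ?_)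
  congr 1
  ring

end Pool.Agent.Helper188_CS
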