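-- JOB for MP_65ff7c_an (S04892, full negative answer; finishing the starting project Pool/Agent/TH703/Cone).
-- Owner helper188. Copy the starting files Pool/Agent/TH703/Cone/*.lean from outputs/live to your Pool tree.
-- One file, one TARGET; keep the statement unchanged. Paste the full proved file back (UPDATE jobs SET result ...).
import Pool.Agent.Helper188_CS.Defs
import Pool.Agent.TH703.Cone.Div

set_option autoImplicit false

open MeasureTheory Set Metric Filter Topology
open scoped ENNReal RealInnerProductSpace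
open Pool.Agent.TH703.Cone

namespace Pool.Agent.Helper188_CS






/-! ### the profile -/

theorem sm_hasDerivAt (t : ℝ) : HasDerivAt sm (sm' t) t := by
  have hp : ∀ s : ℝ, HasDerivAt (fun t : ℝ => (3 * t - t ^ 3) / 2) (3 * (1 - s ^ 2) / 2) s := by
    intro s
    have h := (((hasDerivAt_id s).const_mul 3).sub (hasDerivAt_pow 3 s)).div_const 2
    refine h.congr_deriv ?_
    push_cast
    ring
  rcases lt_trichotomy t (-1) with h | h | h
  · have h1 : sm =ᶠ[𝓝 t] fun _ => (-1 : ℝ) := by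
      filter_upwards [Iio_mem_nhds h] with s hs
      simp only [sm, if_pos (le_of_lt (show s < -1 from hs))]
    have h2 : sm' t = 0 := by simp only [sm', if_pos h.le]
    rw [h2]
    exact (hasDerivAt_const t (-1 : ℝ)).congr_of_eventuallyEq h1
  · subst h
    have h2 : sm' (-1) = 0 := by simp [sm']
    rw [h2]
    have hl : HasDerivWithinAt sm 0 (Iic (-1)) (-1) := by
      refine (hasDerivWithinAt_const (-1 : ℝ) (Iic (-1)) (-1 : ℝ)).congr ?_ ?_
      · intro s hs
        simp only [sm, if_pos (show s ≤ -1 from hs)]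
      · simp [sm]
    have hr : HasDerivWithinAt sm 0 (Ici (-1)) (-1) := by
      have h3 : HasDerivWithinAt (fun t : ℝ => (3 * t - t ^ 3) / 2) 0 (Ici (-1)) (-1) := by
        have := (hp (-1)).hasDerivWithinAt (s := Ici (-1))
        refine this.congr_deriv ?_
        norm_num
      refine h3.congr_of_eventuallyEq ?_ ?_
      · have h4 : Iio (1 : ℝ) ∈ 𝓝[Ici (-1)] (-1 : ℝ) :=
          mem_nhdsWithin_of_mem_nhds (Iio_mem_nhds (by norm_num))
        filter_upwards [h4, self_mem_nhdsWithin] with s hs hs2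
        have hs1 : s < 1 := hs
        have hs3 : -1 ≤ s := hs2
        rcases eq_or_lt_of_le hs3 with h5 | h5
        · rw [← h5]
          simp only [sm]
          norm_num
        · simp only [sm, if_neg (not_le.2 h5), if_neg (not_le.2 hs1)]
      · simp only [sm]
        norm_num
    have := hl.union hr
    rw [Iic_union_Ici] at this
    exact this.hasDerivAt univ_mem
  · rcases lt_trichotomy t 1 with h' | h' | h'
    · have h1 : sm =ᶠ[𝓝 t] fun t => (3 * t - t ^ 3) / 2 := by
        filter_upwards [Ioo_mem_nhds h h'] with s hs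
        simp only [sm, if_neg (not_le.2 hs.1), if_neg (not_le.2 hs.2)]
      have h2 : sm' t = 3 * (1 - t ^ 2) / 2 := by
        simp only [sm', if_neg (not_le.2 h), if_neg (not_le.2 h')]
      rw [h2]
      exact (hp t).congr_of_eventuallyEq h1
    · subst h'
      have h2 : sm' 1 = 0 := by simp [sm']
      rw [h2]
      have hl : HasDerivWithinAt sm 0 (Ici 1) 1 := by
        refine (hasDerivWithinAt_const (1 : ℝ) (Ici 1) (1 : ℝ)).congr ?_ ?_
        · intro s hs
          have hs' : (1 : ℝ) ≤ s := hs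
          simp only [sm, if_neg (show ¬ s ≤ -1 by linarith), if_pos hs']
        · simp only [sm]
          norm_num
      have hr : HasDerivWithinAt sm 0 (Iic 1) 1 := by
        have h3 : HasDerivWithinAt (fun t : ℝ => (3 * t - t ^ 3) / 2) 0 (Iic 1) 1 := by
          have := (hp 1).hasDerivWithinAt (s := Iic 1)
          refine this.congr_deriv ?_
          norm_num
        refine h3.congr_of_eventuallyEq ?_ ?_
        · have h4 : Ioi (-1 : ℝ) ∈ 𝓝[Iic 1] (1 : ℝ) :=
            mem_nhdsWithin_of_mem_nhds (Ioi_mem_nhds (by norm_num))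
          filter_upwards [h4, self_mem_nhdsWithin] with s hs hs2
          have hs1 : -1 < s := hs
          have hs3 : s ≤ 1 := hs2
          rcases eq_or_lt_of_le hs3 with h5 | h5
          · rw [h5]
            simp only [sm]
            norm_num
          · simp only [sm, if_neg (not_le.2 hs1), if_neg (not_le.2 h5)]
        · simp only [sm]
          norm_num
      have := hl.union hr
      rw [Ici_union_Iic] at this
      exact this.hasDerivAt univ_mem
    · have h1 : sm =ᶠ[𝓝 t] fun _ => (1 : ℝ) := by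
        filter_upwards [Ioi_mem_nhds h'] with s hs
        have hs' : (1 : ℝ) < s := hs
        simp only [sm, if_neg (show ¬ s ≤ -1 by linarith), if_pos hs'.le]
      have h2 : sm' t = 0 := by
        simp only [sm', if_neg (show ¬ t ≤ -1 by linarith), if_pos h'.le]
      rw [h2]
      exact (hasDerivAt_const t (1 : ℝ)).congr_of_eventuallyEq h1

theorem sm'_eq (t : ℝ) : sm' t = max 0 (3 * (1 - t ^ 2) / 2) := by
  unfold sm'
  split_ifs with h1 h2
  · rw [max_eq_left]
    nlinarith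
  · rw [max_eq_left]
    nlinarith
  · rw [max_eq_right]
    push Not at h1 h2
    nlinarith

theorem sm_contDiff : ContDiff ℝ 1 sm := by
  rw [contDiff_one_iff_deriv]
  refine ⟨fun t => (sm_hasDerivAt t).differentiableAt, ?_⟩
  have h : deriv sm = fun t => max 0 (3 * (1 - t ^ 2) / 2) :=
    funext fun t => by rw [(sm_hasDerivAt t).deriv, sm'_eq]
  rw [h]
  fun_prop

theorem abs_sm_le (t : ℝ) : |sm t| ≤ 1 := by
  unfold sm
  split_ifs with h1 h2
  · simp
  · simp
  · push Not at h1 h2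
    rw [abs_le]
    constructor
    · nlinarith [mul_nonneg (sq_nonneg (t + 1)) (show (0:ℝ) ≤ 2 - t by linarith)]
    · nlinarith [mul_nonneg (sq_nonneg (t - 1)) (show (0:ℝ) ≤ t + 2 by linarith)]

/-! ### the rotation -/

/-- the rotation field as a continuous linear map -/
noncomputable def rotL (b : ℕ) : W b →L[ℝ] W b :=
  ((WithLp.prodContinuousLinearEquiv 2 ℝ ℂ (B b)).symm : (ℂ × B b) →L[ℝ] W b).comp
    ((ContinuousLinearMap.inl ℝ ℂ (B b)).comp
      (((ContinuousLinearMap.mul ℝ ℂ) Complex.I).comp (WithLp.fstL 2 ℝ ℂ (B b))))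

theorem rotL_apply {b : ℕ} (z : W b) : rotL b z = rot z := rfl

theorem rot_eq {b : ℕ} : (rot : W b → W b) = rotL b := rfl

theorem norm_rot {b : ℕ} (z : W b) : ‖rot z‖ = ‖z.fst‖ := by
  rw [WithLp.prod_norm_eq_of_L2]
  simp [rot]

theorem inner_rot {b : ℕ} (z : W b) : inner ℝ z (rot z) = 0 := by
  rw [WithLp.prod_inner_apply]
  simp [rot, Complex.inner]
  ring

theorem dv_rot {b : ℕ} (z : W b) : dv (rot : W b → W b) z = 0 := by
  rw [Div.dv_eq_sum (stdOrthonormalBasis ℝ (W b))]
  refine Finset.sum_eq_zero fun i _ => ?_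
  rw [rot_eq, (rotL b).fderiv, rotL_apply]
  exact inner_rot _

theorem fst_contDiff {b : ℕ} : ContDiff ℝ 1 (fun z : W b => z.fst) :=
  (WithLp.fstL 2 ℝ ℂ (B b)).contDiff

/-- the factor -/
noncomputable def fac {b : ℕ} (κ : W b → ℝ) (u : ℂ) (σ : ℝ) (z : W b) : ℝ :=
  κ z * sm ((z.fst * u).im / (σ * ‖z.fst‖)) / ‖z.fst‖

theorem fac_contDiffAt {b : ℕ} {κ : W b → ℝ} (hκ : ContDiff ℝ 1 κ) (u : ℂ) {σ : ℝ} (hσ : 0 < σ)
    {z : W b} (hz : z.fst ≠ 0) : ContDiffAt ℝ 1 (fac κ u σ) z := by
  have hn : ContDiffAt ℝ 1 (fun z : W b => ‖z.fst‖) z := fst_contDiff.contDiffAt.norm ℝ hz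
  have h0 : ‖z.fst‖ ≠ 0 := norm_ne_zero_iff.2 hz
  have hi : ContDiff ℝ 1 (fun z : W b => (z.fst * u).im) :=
    Complex.imCLM.contDiff.comp (fst_contDiff.mul contDiff_const)
  unfold fac
  refine ContDiffAt.div (hκ.contDiffAt.mul ?_) hn h0
  exact sm_contDiff.contDiffAt.comp z
    (hi.contDiffAt.div (contDiffAt_const.mul hn) (mul_ne_zero hσ.ne' h0))

/-- the rotation curve through `z` -/
noncomputable def cur {b : ℕ} (z : W b) (t : ℝ) : W b :=
  WithLp.toLp 2 (Complex.exp (t * Complex.I) * z.fst, z.snd)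

theorem cur_zero {b : ℕ} (z : W b) : cur z 0 = z := by
  simp [cur]
  rfl

theorem cur_hasDerivAt {b : ℕ} (z : W b) : HasDerivAt (cur z) (rot z) 0 := by
  have h1 : HasDerivAt (fun t : ℝ => Complex.exp (t * Complex.I) * z.fst)
      (Complex.I * z.fst) 0 := by
    have h2 : HasDerivAt (fun t : ℝ => (t : ℂ) * Complex.I) (1 * Complex.I) 0 :=
      (Complex.ofRealCLM.hasDerivAt (x := (0:ℝ))).mul_const Complex.I
    have h3 := h2.cexp.mul_const z.fst
    refine h3.congr_deriv ?_
    simp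
  have h4 : HasDerivAt (fun t : ℝ => (Complex.exp (t * Complex.I) * z.fst, z.snd))
      (Complex.I * z.fst, (0 : B b)) 0 := h1.prodMk (hasDerivAt_const _ _)
  exact ((WithLp.prodContinuousLinearEquiv 2 ℝ ℂ (B b)).symm :
    (ℂ × B b) →L[ℝ] W b).hasFDerivAt.comp_hasDerivAt (0:ℝ) h4

theorem cur_norm {b : ℕ} (z : W b) (t : ℝ) : ‖(cur z t).fst‖ = ‖z.fst‖ := by
  simp [cur, Complex.norm_exp_ofReal_mul_I]

theorem fderiv_fac_rot {b : ℕ} {κ : W b → ℝ} (hκ : ContDiff ℝ 1 κ)
    (hκr : ∀ z, fderiv ℝ κ z (rot z) = 0) (u : ℂ) {σ : ℝ} (hσ : 0 < σ)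
    {z : W b} (hz : z.fst ≠ 0) :
    fderiv ℝ (fac κ u σ) z (rot z) = κ z * (sm' ((z.fst * u).im / (σ * ‖z.fst‖)) *
      ((z.fst * u).re / (σ * ‖z.fst‖ ^ 2))) := by
  have h0 : ‖z.fst‖ ≠ 0 := norm_ne_zero_iff.2 hz
  have hf : HasDerivAt (fun t => fac κ u σ (cur z t)) (fderiv ℝ (fac κ u σ) z (rot z)) 0 := by
    have h1 : HasFDerivAt (fac κ u σ) (fderiv ℝ (fac κ u σ) z) (cur z 0) := by
      rw [cur_zero]
      exact ((fac_contDiffAt hκ u hσ hz).differentiableAt (by norm_num)).hasFDerivAt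
    exact h1.comp_hasDerivAt (0:ℝ) (cur_hasDerivAt z)
  have hk : HasDerivAt (fun t => κ (cur z t)) 0 0 := by
    have h1 : HasFDerivAt κ (fderiv ℝ κ z) (cur z 0) := by
      rw [cur_zero]
      exact (hκ.differentiable (by norm_num) z).hasFDerivAt
    have h2 := h1.comp_hasDerivAt (0:ℝ) (cur_hasDerivAt z)
    rw [hκr] at h2
    exact h2
  have hi : HasDerivAt (fun t => ((cur z t).fst * u).im) ((z.fst * u).re) 0 := by
    have h1 : HasDerivAt (fun t => (cur z t).fst) ((rot z).fst) 0 :=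
      (WithLp.fstL 2 ℝ ℂ (B b)).hasFDerivAt.comp_hasDerivAt (0:ℝ) (cur_hasDerivAt z)
    have h2 := Complex.imCLM.hasFDerivAt.comp_hasDerivAt (0:ℝ) (h1.mul_const u)
    refine h2.congr_deriv ?_
    simp [rot]
    ring
  have hg : HasDerivAt (fun t => κ (cur z t) *
      sm (((cur z t).fst * u).im / (σ * ‖z.fst‖)) / ‖z.fst‖)
      (κ z * (sm' ((z.fst * u).im / (σ * ‖z.fst‖)) *
      ((z.fst * u).re / (σ * ‖z.fst‖ ^ 2)))) 0 := by
    have h1 : HasDerivAt (fun t => sm (((cur z t).fst * u).im / (σ * ‖z.fst‖)))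
        (sm' ((z.fst * u).im / (σ * ‖z.fst‖)) * ((z.fst * u).re / (σ * ‖z.fst‖))) 0 := by
      have h2 := hi.div_const (σ * ‖z.fst‖)
      have h3 : HasDerivAt sm (sm' ((z.fst * u).im / (σ * ‖z.fst‖)))
          (((cur z 0).fst * u).im / (σ * ‖z.fst‖)) := by
        rw [cur_zero]
        exact sm_hasDerivAt _
      exact h3.comp (0:ℝ) h2
    have h4 := (hk.mul h1).div_const ‖z.fst‖
    refine h4.congr_deriv ?_
    rw [cur_zero]
    field_simp
    ring
  have he : (fun t => fac κ u σ (cur z t)) = (fun t => κ (cur z t) *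
      sm (((cur z t).fst * u).im / (σ * ‖z.fst‖)) / ‖z.fst‖) := by
    funext t
    unfold fac
    rw [cur_norm]
  rw [he] at hf
  exact hf.unique hg

/-
TARGET T4a (the divergence of the rotational field).
Plain proof. `sm` is C¹ with derivative `sm'` (the two derivatives agree at `±1`), `|sm| ≤ 1`.
On the open set `{z.fst ≠ 0} ⊇ tsupport κ` put `a z = κ z * sm (Im (z.fst * u) / (σ ‖z.fst‖)) / ‖z.fst‖`; it is C¹
there, so `a • rot` is C¹ there, and it is `0` on the open complement of `tsupport κ`, so the field is C¹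
everywhere; its support is inside that of `κ`; its norm is `|κ| * |sm| ≤ 1` (`‖rot z‖ = ‖z.fst‖`).
Divergence: `dv (a • T) z = (fderiv a z) (T z) + a z * dv T z` (`Pool.Agent.TH703.Cone.dv_smul` in Div.lean,
check its form) and `dv rot = trace of the linear map rot = 0` (skew: `⟪rot z, z⟫ = 0`; or compute the trace
with an orthonormal basis, `dv_eq_sum`). Finally `(fderiv a z)(rot z)`: the derivative of `κ` in the direction
`rot z` is `0` by hypothesis `hκr`, that of `‖z.fst‖` is `0` (as `⟪x, i x⟫ = 0`), and that of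
`Im (z.fst * u) / (σ ‖z.fst‖)` is `Im (i x u) / (σ ‖x‖) = Re (x u) / (σ ‖x‖)`. So the divergence is
`κ z * sm'(Im(xu)/(σ‖x‖)) * Re (x u) / (σ ‖x‖^2)`.
You may import Pool.Agent.TH703.Cone.Div.
-/
theorem t4a {b : ℕ} {ε : ℝ} (κ : W b → ℝ) (hκ : ContDiff ℝ 1 κ) (hκc : HasCompactSupport κ)
    (hκs : tsupport κ ⊆ {z | z ∈ Om b ε ∧ z.fst ≠ 0}) (hκ0 : ∀ z, 0 ≤ κ z) (hκ1 : ∀ z, κ z ≤ 1)
    (hκr : ∀ z, fderiv ℝ κ z (rot z) = 0) (u : ℂ) (hu : ‖u‖ = 1) (σ : ℝ) (hσ : 0 < σ) :
    Tst (Om b ε) (fld κ u σ) ∧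
    ∀ z, dv (fld κ u σ) z = κ z * (sm' ((z.fst * u).im / (σ * ‖z.fst‖)) *
      ((z.fst * u).re / (σ * ‖z.fst‖ ^ 2))) := by
  have hfld : fld κ u σ = fun z => fac κ u σ z • rot z := rfl
  have hsub : tsupport (fld κ u σ) ⊆ tsupport κ := by
    refine closure_mono ?_
    intro z hz
    rw [Function.mem_support] at hz ⊢
    intro h
    apply hz
    simp [fld, h]
  have hrotc : ContDiff ℝ 1 (rot : W b → W b) := by
    rw [rot_eq]
    exact (rotL b).contDiff
  refine ⟨⟨?_, ?_, ?_, ?_⟩, ?_⟩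
  · rw [contDiff_iff_contDiffAt]
    intro z
    by_cases hz : z ∈ tsupport κ
    · rw [hfld]
      exact (fac_contDiffAt hκ u hσ (hκs hz).2).smul hrotc.contDiffAt
    · have h1 : fld κ u σ =ᶠ[𝓝 z] fun _ => (0 : W b) := by
        have h2 : (tsupport κ)ᶜ ∈ 𝓝 z := (isClosed_tsupport κ).isOpen_compl.mem_nhds hz
        filter_upwards [h2] with w hw
        have : κ w = 0 := image_eq_zero_of_notMem_tsupport hw
        simp [fld, this]
      exact contDiffAt_const.congr_of_eventuallyEq h1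
  · exact hκc.of_isClosed_subset (isClosed_tsupport _) hsub
  · exact fun z hz => (hκs (hsub hz)).1
  · intro z
    unfold fld
    rw [norm_smul, norm_rot]
    by_cases hz : z.fst = 0
    · simp [hz]
    · have h0 : ‖z.fst‖ ≠ 0 := norm_ne_zero_iff.2 hz
      rw [norm_div, norm_norm, div_mul_cancel₀ _ h0, norm_mul, Real.norm_eq_abs, Real.norm_eq_abs,
        abs_of_nonneg (hκ0 z)]
      calc κ z * |sm ((z.fst * u).im / (σ * ‖z.fst‖))| ≤ 1 * 1 :=
            mul_le_mul (hκ1 z) (abs_sm_le _) (abs_nonneg _) zero_le_one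
        _ = 1 := one_mul 1
  · intro z
    by_cases hz : z ∈ tsupport κ
    · have hz0 := (hκs hz).2
      rw [hfld, Div.dv_smul ((fac_contDiffAt hκ u hσ hz0).differentiableAt (by norm_num))
        (hrotc.differentiable (by norm_num) z), dv_rot, mul_zero, zero_add]
      exact fderiv_fac_rot hκ hκr u hσ hz0
    · rw [Div.dv_eq_zero_of_notMem (fun h => hz (hsub h)), image_eq_zero_of_notMem_tsupport hz,
        zero_mul]

end Pool.Agent.Helper188_CS
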