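-- JOB for MP_65ff7c_an (S04892, full negative answer; finishing the starting project Pool/Agent/TH703/Cone).
-- Owner helper188. Copy the starting files Pool/Agent/TH703/Cone/*.lean from outputs/live to your Pool tree.
-- One file, one TARGET; keep the statement unchanged. Paste the full proved file back (UPDATE jobs SET result ...).
import Pool.Agent.Helper188_CS.Defs

set_option autoImplicit false

open MeasureTheory Set Metric Filter Topology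
open scoped ENNReal RealInnerProductSpace
open Pool.Agent.TH703.Cone

namespace Pool.Agent.Helper188_CS



lemma fst_cd685 {b : ℕ} : ContDiff ℝ 1 (fun z : W b => z.fst) :=
  (WithLp.fstL 2 ℝ ℂ (B b)).contDiff

lemma snd_cd685 {b : ℕ} : ContDiff ℝ 1 (fun z : W b => z.snd) :=
  (WithLp.sndL 2 ℝ ℂ (B b)).contDiff

/-- the third argument -/
noncomputable def thd685 {b : ℕ} (ε : ℝ) (m : ℝ) (z : W b) : ℝ :=
  1 - Real.sqrt (‖z.fst‖ ^ 2 + 1 / m ^ 2) - Real.sqrt (‖z.snd‖ ^ 2 + 1 / m ^ 2) / ε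

/-- the cut-off function -/
noncomputable def kap685 {b : ℕ} (ε r₀ R₁ : ℝ) (m : ℝ) (z : W b) : ℝ :=
  Real.smoothTransition (m * (‖z.fst‖ ^ 2 - r₀ ^ 2) - 1) * Real.smoothTransition (m * (R₁ ^ 2 - ‖z.fst‖ ^ 2) - 1) *
    Real.smoothTransition (m * thd685 ε m z - 1)

lemma thd_cd685 {b : ℕ} (ε m : ℝ) (hm : 0 < m) : ContDiff ℝ 1 (fun z : W b => thd685 ε m z) := by
  unfold thd685
  have h1 : ContDiff ℝ 1 (fun z : W b => ‖z.fst‖ ^ 2 + 1 / m ^ 2) := (fst_cd685.norm_sq ℝ).add contDiff_const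
  have h2 : ContDiff ℝ 1 (fun z : W b => ‖z.snd‖ ^ 2 + 1 / m ^ 2) := (snd_cd685.norm_sq ℝ).add contDiff_const
  refine (contDiff_const.sub (h1.sqrt fun z => ?_)).sub ((h2.sqrt fun z => ?_).div_const ε)
  · positivity
  · positivity

lemma kap_cd685 {b : ℕ} (ε r₀ R₁ m : ℝ) (hm : 0 < m) : ContDiff ℝ 1 (fun z : W b => kap685 ε r₀ R₁ m z) := by
  unfold kap685
  have h1 : ContDiff ℝ 1 (fun z : W b => ‖z.fst‖ ^ 2) := fst_cd685.norm_sq ℝ
  have hs : ContDiff ℝ 1 Real.smoothTransition := Real.smoothTransition.contDiff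
  refine ((hs.comp ?_).mul (hs.comp ?_)).mul (hs.comp ?_)
  · exact (contDiff_const.mul (h1.sub contDiff_const)).sub contDiff_const
  · exact (contDiff_const.mul (contDiff_const.sub h1)).sub contDiff_const
  · exact (contDiff_const.mul (thd_cd685 ε m hm)).sub contDiff_const

/-- a closed set containing the support -/
def KK685 (b : ℕ) (ε r₀ R₁ m : ℝ) : Set (W b) :=
  {z | r₀ ^ 2 + 1 / m ≤ ‖z.fst‖ ^ 2 ∧ ‖z.fst‖ ^ 2 ≤ R₁ ^ 2 - 1 / m ∧ 1 / m ≤ thd685 ε m z}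

lemma supp685 {b : ℕ} (ε r₀ R₁ m : ℝ) (hm : 0 < m) (z : W b) (hz : kap685 ε r₀ R₁ m z ≠ 0) : z ∈ KK685 b ε r₀ R₁ m := by
  unfold kap685 at hz
  have h1 : ¬ (m * (‖z.fst‖ ^ 2 - r₀ ^ 2) - 1 ≤ 0) := by
    intro h
    apply hz
    rw [Real.smoothTransition.zero_of_nonpos h]
    ring
  have h2 : ¬ (m * (R₁ ^ 2 - ‖z.fst‖ ^ 2) - 1 ≤ 0) := by
    intro h
    apply hz
    rw [Real.smoothTransition.zero_of_nonpos h]
    ring
  have h3 : ¬ (m * thd685 ε m z - 1 ≤ 0) := by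
    intro h
    apply hz
    rw [Real.smoothTransition.zero_of_nonpos h]
    ring
  push Not at h1 h2 h3
  refine ⟨?_, ?_, ?_⟩
  · have : 1 / m ≤ ‖z.fst‖ ^ 2 - r₀ ^ 2 := by
      rw [div_le_iff₀ hm]
      linarith
    linarith
  · have : 1 / m ≤ R₁ ^ 2 - ‖z.fst‖ ^ 2 := by
      rw [div_le_iff₀ hm]
      linarith
    linarith
  · rw [div_le_iff₀ hm]
    linarith

lemma KK_closed685 {b : ℕ} (ε r₀ R₁ m : ℝ) (hm : 0 < m) : IsClosed (KK685 b ε r₀ R₁ m) := by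
  have h1 : Continuous (fun z : W b => ‖z.fst‖ ^ 2) := (fst_cd685.norm_sq ℝ).continuous
  exact (isClosed_le continuous_const h1).inter ((isClosed_le h1 continuous_const).inter
    (isClosed_le continuous_const (thd_cd685 ε m hm).continuous))

lemma KK_sub685 {b : ℕ} (ε r₀ R₁ m : ℝ) (hε : 0 < ε) (hr₀ : 0 < r₀) (hR : r₀ < R₁) (hm : 0 < m) :
    KK685 b ε r₀ R₁ m ⊆ {z | z ∈ Om b ε ∧ r₀ < ‖z.fst‖ ∧ ‖z.fst‖ < R₁} := by
  rintro z ⟨h1, h2, h3⟩
  have hm1 : 0 < 1 / m := by positivity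
  refine ⟨?_, ?_, ?_⟩
  · unfold thd685 at h3
    have a1 : ‖z.fst‖ ≤ Real.sqrt (‖z.fst‖ ^ 2 + 1 / m ^ 2) := by
      apply Real.le_sqrt_of_sq_le
      have : 0 ≤ 1 / m ^ 2 := by positivity
      linarith
    have a2 : ‖z.snd‖ ≤ Real.sqrt (‖z.snd‖ ^ 2 + 1 / m ^ 2) := by
      apply Real.le_sqrt_of_sq_le
      have : 0 ≤ 1 / m ^ 2 := by positivity
      linarith
    have a3 : ‖z.snd‖ / ε ≤ Real.sqrt (‖z.snd‖ ^ 2 + 1 / m ^ 2) / ε := by gcongr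
    show ‖z.fst‖ + ‖z.snd‖ / ε < 1
    linarith
  · apply lt_of_pow_lt_pow_left₀ 2 (norm_nonneg _)
    linarith
  · apply lt_of_pow_lt_pow_left₀ 2 (by linarith)
    linarith

lemma KK_cpt685 {b : ℕ} (ε r₀ R₁ m : ℝ) (hε : 0 < ε) (hr₀ : 0 < r₀) (hR : r₀ < R₁) (hm : 0 < m) :
    IsCompact (KK685 b ε r₀ R₁ m) := by
  refine Metric.isCompact_of_isClosed_isBounded (KK_closed685 ε r₀ R₁ m hm) ?_
  rw [isBounded_iff_forall_norm_le]
  refine ⟨R₁ + ε, fun z hz => ?_⟩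
  obtain ⟨h1, h2, h3⟩ := KK_sub685 ε r₀ R₁ m hε hr₀ hR hm hz
  have h1' : ‖z.fst‖ + ‖z.snd‖ / ε < 1 := h1
  have h4 : ‖z.snd‖ / ε ≤ 1 := by linarith [norm_nonneg z.fst]
  rw [div_le_one hε] at h4
  have h5 : ‖z‖ ≤ ‖z.fst‖ + ‖z.snd‖ := by
    have h6 : ‖z‖ ^ 2 = ‖z.fst‖ ^ 2 + ‖z.snd‖ ^ 2 := WithLp.prod_norm_sq_eq_of_L2 z
    apply le_of_sq_le_sq _ (by positivity)
    rw [h6]
    nlinarith [norm_nonneg z.fst, norm_nonneg z.snd]
  linarith

lemma kap_rot685 {b : ℕ} (ε r₀ R₁ m : ℝ) (hm : 0 < m) (z : W b) :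
    fderiv ℝ (fun z : W b => kap685 ε r₀ R₁ m z) z (rot z) = 0 := by
  let γ : ℝ → W b := fun t => WithLp.toLp 2 (Complex.exp ((t : ℂ) * Complex.I) * z.fst, z.snd)
  have hγ0 : γ 0 = z := by
    simp only [γ, Complex.ofReal_zero, zero_mul, Complex.exp_zero, one_mul]
    rfl
  have hd : HasDerivAt γ (rot z) 0 := by
    have h1 : HasDerivAt (fun t : ℝ => Complex.exp ((t : ℂ) * Complex.I) * z.fst) (Complex.I * z.fst) 0 := by
      have h2 : HasDerivAt (fun t : ℝ => (t : ℂ) * Complex.I) Complex.I 0 := by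
        have := (Complex.ofRealCLM.hasDerivAt (x := (0 : ℝ))).mul_const Complex.I
        simpa using this
      have h3 := h2.cexp.mul_const z.fst
      simpa using h3
    have h4 : HasDerivAt (fun t : ℝ => ((Complex.exp ((t : ℂ) * Complex.I) * z.fst, z.snd) : ℂ × B b))
        (Complex.I * z.fst, 0) 0 := h1.prodMk (hasDerivAt_const _ _)
    exact ((WithLp.prodContinuousLinearEquiv 2 ℝ ℂ (B b)).symm : (ℂ × B b) →L[ℝ] W b).hasFDerivAt.comp_hasDerivAt 0 h4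
  have hk : HasFDerivAt (fun z : W b => kap685 ε r₀ R₁ m z) (fderiv ℝ (fun z : W b => kap685 ε r₀ R₁ m z) z) (γ 0) := by
    rw [hγ0]
    exact ((kap_cd685 ε r₀ R₁ m hm).differentiable (by norm_num) z).hasFDerivAt
  have h5 := hk.comp_hasDerivAt 0 hd
  have h6 : ((fun z : W b => kap685 ε r₀ R₁ m z) ∘ γ) = fun _ => kap685 ε r₀ R₁ m z := by
    ext t
    have hn : ‖(γ t).fst‖ = ‖z.fst‖ := by
      show ‖Complex.exp ((t : ℂ) * Complex.I) * z.fst‖ = ‖z.fst‖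
      rw [norm_mul, Complex.norm_exp_ofReal_mul_I, one_mul]
    have hn2 : (γ t).snd = z.snd := rfl
    simp only [Function.comp, kap685, thd685, hn, hn2]
  rw [h6] at h5
  exact h5.unique (hasDerivAt_const _ _)

lemma kap_tend685 {b : ℕ} (ε r₀ R₁ : ℝ) (hr₀ : 0 < r₀) (z : W b) (hz : z ∈ Om b ε)
    (h1 : r₀ < ‖z.fst‖) (h2 : ‖z.fst‖ < R₁) :
    Tendsto (fun m : ℕ => kap685 ε r₀ R₁ ((m : ℝ) + 1) z) atTop (𝓝 1) := by
  have hz' : ‖z.fst‖ + ‖z.snd‖ / ε < 1 := hz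
  have hT : Tendsto (fun m : ℕ => (m : ℝ) + 1) atTop atTop := tendsto_atTop_add_const_right _ _ tendsto_natCast_atTop_atTop
  have hinv : Tendsto (fun m : ℕ => 1 / ((m : ℝ) + 1) ^ 2) atTop (𝓝 0) := by
    have h3 : Tendsto (fun m : ℕ => ((m : ℝ) + 1) ^ 2) atTop atTop := (tendsto_pow_atTop (by norm_num)).comp hT
    have h4 := h3.inv_tendsto_atTop
    refine h4.congr fun m => ?_
    simp [one_div]
  have hthd : Tendsto (fun m : ℕ => thd685 ε ((m : ℝ) + 1) z) atTop (𝓝 (1 - ‖z.fst‖ - ‖z.snd‖ / ε)) := by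
    unfold thd685
    have a1 : Tendsto (fun m : ℕ => Real.sqrt (‖z.fst‖ ^ 2 + 1 / ((m : ℝ) + 1) ^ 2)) atTop (𝓝 ‖z.fst‖) := by
      have := (Real.continuous_sqrt.tendsto (‖z.fst‖ ^ 2 + 0)).comp (tendsto_const_nhds.add hinv)
      rw [add_zero, Real.sqrt_sq (norm_nonneg _)] at this
      exact this
    have a2 : Tendsto (fun m : ℕ => Real.sqrt (‖z.snd‖ ^ 2 + 1 / ((m : ℝ) + 1) ^ 2)) atTop (𝓝 ‖z.snd‖) := by
      have := (Real.continuous_sqrt.tendsto (‖z.snd‖ ^ 2 + 0)).comp (tendsto_const_nhds.add hinv)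
      rw [add_zero, Real.sqrt_sq (norm_nonneg _)] at this
      exact this
    exact (tendsto_const_nhds.sub a1).sub (a2.div_const ε)
  have hlin : ∀ f : ℕ → ℝ, ∀ c : ℝ, 0 < c → Tendsto f atTop (𝓝 c) →
      ∀ᶠ m : ℕ in atTop, 1 ≤ ((m : ℝ) + 1) * f m - 1 := by
    intro f c hc hf
    have := (hT.atTop_mul_pos hc hf).eventually_ge_atTop 2
    filter_upwards [this] with m hm
    linarith
  have e1 := hlin (fun _ => ‖z.fst‖ ^ 2 - r₀ ^ 2) (‖z.fst‖ ^ 2 - r₀ ^ 2) (by nlinarith) tendsto_const_nhds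
  have e2 := hlin (fun _ => R₁ ^ 2 - ‖z.fst‖ ^ 2) (R₁ ^ 2 - ‖z.fst‖ ^ 2) (by nlinarith [norm_nonneg z.fst]) tendsto_const_nhds
  have e3 := hlin _ _ (by linarith) hthd
  refine tendsto_const_nhds.congr' ?_
  filter_upwards [e1, e2, e3] with m m1 m2 m3
  unfold kap685
  rw [Real.smoothTransition.one_of_one_le m1, Real.smoothTransition.one_of_one_le m2, Real.smoothTransition.one_of_one_le m3]
  norm_num

/-
TARGET T4b (cut-off functions).
Plain proof. Let `p = Real.smoothTransition` (smooth, `0` on `(-∞,0]`, `1` on `[1,∞)`, values in `[0,1]`).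
For `n ≥ 1` put `X = ‖z.fst‖^2`, `Y = ‖z.snd‖^2` (smooth functions of `z`) and
`κ_n z = p (n (X - r₀^2) - 1) * p (n (R₁^2 - X) - 1) * p (n (1 - √X - √(Y + 1/n^2) / ε) - 1)`.
If `κ_n z ≠ 0` then `X ≥ r₀^2 + 1/n`, `X ≤ R₁^2 - 1/n`, `√X + √(Y+1/n^2)/ε ≤ 1 - 1/n`: this closed set is
compact and contained in `{z ∈ Om, r₀ < ‖z.fst‖ < R₁}` (so it contains `tsupport κ_n`). `√(Y + 1/n^2)` is
smooth, `√X` is smooth where `X > 0`; where `X < r₀^2 + 1/n` (an open set containing `{X = 0}`) `κ_n` is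
identically `0`, so `κ_n` is C¹ everywhere (glue: on `{X > 0}` smooth, on `{X < r₀^2+1/n}` zero). It depends only
on `X` and `Y`, whose derivatives in the direction `rot z = (i x, 0)` vanish, so `fderiv κ_n z (rot z) = 0`. For
`z ∈ Om` with `r₀ < ‖z.fst‖ < R₁` all three arguments tend to `+∞`, so `κ_n z = 1` for large `n`.
(Any other construction with the listed properties is fine.)
-/
theorem t4b {b : ℕ} {ε r₀ R₁ : ℝ} (hε : 0 < ε) (hr₀ : 0 < r₀) (hR : r₀ < R₁) (hR1 : R₁ < 1) :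
    ∃ κ : ℕ → W b → ℝ, ∀ n, ContDiff ℝ 1 (κ n) ∧ HasCompactSupport (κ n) ∧
      tsupport (κ n) ⊆ {z | z ∈ Om b ε ∧ r₀ < ‖z.fst‖ ∧ ‖z.fst‖ < R₁} ∧ (∀ z, 0 ≤ κ n z) ∧
      (∀ z, κ n z ≤ 1) ∧ (∀ z, fderiv ℝ (κ n) z (rot z) = 0) ∧
      ∀ z, z ∈ Om b ε → r₀ < ‖z.fst‖ → ‖z.fst‖ < R₁ → Tendsto (fun m => κ m z) atTop (𝓝 1) := by
  refine ⟨fun n => fun z => kap685 ε r₀ R₁ ((n : ℝ) + 1) z, fun n => ?_⟩
  have hm : (0 : ℝ) < (n : ℝ) + 1 := by positivity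
  have hsub : tsupport (fun z : W b => kap685 ε r₀ R₁ ((n : ℝ) + 1) z) ⊆ KK685 b ε r₀ R₁ ((n : ℝ) + 1) := by
    refine closure_minimal ?_ (KK_closed685 ε r₀ R₁ _ hm)
    intro z hz
    exact supp685 ε r₀ R₁ _ hm z hz
  refine ⟨kap_cd685 ε r₀ R₁ _ hm, ?_, hsub.trans (KK_sub685 ε r₀ R₁ _ hε hr₀ hR hm), ?_, ?_, ?_, ?_⟩
  · exact (KK_cpt685 ε r₀ R₁ _ hε hr₀ hR hm).of_isClosed_subset (isClosed_tsupport _) hsub
  · intro z
    exact mul_nonneg (mul_nonneg (Real.smoothTransition.nonneg _) (Real.smoothTransition.nonneg _))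
      (Real.smoothTransition.nonneg _)
  · intro z
    exact mul_le_one₀ (mul_le_one₀ (Real.smoothTransition.le_one _) (Real.smoothTransition.nonneg _)
      (Real.smoothTransition.le_one _)) (Real.smoothTransition.nonneg _) (Real.smoothTransition.le_one _)
  · intro z
    exact kap_rot685 ε r₀ R₁ _ hm z
  · intro z hz h1 h2
    exact kap_tend685 ε r₀ R₁ hr₀ z hz h1 h2


end Pool.Agent.Helper188_CS
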