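-- JOB for MP_65ff7c_an (S04892, full negative answer; finishing the starting project Pool/Agent/TH703/Cone).
-- Owner helper188. Copy the starting files Pool/Agent/TH703/Cone/*.lean from outputs/live to your Pool tree.
-- One file, one TARGET; keep the statement unchanged. Paste the full proved file back (UPDATE jobs SET result ...).
import Pool.Agent.Helper188_CS.Defs

set_option autoImplicit false

open MeasureTheory Set Metric Filter Topology
open scoped ENNReal RealInnerProductSpace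
open Pool.Agent.TH703.Cone

namespace Pool.Agent.Helper188_CS


theorem cs7_sm'_eq (t : ℝ) : sm' t = max 0 (3 * (1 - t ^ 2) / 2) := by
  unfold sm'
  split_ifs with h1 h2
  · rw [max_eq_left]; nlinarith
  · rw [max_eq_left]; nlinarith
  · push Not at h1 h2
    rw [max_eq_right]; nlinarith

theorem cs7_sm'_cont : Continuous sm' := by
  have : sm' = fun t => max 0 (3 * (1 - t ^ 2) / 2) := funext cs7_sm'_eq
  rw [this]
  fun_prop

theorem cs7_sm'_nonneg (t : ℝ) : 0 ≤ sm' t := by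
  rw [cs7_sm'_eq]
  exact le_max_left _ _

theorem cs7_int_sm' {a : ℝ} (ha : 1 ≤ a) : ∫ t in (-a)..a, sm' t = 2 := by
  have hi : ∀ c d : ℝ, IntervalIntegrable sm' volume c d :=
    fun c d => cs7_sm'_cont.intervalIntegrable c d
  have h1 : ∫ t in (-a)..(-1), sm' t = 0 := by
    rw [intervalIntegral.integral_congr (g := fun _ => (0 : ℝ))]
    · simp
    · intro t ht
      rw [Set.uIcc_of_le (by linarith)] at ht
      simp only [cs7_sm'_eq]
      rw [max_eq_left]
      nlinarith [ht.1, ht.2]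
  have h2 : ∫ t in (1 : ℝ)..a, sm' t = 0 := by
    rw [intervalIntegral.integral_congr (g := fun _ => (0 : ℝ))]
    · simp
    · intro t ht
      rw [Set.uIcc_of_le (by linarith)] at ht
      simp only [cs7_sm'_eq]
      rw [max_eq_left]
      nlinarith [ht.1, ht.2]
  have h3 : ∫ t in (-1 : ℝ)..1, sm' t = 2 := by
    have h4 : ∫ t in (-1 : ℝ)..1, sm' t = ∫ t in (-1 : ℝ)..1, (3 * (1 - t ^ 2) / 2) := by
      refine intervalIntegral.integral_congr ?_
      intro t ht
      rw [Set.uIcc_of_le (by norm_num)] at ht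
      simp only [cs7_sm'_eq]
      rw [max_eq_right]
      nlinarith [ht.1, ht.2]
    rw [h4]
    have h5 : ∀ t ∈ Set.uIcc (-1 : ℝ) 1, HasDerivAt (fun t : ℝ => (3 * t - t ^ 3) / 2)
        (3 * (1 - t ^ 2) / 2) t := by
      intro t _
      have h : HasDerivAt (fun t : ℝ => (3 * t - t ^ 3) / 2) ((3 * 1 - (3 : ℕ) * t ^ (3 - 1)) / 2) t :=
        (((hasDerivAt_id' t).const_mul 3).sub (hasDerivAt_pow 3 t)).div_const 2
      refine h.congr_deriv ?_
      push_cast
      ring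
    rw [intervalIntegral.integral_eq_sub_of_hasDerivAt h5]
    · norm_num
    · exact (by fun_prop : Continuous fun t : ℝ => 3 * (1 - t ^ 2) / 2).intervalIntegrable _ _
  rw [← intervalIntegral.integral_add_adjacent_intervals (hi (-a) (-1)) (hi (-1) a),
    ← intervalIntegral.integral_add_adjacent_intervals (hi (-1) 1) (hi 1 a), h1, h2, h3]
  norm_num

theorem cs7_theta {σ : ℝ} (hσ : 0 < σ) (hσ1 : σ ≤ 1 / 2) :
    ∫ θ in Ioo (-Real.pi) Real.pi, ({θ : ℝ | 0 < Real.cos θ}.indicator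
      (fun θ => sm' (Real.sin θ / σ) * (Real.cos θ / σ)) θ) = 2 := by
  rw [setIntegral_indicator (measurableSet_lt measurable_const Real.continuous_cos.measurable)]
  have hset : Ioo (-Real.pi) Real.pi ∩ {θ : ℝ | 0 < Real.cos θ} =
      Ioo (-(Real.pi / 2)) (Real.pi / 2) := by
    have hpi := Real.pi_pos
    ext θ
    simp only [mem_inter_iff, mem_Ioo, mem_setOf_eq]
    constructor
    · rintro ⟨⟨h1, h2⟩, h3⟩
      constructor
      · by_contra h
        push Not at h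
        have := Real.cos_nonpos_of_pi_div_two_le_of_le (x := -θ) (by linarith) (by linarith)
        rw [Real.cos_neg] at this
        linarith
      · by_contra h
        push Not at h
        have := Real.cos_nonpos_of_pi_div_two_le_of_le (x := θ) (by linarith) (by linarith)
        linarith
    · rintro ⟨h1, h2⟩
      exact ⟨⟨by linarith, by linarith⟩, Real.cos_pos_of_mem_Ioo ⟨by linarith, h2⟩⟩
  rw [hset, ← integral_Ioc_eq_integral_Ioo,
    ← intervalIntegral.integral_of_le (by linarith [Real.pi_pos])]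
  have h := intervalIntegral.integral_comp_mul_deriv (a := -(Real.pi / 2)) (b := Real.pi / 2)
    (f := fun θ => Real.sin θ / σ) (f' := fun θ => Real.cos θ / σ) (g := sm')
    (fun θ _ => (Real.hasDerivAt_sin θ).div_const σ)
    (by fun_prop) cs7_sm'_cont
  simp only [Function.comp_def, Real.sin_neg, Real.sin_pi_div_two] at h
  rw [h, neg_div]
  exact cs7_int_sm' (by rw [le_div_iff₀ hσ]; linarith)

/-- the integrand in the plane for `u = 1` -/
noncomputable def cs7_F (b : ℕ) (r₀ R₁ σ : ℝ) : ℂ → ℝ :=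
  {x : ℂ | r₀ ≤ ‖x‖ ∧ ‖x‖ ≤ R₁ ∧ 0 < x.re}.indicator
    (fun x => sm' (x.im / (σ * ‖x‖)) * (x.re / (σ * ‖x‖ ^ 2)) * (1 - ‖x‖) ^ b)

theorem cs7_mD (r₀ R₁ : ℝ) : MeasurableSet {x : ℂ | r₀ ≤ ‖x‖ ∧ ‖x‖ ≤ R₁ ∧ 0 < x.re} := by
  refine (measurableSet_le measurable_const measurable_norm).inter
    ((measurableSet_le measurable_norm measurable_const).inter
      (measurableSet_lt measurable_const Complex.measurable_re))

theorem cs7_mg (σ : ℝ) : Measurable fun x : ℂ =>
    sm' (x.im / (σ * ‖x‖)) * (x.re / (σ * ‖x‖ ^ 2)) := by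
  have := cs7_sm'_cont.measurable
  fun_prop

theorem cs7_mF (b : ℕ) (r₀ R₁ σ : ℝ) : Measurable (cs7_F b r₀ R₁ σ) := by
  unfold cs7_F
  refine Measurable.indicator ?_ (cs7_mD r₀ R₁)
  have := cs7_mg σ
  fun_prop

theorem cs7_polar {b : ℕ} {r₀ R₁ σ : ℝ} (hr₀ : 0 < r₀)
    (hR : r₀ < R₁) (hσ : 0 < σ) (hσ1 : σ ≤ 1 / 2) :
    ∫ x, cs7_F b r₀ R₁ σ x = 2 * ∫ ρ in r₀..R₁, (1 - ρ) ^ b := by
  rw [← Complex.integral_comp_polarCoord_symm, polarCoord_target]
  have h1 : ∫ p in Ioi (0 : ℝ) ×ˢ Ioo (-Real.pi) Real.pi,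
      p.1 • cs7_F b r₀ R₁ σ (Complex.polarCoord.symm p) =
      ∫ p in Ioi (0 : ℝ) ×ˢ Ioo (-Real.pi) Real.pi,
        ((Icc r₀ R₁).indicator (fun ρ => (1 - ρ) ^ b) p.1) *
        ({θ : ℝ | 0 < Real.cos θ}.indicator
          (fun θ => sm' (Real.sin θ / σ) * (Real.cos θ / σ)) p.2) := by
    refine setIntegral_congr_fun (measurableSet_Ioi.prod measurableSet_Ioo) ?_
    rintro ⟨ρ, θ⟩ ⟨hρ, -⟩
    simp only [mem_Ioi] at hρ
    simp only [Complex.polarCoord_symm_apply, smul_eq_mul]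
    have hn : ‖(ρ : ℂ) * (↑(Real.cos θ) + ↑(Real.sin θ) * Complex.I)‖ = ρ := by
      rw [norm_mul, Complex.norm_real, Real.norm_eq_abs, abs_of_pos hρ, Complex.ofReal_cos,
        Complex.ofReal_sin, Complex.norm_cos_add_sin_mul_I, mul_one]
    have hre : ((ρ : ℂ) * (↑(Real.cos θ) + ↑(Real.sin θ) * Complex.I)).re = ρ * Real.cos θ := by
      simp [-Complex.ofReal_cos, -Complex.ofReal_sin]
    have him : ((ρ : ℂ) * (↑(Real.cos θ) + ↑(Real.sin θ) * Complex.I)).im = ρ * Real.sin θ := by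
      simp [-Complex.ofReal_cos, -Complex.ofReal_sin]
    unfold cs7_F
    simp only [indicator_apply, mem_setOf_eq, hn, hre, him, mem_Icc, mul_pos_iff_of_pos_left hρ]
    by_cases h1 : r₀ ≤ ρ ∧ ρ ≤ R₁
    · by_cases h2 : 0 < Real.cos θ
      · rw [if_pos ⟨h1.1, h1.2, h2⟩, if_pos h1, if_pos h2]
        have e1 : ρ * Real.sin θ / (σ * ρ) = Real.sin θ / σ := by
          field_simp
        rw [e1]
        field_simp
      · rw [if_neg (fun h => h2 h.2.2), if_neg h2]
        simp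
    · rw [if_neg (fun h => h1 ⟨h.1, h.2.1⟩), if_neg h1]
      simp
  rw [h1, Measure.volume_eq_prod, setIntegral_prod_mul, cs7_theta hσ hσ1, mul_comm]
  congr 1
  rw [setIntegral_indicator measurableSet_Icc, intervalIntegral.integral_of_le hR.le,
    ← integral_Icc_eq_integral_Ioc]
  congr 2
  ext ρ
  simp only [mem_inter_iff, mem_Ioi, mem_Icc]
  exact ⟨fun h => h.2, fun h => ⟨by linarith [h.1], h⟩⟩

theorem cs7_rot {b : ℕ} {r₀ R₁ σ : ℝ} {u : ℂ} (hu : ‖u‖ = 1) :
    ∫ x : ℂ, cs7_F b r₀ R₁ σ (x * u) = ∫ x, cs7_F b r₀ R₁ σ x := by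
  set a : Circle := ⟨u, by simp [Submonoid.unitSphere, hu]⟩ with ha
  have h := (rotation a).measurePreserving
  have h2 := h.integral_comp (rotation a).toHomeomorph.measurableEmbedding (cs7_F b r₀ R₁ σ)
  rw [← h2]
  refine integral_congr_ae (Filter.Eventually.of_forall fun x => ?_)
  have h3 : (rotation a) x = u * x := rfl
  simp only [h3, mul_comm x u]

/-
TARGET T4c (the integral over the wedge), from T7a.
Plain proof. The integrand depends on `x = z.fst` only and is bounded and nonnegative on the set, so by `h7a`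
(apply it to `f x = ENNReal/NNReal` version of the integrand times the indicator of `{Re(xu) > 0, r₀ ≤ ‖x‖ ≤ R₁}`)
the left side is `vb * ∫ x in {Re (x u) > 0, r₀ ≤ ‖x‖ ≤ R₁}, sm'(Im(xu)/(σ‖x‖)) Re(xu)/(σ‖x‖^2) (1-‖x‖)^b`.
Multiplication by the unit number `u` preserves the measure and the norm, so one may assume `u = 1`. Polar
coordinates `x = ρ e^{iθ}`, `dx = ρ dρ dθ`: the integrand is
`sm'(sin θ / σ) cos θ / (σ ρ) (1-ρ)^b * ρ`, so the integral is
`(∫_{r₀}^{R₁} (1-ρ)^b dρ) * ∫_{-π/2}^{π/2} sm'(sin θ/σ) cos θ/σ dθ` and the last integral is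
`sm(1/σ) - sm(-1/σ) = 1 - (-1) = 2` for `σ ≤ 1`, where `sm` is the antiderivative
`sm t = -1 (t ≤ -1), (3t - t^3)/2, 1 (t ≥ 1)` of `sm'`.
-/
theorem t4c (h7a : S_T7a) {b : ℕ} {ε r₀ R₁ σ : ℝ} {u : ℂ} (hb : 1 ≤ b) (hε : 0 < ε) (hr₀ : 0 < r₀)
    (hR : r₀ < R₁) (hR1 : R₁ < 1) (hu : ‖u‖ = 1) (hσ : 0 < σ) (hσ1 : σ ≤ 1 / 2) :
    ∫ z in {z : W b | z ∈ Om b ε ∧ r₀ ≤ ‖z.fst‖ ∧ ‖z.fst‖ ≤ R₁ ∧ 0 < (z.fst * u).re},
      sm' ((z.fst * u).im / (σ * ‖z.fst‖)) * ((z.fst * u).re / (σ * ‖z.fst‖ ^ 2)) =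
    vb b ε * (2 * ∫ ρ in r₀..R₁, (1 - ρ) ^ b) := by
  have hD : MeasurableSet {x : ℂ | r₀ ≤ ‖x‖ ∧ ‖x‖ ≤ R₁ ∧ 0 < (x * u).re} := by
    refine (measurableSet_le measurable_const measurable_norm).inter
      ((measurableSet_le measurable_norm measurable_const).inter
        (measurableSet_lt measurable_const
          (Complex.measurable_re.comp (measurable_id.mul_const u))))
  have hfst : Measurable fun z : W b => z.fst := by fun_prop
  set D : Set ℂ := {x : ℂ | r₀ ≤ ‖x‖ ∧ ‖x‖ ≤ R₁ ∧ 0 < (x * u).re} with hDdef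
  set g : ℂ → ℝ := fun x => sm' ((x * u).im / (σ * ‖x‖)) * ((x * u).re / (σ * ‖x‖ ^ 2)) with hg
  have hnu : ∀ x : ℂ, ‖x * u‖ = ‖x‖ := fun x => by rw [norm_mul, hu, mul_one]
  have hgm : Measurable g := by
    have h1 := (cs7_mg σ).comp (measurable_id.mul_const u)
    have h2 : g = (fun x : ℂ => sm' (x.im / (σ * ‖x‖)) * (x.re / (σ * ‖x‖ ^ 2))) ∘
        fun x => id x * u := by
      funext x
      simp only [hg, Function.comp, id, hnu]
    rw [h2]
    exact h1
  have hgnn : ∀ x ∈ D, 0 ≤ g x := by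
    intro x hx
    have h3 : 0 < (x * u).re := hx.2.2
    exact mul_nonneg (cs7_sm'_nonneg _) (div_nonneg h3.le (by positivity))
  have hS : {z : W b | z ∈ Om b ε ∧ r₀ ≤ ‖z.fst‖ ∧ ‖z.fst‖ ≤ R₁ ∧ 0 < (z.fst * u).re} =
      (fun z : W b => z.fst) ⁻¹' D ∩ Om b ε := by
    ext z
    simp only [mem_setOf_eq, mem_inter_iff, mem_preimage, hDdef]
    tauto
  have hOm : MeasurableSet (Om b ε) := by
    unfold Om
    exact measurableSet_lt (by fun_prop) measurable_const
  rw [hS]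
  have hSm : MeasurableSet ((fun z : W b => z.fst) ⁻¹' D ∩ Om b ε) := (hfst hD).inter hOm
  have e1 : ∫ z in (fun z : W b => z.fst) ⁻¹' D ∩ Om b ε,
      sm' ((z.fst * u).im / (σ * ‖z.fst‖)) * ((z.fst * u).re / (σ * ‖z.fst‖ ^ 2)) =
      (∫⁻ z in (fun z : W b => z.fst) ⁻¹' D ∩ Om b ε, ENNReal.ofReal (g z.fst)).toReal := by
    refine integral_eq_lintegral_of_nonneg_ae ?_ (hgm.comp hfst).aestronglyMeasurable
    refine (ae_restrict_iff' hSm).2 (Filter.Eventually.of_forall fun z hz => ?_)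
    exact hgnn _ hz.1
  have e2 : ∫⁻ z in (fun z : W b => z.fst) ⁻¹' D ∩ Om b ε, ENNReal.ofReal (g z.fst) =
      ∫⁻ z in Om b ε, D.indicator (fun x => ENNReal.ofReal (g x)) z.fst := by
    rw [← lintegral_indicator hSm, ← lintegral_indicator hOm]
    refine lintegral_congr fun z => ?_
    by_cases h1 : z ∈ Om b ε
    · by_cases h2 : z.fst ∈ D
      · have h3 : z ∈ (fun z : W b => z.fst) ⁻¹' D ∩ Om b ε := ⟨h2, h1⟩
        rw [indicator_of_mem h3, indicator_of_mem h1, indicator_of_mem h2]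
      · rw [indicator_of_notMem (fun h => h2 h.1), indicator_of_mem h1, indicator_of_notMem h2]
    · rw [indicator_of_notMem (fun h => h1 h.2), indicator_of_notMem h1]
  have e3 := h7a b ε hb hε (D.indicator fun x => ENNReal.ofReal (g x))
    (hgm.ennreal_ofReal.indicator hD)
  have e4 : ∫⁻ x in ball (0 : ℂ) 1, D.indicator (fun x => ENNReal.ofReal (g x)) x *
      ENNReal.ofReal ((1 - ‖x‖) ^ b) = ∫⁻ x : ℂ, ENNReal.ofReal (cs7_F b r₀ R₁ σ (x * u)) := by
    rw [← lintegral_indicator measurableSet_ball]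
    refine lintegral_congr fun x => ?_
    unfold cs7_F
    classical
    simp only [indicator_apply, mem_ball_zero_iff, mem_setOf_eq, hnu]
    by_cases h : x ∈ D
    · have h' : r₀ ≤ ‖x‖ ∧ ‖x‖ ≤ R₁ ∧ 0 < (x * u).re := h
      rw [if_pos (lt_of_le_of_lt h'.2.1 hR1), if_pos h, if_pos h',
        ENNReal.ofReal_mul (hgnn x h)]
    · have h' : ¬ (r₀ ≤ ‖x‖ ∧ ‖x‖ ≤ R₁ ∧ 0 < (x * u).re) := h
      rw [if_neg h, if_neg h']
      simp
  have e5 : ∫ x : ℂ, cs7_F b r₀ R₁ σ (x * u) =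
      (∫⁻ x : ℂ, ENNReal.ofReal (cs7_F b r₀ R₁ σ (x * u))).toReal := by
    refine integral_eq_lintegral_of_nonneg_ae ?_
      ((cs7_mF b r₀ R₁ σ).comp (measurable_id.mul_const u)).aestronglyMeasurable
    refine Filter.Eventually.of_forall fun x => ?_
    unfold cs7_F
    refine indicator_nonneg (fun y hy => ?_) _
    have h1 : 0 < y.re := hy.2.2
    have h2 : 0 ≤ 1 - ‖y‖ := by linarith [hy.2.1]
    exact mul_nonneg (mul_nonneg (cs7_sm'_nonneg _) (div_nonneg h1.le (by positivity)))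
      (pow_nonneg h2 _)
  rw [e1, e2, e3, e4, ENNReal.toReal_mul, ← e5, cs7_rot hu, cs7_polar hr₀ hR hσ hσ1,
    ENNReal.toReal_ofReal (by unfold vb; positivity)]

end Pool.Agent.Helper188_CS
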