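-- JOB for MP_65ff7c_an (S04892, full negative answer; finishing the starting project Pool/Agent/TH703/Cone).
-- Owner helper188. Copy the starting files Pool/Agent/TH703/Cone/*.lean from outputs/live to your Pool tree.
-- One file, one TARGET; keep the statement unchanged. Paste the full proved file back (UPDATE jobs SET result ...).
import Pool.Agent.Helper188_CS.Defs

set_option autoImplicit false

open MeasureTheory Set Metric Filter Topology
open scoped ENNReal RealInnerProductSpace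
open Pool.Agent.TH703.Cone

namespace Pool.Agent.Helper188_CS








namespace J8

variable {b : ℕ}

theorem om_cont (b : ℕ) (ε : ℝ) : Continuous fun z : W b => ‖z.fst‖ + ‖z.snd‖ / ε := by
  have h1 : Continuous fun z : W b => z.fst := WithLp.continuous_fst 2 _ _
  have h2 : Continuous fun z : W b => z.snd := WithLp.continuous_snd 2 _ _
  fun_prop

theorem om_meas (b : ℕ) (ε : ℝ) : MeasurableSet (Om b ε) :=
  (isOpen_lt (om_cont b ε) continuous_const).measurableSet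

theorem fst_lt {ε : ℝ} (hε : 0 < ε) {z : W b} (hz : z ∈ Om b ε) : ‖z.fst‖ < 1 := by
  have h : ‖z.fst‖ + ‖z.snd‖ / ε < 1 := hz
  have : 0 ≤ ‖z.snd‖ / ε := by positivity
  linarith

theorem snd_lt {ε : ℝ} (hε : 0 < ε) {z : W b} (hz : z ∈ Om b ε) : ‖z.snd‖ < ε := by
  have h : ‖z.fst‖ + ‖z.snd‖ / ε < 1 := hz
  have h0 : 0 ≤ ‖z.fst‖ := norm_nonneg _
  have : ‖z.snd‖ / ε < 1 := by linarith
  rwa [div_lt_one hε] at this

theorem om_fin (b : ℕ) {ε : ℝ} (hε : 0 < ε) : volume (Om b ε) < ⊤ := by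
  have h : Bornology.IsBounded (Om b ε) := by
    refine (isBounded_iff_forall_norm_le).2 ⟨1 + ε, fun z hz => ?_⟩
    have h1 := fst_lt hε hz
    have h2 := snd_lt hε hz
    have h3 : ‖z‖ ^ 2 = ‖z.fst‖ ^ 2 + ‖z.snd‖ ^ 2 := WithLp.prod_norm_sq_eq_of_L2 z
    have h4 : 0 ≤ ‖z.fst‖ := norm_nonneg _
    have h5 : 0 ≤ ‖z.snd‖ := norm_nonneg _
    nlinarith [norm_nonneg z]
  exact h.measure_lt_top

theorem cont_fst (b : ℕ) : Continuous fun z : W b => z.fst := WithLp.continuous_fst 2 _ _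

theorem sphere_null (b : ℕ) {r : ℝ} (hr : r ≠ 0) : volume {z : W b | ‖z.fst‖ = r} = 0 := by
  have hψ : MeasurePreserving (WithLp.toLp 2 : ℂ × B b → W b) :=
    WithLp.volume_preserving_toLp ℂ (B b)
  have hm : MeasurableSet {z : W b | ‖z.fst‖ = r} :=
    (isClosed_eq (cont_fst b).norm continuous_const).measurableSet
  rw [← hψ.measure_preimage hm.nullMeasurableSet]
  have e : (WithLp.toLp 2 : ℂ × B b → W b) ⁻¹' {z : W b | ‖z.fst‖ = r} =
      sphere (0 : ℂ) r ×ˢ (univ : Set (B b)) := by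
    ext p
    simp only [mem_prod, mem_univ, and_true, mem_sphere_zero_iff_norm]
    exact Iff.rfl
  rw [e]
  show (volume.prod volume) _ = 0
  rw [Measure.prod_prod, Measure.addHaar_sphere_of_ne_zero _ _ hr, zero_mul]

theorem sm'_nonneg (t : ℝ) : 0 ≤ sm' t := by
  unfold sm'
  split_ifs with h1 h2
  · exact le_rfl
  · exact le_rfl
  · push Not at h1 h2
    have : t ^ 2 ≤ 1 := by nlinarith
    linarith

theorem sm'_le (t : ℝ) : sm' t ≤ 3 / 2 := by
  unfold sm'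
  split_ifs with h1 h2
  · norm_num
  · norm_num
  · nlinarith [sq_nonneg t]

theorem sm'_zero {t : ℝ} (h : 1 ≤ |t|) : sm' t = 0 := by
  unfold sm'
  split_ifs with h1 h2
  · rfl
  · rfl
  · exfalso
    rcases le_abs.1 h with h3 | h3
    · exact h2 h3
    · exact h1 (by linarith)

theorem sm'_meas : Measurable sm' := by
  unfold sm'
  refine Measurable.ite measurableSet_Iic measurable_const ?_
  refine Measurable.ite measurableSet_Ici measurable_const ?_
  fun_prop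

/-- the divergence without the cut-off -/
noncomputable def q (u : ℂ) (σ : ℝ) (z : W b) : ℝ :=
  sm' ((z.fst * u).im / (σ * ‖z.fst‖)) * ((z.fst * u).re / (σ * ‖z.fst‖ ^ 2))

theorem q_meas (u : ℂ) (σ : ℝ) : Measurable (q (b := b) u σ) := by
  have h1 : Measurable fun z : W b => z.fst := (cont_fst b).measurable
  unfold q
  refine Measurable.mul (sm'_meas.comp ?_) ?_
  · exact (Complex.measurable_im.comp (h1.mul_const u)).div (measurable_const.mul h1.norm)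
  · exact (Complex.measurable_re.comp (h1.mul_const u)).div
      (measurable_const.mul (h1.norm.pow_const 2))

theorem q_bound {u : ℂ} {σ r₀ : ℝ} (hu : ‖u‖ = 1) (hσ : 0 < σ) (hr : 0 < r₀) {z : W b}
    (hz : r₀ ≤ ‖z.fst‖) : |q u σ z| ≤ 3 / (2 * σ * r₀) := by
  have hx : 0 < ‖z.fst‖ := hr.trans_le hz
  unfold q
  rw [abs_mul, abs_of_nonneg (sm'_nonneg _)]
  have h1 : |(z.fst * u).re / (σ * ‖z.fst‖ ^ 2)| ≤ 1 / (σ * r₀) := by
    rw [abs_div, abs_of_pos (by positivity : 0 < σ * ‖z.fst‖ ^ 2)]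
    have h2 : |(z.fst * u).re| ≤ ‖z.fst‖ := by
      refine (Complex.abs_re_le_norm _).trans ?_
      rw [norm_mul, hu, mul_one]
    rw [div_le_div_iff₀ (by positivity) (by positivity)]
    calc |(z.fst * u).re| * (σ * r₀) ≤ ‖z.fst‖ * (σ * ‖z.fst‖) := by gcongr
      _ = 1 * (σ * ‖z.fst‖ ^ 2) := by ring
  calc sm' ((z.fst * u).im / (σ * ‖z.fst‖)) * |(z.fst * u).re / (σ * ‖z.fst‖ ^ 2)|
      ≤ 3 / 2 * (1 / (σ * r₀)) := by
        gcongr
        exact sm'_le _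
    _ = 3 / (2 * σ * r₀) := by field_simp

theorem q_ne {u : ℂ} {σ r₀ R₁ : ℝ} (hσ : 0 < σ) (hr : 0 < r₀) {z : W b}
    (hz : r₀ ≤ ‖z.fst‖) (hz' : ‖z.fst‖ ≤ R₁) (hq : q u σ z ≠ 0) :
    (z.fst ∈ Wp u σ r₀ R₁ ∧ 0 < (z.fst * u).re ∧ 0 ≤ q u σ z) ∨
      (-z.fst ∈ Wp u σ r₀ R₁ ∧ (z.fst * u).re < 0 ∧ q u σ z ≤ 0) := by
  have hx : 0 < ‖z.fst‖ := hr.trans_le hz
  have h1 : sm' ((z.fst * u).im / (σ * ‖z.fst‖)) ≠ 0 := fun h => hq (by unfold q; rw [h, zero_mul])
  have h2 : |(z.fst * u).im| ≤ σ * ‖z.fst‖ := by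
    by_contra hcon
    push Not at hcon
    refine h1 (sm'_zero ?_)
    rw [abs_div, abs_of_pos (by positivity : 0 < σ * ‖z.fst‖), one_le_div (by positivity)]
    exact hcon.le
  have h3 : (z.fst * u).re ≠ 0 := fun h => hq (by unfold q; rw [h, zero_div, mul_zero])
  rcases lt_or_gt_of_ne h3 with h | h
  · right
    refine ⟨⟨?_, ?_, ?_, ?_⟩, h, ?_⟩
    · rwa [norm_neg]
    · rwa [norm_neg]
    · rw [neg_mul, Complex.neg_re]
      linarith
    · rw [neg_mul, Complex.neg_im, abs_neg, norm_neg]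
      exact h2
    · exact mul_nonpos_of_nonneg_of_nonpos (sm'_nonneg _)
        (div_nonpos_of_nonpos_of_nonneg h.le (by positivity))
  · left
    exact ⟨⟨hz, hz', h, h2⟩, h, mul_nonneg (sm'_nonneg _) (div_nonneg h.le (by positivity))⟩

theorem wp_meas (u : ℂ) (σ r₀ R₁ : ℝ) : MeasurableSet (Wp u σ r₀ R₁) := by
  have h1 : MeasurableSet {x : ℂ | r₀ ≤ ‖x‖} := measurableSet_le measurable_const measurable_norm
  have h2 : MeasurableSet {x : ℂ | ‖x‖ ≤ R₁} := measurableSet_le measurable_norm measurable_const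
  have h3 : MeasurableSet {x : ℂ | 0 < (x * u).re} :=
    measurableSet_lt measurable_const (Complex.measurable_re.comp (measurable_id.mul_const u))
  have h4 : MeasurableSet {x : ℂ | |(x * u).im| ≤ σ * ‖x‖} :=
    measurableSet_le (continuous_abs.measurable.comp
      (Complex.measurable_im.comp (measurable_id.mul_const u))) (measurable_norm.const_mul σ)
  exact h1.inter (h2.inter (h3.inter h4))

/-- half of the shell -/
def Sp (b : ℕ) (ε r₀ R₁ : ℝ) (u : ℂ) : Set (W b) :=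
  {z : W b | z ∈ Om b ε ∧ r₀ ≤ ‖z.fst‖ ∧ ‖z.fst‖ ≤ R₁ ∧ 0 < (z.fst * u).re}

theorem sp_meas (b : ℕ) (ε r₀ R₁ : ℝ) (u : ℂ) : MeasurableSet (Sp b ε r₀ R₁ u) := by
  have h1 : Measurable fun z : W b => z.fst := (cont_fst b).measurable
  exact (om_meas b ε).inter ((measurableSet_le measurable_const h1.norm).inter
    ((measurableSet_le h1.norm measurable_const).inter
      (measurableSet_lt measurable_const (Complex.measurable_re.comp (h1.mul_const u)))))

theorem pointwise {ε r₀ R₁ σ : ℝ} {u : ℂ} (hu : ‖u‖ = 1) (hσ : 0 < σ) (hr : 0 < r₀)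
    (A : Set (W b)) (κ : W b → ℝ)
    (hκs : ∀ z, κ z ≠ 0 → z ∈ Om b ε ∧ r₀ < ‖z.fst‖ ∧ ‖z.fst‖ < R₁)
    (hκ0 : ∀ z, 0 ≤ κ z) (hκ1 : ∀ z, κ z ≤ 1) (z : W b) :
    (Sp b ε r₀ R₁ u).indicator (fun z => κ z * q u σ z) z
      - {z : W b | z ∈ Om b ε \ A ∧ z.fst ∈ Wp u σ r₀ R₁}.indicator
          (fun _ => 3 / (2 * σ * r₀)) z
      - {z : W b | z ∈ A ∧ -z.fst ∈ Wp u σ r₀ R₁}.indicator (fun _ => 3 / (2 * σ * r₀)) z ≤
      A.indicator (fun z => κ z * q u σ z) z := by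
  have hC : (0 : ℝ) ≤ 3 / (2 * σ * r₀) := by positivity
  have i1 : 0 ≤ {z : W b | z ∈ Om b ε \ A ∧ z.fst ∈ Wp u σ r₀ R₁}.indicator
      (fun _ => 3 / (2 * σ * r₀)) z := indicator_nonneg (fun _ _ => hC) z
  have i2 : 0 ≤ {z : W b | z ∈ A ∧ -z.fst ∈ Wp u σ r₀ R₁}.indicator
      (fun _ => 3 / (2 * σ * r₀)) z := indicator_nonneg (fun _ _ => hC) z
  by_cases h0 : κ z * q u σ z = 0
  · have e1 : (Sp b ε r₀ R₁ u).indicator (fun z => κ z * q u σ z) z = 0 := by
      by_cases h : z ∈ Sp b ε r₀ R₁ u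
      · rw [indicator_of_mem h, h0]
      · rw [indicator_of_notMem h]
    have e2 : A.indicator (fun z => κ z * q u σ z) z = 0 := by
      by_cases h : z ∈ A
      · rw [indicator_of_mem h, h0]
      · rw [indicator_of_notMem h]
    rw [e1, e2]
    linarith
  · have hκ : κ z ≠ 0 := left_ne_zero_of_mul h0
    have hq : q u σ z ≠ 0 := right_ne_zero_of_mul h0
    obtain ⟨hO, hl, hR⟩ := hκs z hκ
    have hb := abs_le.1 (q_bound (z := z) hu hσ hr hl.le)
    have hk0 := hκ0 z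
    have hk1 := hκ1 z
    rcases q_ne hσ hr hl.le hR.le hq with ⟨hw, hre, hq0⟩ | ⟨hw, hre, hq0⟩
    · have hS : z ∈ Sp b ε r₀ R₁ u := ⟨hO, hl.le, hR.le, hre⟩
      rw [indicator_of_mem hS]
      by_cases hA : z ∈ A
      · rw [indicator_of_mem hA]
        linarith
      · have hT : z ∈ {z : W b | z ∈ Om b ε \ A ∧ z.fst ∈ Wp u σ r₀ R₁} := ⟨⟨hO, hA⟩, hw⟩
        rw [indicator_of_mem hT, indicator_of_notMem hA]
        have : κ z * q u σ z ≤ 1 * (3 / (2 * σ * r₀)) := by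
          apply mul_le_mul hk1 hb.2 hq0 (by norm_num)
        linarith
    · have hS : z ∉ Sp b ε r₀ R₁ u := fun h => by
        have := h.2.2.2
        linarith
      rw [indicator_of_notMem hS]
      by_cases hA : z ∈ A
      · have hT : z ∈ {z : W b | z ∈ A ∧ -z.fst ∈ Wp u σ r₀ R₁} := ⟨hA, hw⟩
        rw [indicator_of_mem hT, indicator_of_mem hA]
        have : κ z * (-q u σ z) ≤ 1 * (3 / (2 * σ * r₀)) := by
          apply mul_le_mul hk1 (by linarith [hb.1]) (by linarith) (by norm_num)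
        linarith
      · rw [indicator_of_notMem hA]
        linarith

end J8

/-
TARGET T4d: the bound S_T4 (statement in Pool/Agent/TH703/Cone/Stm.lean) from the three given facts and T7a.
Plain proof. Write `q x = sm'(Im(xu)/(σ‖x‖)) * Re(xu)/(σ‖x‖^2)`. On `r₀ ≤ ‖x‖`: `|q x| ≤ C := 3/(2 σ r₀)`
(`0 ≤ sm' ≤ 3/2`, `|Re(xu)| ≤ ‖x‖`), `q x = 0` unless `|Im(xu)| ≤ σ‖x‖`, and `q` has the sign of `Re(xu)`
(if `Re(xu) = 0` then `q x = 0`). So on `S = {z ∈ Om, r₀ ≤ ‖x‖ ≤ R₁}`, `q x ≠ 0` implies `x ∈ Wp u σ r₀ R₁` (then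
`q ≥ 0`) or `-x ∈ Wp u σ r₀ R₁` (then `q ≤ 0`). Take `κ_n` from G4b and the test fields `fld κ_n u σ` (G4a):
`P ≥ ∫_A dv = ∫_A κ_n q ≥ ∫_{z ∈ Om, r₀≤‖x‖≤R₁, Re(xu)>0} κ_n q - C * vol{z ∈ Om \ A, x ∈ Wp} - C * vol{z ∈ A, -x ∈ Wp}`.
As `n → ∞` the first integral tends to `∫_{…} q` by dominated convergence (bounded by `C` on a set of finite measure;
`κ_n → 1` except where `‖x‖ = r₀` or `‖x‖ = R₁`, a null set: by `h7a` the volume of `{z ∈ Om, ‖z.fst‖ = r₀}` is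
`vb` times an integral over a circle, which is a null set, `Measure.addHaar_sphere`), and this is
`vb * (2 ∫ ρ in r₀..R₁, (1-ρ)^b)` by G4c. Note `volume (Om b ε) < ⊤` (bounded set).
-/
theorem t4d (h7a : S_T7a) (g4a : G4a) (g4b : G4b) (g4c : G4c) : S_T4 := by
  intro b ε P A u σ r₀ R₁ hb hε hA hAΩ hP hu hσ hσ2 hr₀ hrR hR₁
  obtain ⟨κ, hκ⟩ := g4b b ε r₀ R₁ hε hr₀ hrR hR₁
  have hfin := J8.om_fin b hε
  have hC : (0 : ℝ) ≤ 3 / (2 * σ * r₀) := by positivity
  have hsupp : ∀ n z, κ n z ≠ 0 → z ∈ Om b ε ∧ r₀ < ‖z.fst‖ ∧ ‖z.fst‖ < R₁ := fun n z hz =>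
    (hκ n).2.2.1 (subset_tsupport _ hz)
  have h1m : Measurable fun z : W b => z.fst := (J8.cont_fst b).measurable
  have hT1 : MeasurableSet {z : W b | z ∈ Om b ε \ A ∧ z.fst ∈ Wp u σ r₀ R₁} :=
    ((J8.om_meas b ε).diff hA).inter (h1m (J8.wp_meas u σ r₀ R₁))
  have hT2 : MeasurableSet {z : W b | z ∈ A ∧ -z.fst ∈ Wp u σ r₀ R₁} :=
    hA.inter (h1m.neg (J8.wp_meas u σ r₀ R₁))
  have hT1f : volume {z : W b | z ∈ Om b ε \ A ∧ z.fst ∈ Wp u σ r₀ R₁} ≠ ⊤ :=
    ((measure_mono fun z hz => hz.1.1).trans_lt hfin).ne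
  have hT2f : volume {z : W b | z ∈ A ∧ -z.fst ∈ Wp u σ r₀ R₁} ≠ ⊤ :=
    ((measure_mono fun z hz => hAΩ hz.1).trans_lt hfin).ne
  have hmeas : ∀ n, Measurable fun z : W b => κ n z * J8.q u σ z := fun n =>
    (hκ n).1.continuous.measurable.mul (J8.q_meas u σ)
  have hbd : ∀ n z, |κ n z * J8.q u σ z| ≤ 3 / (2 * σ * r₀) := by
    intro n z
    by_cases h : κ n z = 0
    · rw [h, zero_mul, abs_zero]
      exact hC
    · have h1 := hsupp n z h
      rw [abs_mul, abs_of_nonneg ((hκ n).2.2.2.1 z)]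
      calc κ n z * |J8.q u σ z| ≤ 1 * (3 / (2 * σ * r₀)) :=
            mul_le_mul ((hκ n).2.2.2.2.1 z) (J8.q_bound hu hσ hr₀ h1.2.1.le) (abs_nonneg _)
              (by norm_num)
        _ = _ := one_mul _
  have hint : ∀ n, Integrable fun z : W b => κ n z * J8.q u σ z := by
    intro n
    have h1 : Integrable ((Om b ε).indicator fun _ : W b => 3 / (2 * σ * r₀)) :=
      (integrable_indicator_iff (J8.om_meas b ε)).2 (integrableOn_const hfin.ne)
    refine h1.mono (hmeas n).aestronglyMeasurable (Eventually.of_forall fun z => ?_)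
    by_cases h : κ n z = 0
    · rw [h, zero_mul, norm_zero]
      exact norm_nonneg _
    · rw [indicator_of_mem (hsupp n z h).1, Real.norm_eq_abs, Real.norm_eq_abs, abs_of_nonneg hC]
      exact hbd n z
  have hstep : ∀ n, ∫ z in J8.Sp b ε r₀ R₁ u, κ n z * J8.q u σ z ≤ P + 3 / (2 * σ * r₀) *
      (volume.real {z : W b | z ∈ Om b ε \ A ∧ z.fst ∈ Wp u σ r₀ R₁} +
        volume.real {z : W b | z ∈ A ∧ -z.fst ∈ Wp u σ r₀ R₁}) := by
    intro n
    obtain ⟨k1, k2, k3, k4, k5, k6, k7⟩ := hκ n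
    obtain ⟨t1, t2⟩ := g4a b ε (κ n) k1 k2 (fun z hz => ⟨(k3 hz).1, by
      have := (k3 hz).2.1
      intro h0
      rw [h0, norm_zero] at this
      linarith⟩) k4 k5 k6 u hu σ hσ
    have h1 : ∫ z in A, κ n z * J8.q u σ z ≤ P := by
      refine le_trans (le_of_eq ?_) (hP _ t1)
      exact setIntegral_congr_fun hA fun z _ => (t2 z).symm
    have i0 : Integrable ((J8.Sp b ε r₀ R₁ u).indicator fun z => κ n z * J8.q u σ z) :=
      (hint n).indicator (J8.sp_meas b ε r₀ R₁ u)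
    have i1 : Integrable ({z : W b | z ∈ Om b ε \ A ∧ z.fst ∈ Wp u σ r₀ R₁}.indicator
        fun _ => 3 / (2 * σ * r₀)) :=
      (integrable_indicator_iff hT1).2 (integrableOn_const hT1f)
    have i2 : Integrable ({z : W b | z ∈ A ∧ -z.fst ∈ Wp u σ r₀ R₁}.indicator
        fun _ => 3 / (2 * σ * r₀)) :=
      (integrable_indicator_iff hT2).2 (integrableOn_const hT2f)
    have h2 := integral_mono ((i0.sub i1).sub i2) ((hint n).indicator hA)
      (J8.pointwise hu hσ hr₀ A (κ n) (hsupp n) k4 k5)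
    have e1 : ∫ z, (((J8.Sp b ε r₀ R₁ u).indicator fun z => κ n z * J8.q u σ z) -
        ({z : W b | z ∈ Om b ε \ A ∧ z.fst ∈ Wp u σ r₀ R₁}.indicator
          fun _ => 3 / (2 * σ * r₀)) -
        ({z : W b | z ∈ A ∧ -z.fst ∈ Wp u σ r₀ R₁}.indicator fun _ => 3 / (2 * σ * r₀))) z =
        (∫ z in J8.Sp b ε r₀ R₁ u, κ n z * J8.q u σ z)
        - volume.real {z : W b | z ∈ Om b ε \ A ∧ z.fst ∈ Wp u σ r₀ R₁} * (3 / (2 * σ * r₀))
        - volume.real {z : W b | z ∈ A ∧ -z.fst ∈ Wp u σ r₀ R₁} * (3 / (2 * σ * r₀)) := by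
      rw [integral_sub' (i0.sub i1) i2, integral_sub' i0 i1,
        integral_indicator (J8.sp_meas b ε r₀ R₁ u), integral_indicator hT1,
        integral_indicator hT2, setIntegral_const, setIntegral_const, smul_eq_mul, smul_eq_mul]
    have e2 : ∫ z, A.indicator (fun z => κ n z * J8.q u σ z) z = ∫ z in A, κ n z * J8.q u σ z :=
      integral_indicator hA
    have h3 : (∫ z in J8.Sp b ε r₀ R₁ u, κ n z * J8.q u σ z)
        - volume.real {z : W b | z ∈ Om b ε \ A ∧ z.fst ∈ Wp u σ r₀ R₁} * (3 / (2 * σ * r₀))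
        - volume.real {z : W b | z ∈ A ∧ -z.fst ∈ Wp u σ r₀ R₁} * (3 / (2 * σ * r₀)) ≤
        ∫ z in A, κ n z * J8.q u σ z := by
      rw [← e1, ← e2]
      exact h2
    linarith
  have hlim : Tendsto (fun n => ∫ z in J8.Sp b ε r₀ R₁ u, κ n z * J8.q u σ z) atTop
      (𝓝 (∫ z in J8.Sp b ε r₀ R₁ u, J8.q u σ z)) := by
    refine tendsto_integral_of_dominated_convergence (fun _ => 3 / (2 * σ * r₀))
      (fun n => (hmeas n).aestronglyMeasurable) ?_ (fun n => Eventually.of_forall fun z => ?_) ?_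
    · exact integrableOn_const ((measure_mono fun z hz => hz.1).trans_lt hfin).ne
    · rw [Real.norm_eq_abs]
      exact hbd n z
    · rw [ae_restrict_iff' (J8.sp_meas b ε r₀ R₁ u)]
      have n1 : ∀ᵐ z : W b, ‖z.fst‖ ≠ r₀ := by
        rw [ae_iff]
        simpa using J8.sphere_null b hr₀.ne'
      have n2 : ∀ᵐ z : W b, ‖z.fst‖ ≠ R₁ := by
        rw [ae_iff]
        simpa using J8.sphere_null b (hr₀.trans hrR).ne'
      filter_upwards [n1, n2] with z hz1 hz2 hz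
      have h1 := (hκ 0).2.2.2.2.2.2 z hz.1 (lt_of_le_of_ne hz.2.1 (Ne.symm hz1))
        (lt_of_le_of_ne hz.2.2.1 hz2)
      simpa using h1.mul_const (J8.q u σ z)
  have h4 := g4c b ε r₀ R₁ σ u hb hε hr₀ hrR hR₁ hu hσ hσ2
  have h5 : ∫ z in J8.Sp b ε r₀ R₁ u, J8.q u σ z = vb b ε * (2 * ∫ ρ in r₀..R₁, (1 - ρ) ^ b) := h4
  rw [← h5]
  exact le_of_tendsto' hlim hstep

end Pool.Agent.Helper188_CS
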