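import Pool.Agent.Helper188_CS.Defs

set_option autoImplicit false

open MeasureTheory Set Metric Filter Topology
open scoped ENNReal RealInnerProductSpace
open Pool.Agent.TH703.Cone

namespace Pool.Agent.Helper188_CS


/-- slab bound: a slab of width `R / N` in the ball of radius `R` has at most the `N`-th part of the
volume of the ball of radius `2 R` -/
lemma slab_le {E : Type} [NormedAddCommGroup E] [InnerProductSpace ℝ E] [FiniteDimensional ℝ E]
    [MeasurableSpace E] [BorelSpace E] (R : ℝ) (hR : 0 < R) (N : ℕ) (hN : 0 < N) (w : E)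
    (hw : ‖w‖ = 1) (τ : ℝ) :
    (N : ℝ≥0∞) * volume {z : E | z ∈ ball (0 : E) R ∧ τ - R / N < ⟪z, w⟫ ∧ ⟪z, w⟫ < τ} ≤
      volume (ball (0 : E) (2 * R)) := by
  have hN' : (0 : ℝ) < N := by exact_mod_cast hN
  set s : ℝ := R / N with hs
  have hs0 : 0 < s := div_pos hR hN'
  set T : Set E := {z : E | z ∈ ball (0 : E) R ∧ τ - s < ⟪z, w⟫ ∧ ⟪z, w⟫ < τ} with hT
  have hTm : MeasurableSet T := by
    have h1 : IsOpen T := by
      have : T = ball (0 : E) R ∩ ({z : E | τ - s < ⟪z, w⟫} ∩ {z : E | ⟪z, w⟫ < τ}) := by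
        ext z; simp [hT]
      rw [this]
      refine isOpen_ball.inter ((isOpen_lt ?_ ?_).inter (isOpen_lt ?_ ?_))
      all_goals fun_prop
    exact h1.measurableSet
  let F : ℕ → Set E := fun k => (fun z : E => (-((k : ℝ) * s)) • w + z) ⁻¹' T
  have hFm : ∀ k, MeasurableSet (F k) := fun k =>
    (measurable_const_add _) hTm
  have hFv : ∀ k, volume (F k) = volume T := fun k => measure_preimage_add _ _ _
  have hww : ⟪w, w⟫ = (1 : ℝ) := by rw [real_inner_self_eq_norm_sq, hw]; norm_num
  have hFi : ∀ k z, z ∈ F k → τ - s + k * s < ⟪z, w⟫ ∧ ⟪z, w⟫ < τ + k * s := by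
    intro k z hz
    have hz' : (-((k : ℝ) * s)) • w + z ∈ T := hz
    obtain ⟨-, h1, h2⟩ := hz'
    rw [inner_add_left, inner_smul_left, hww] at h1 h2
    simp only [RCLike.conj_to_real] at h1 h2
    constructor <;> linarith
  have hdisj : ((Finset.range N : Finset ℕ) : Set ℕ).PairwiseDisjoint F := by
    intro i _ j _ hij
    refine Set.disjoint_left.2 fun z hzi hzj => ?_
    obtain ⟨a1, a2⟩ := hFi i z hzi
    obtain ⟨b1, b2⟩ := hFi j z hzj
    rcases lt_or_gt_of_ne hij with h | h
    · have : (i : ℝ) + 1 ≤ j := by exact_mod_cast h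
      nlinarith
    · have : (j : ℝ) + 1 ≤ i := by exact_mod_cast h
      nlinarith
  have hsub : (⋃ k ∈ Finset.range N, F k) ⊆ ball (0 : E) (2 * R) := by
    intro z hz
    simp only [mem_iUnion] at hz
    obtain ⟨k, hk, hz⟩ := hz
    have hz' : (-((k : ℝ) * s)) • w + z ∈ T := hz
    have h1 : ‖(-((k : ℝ) * s)) • w + z‖ < R := by
      have := hz'.1
      simpa [mem_ball_zero_iff] using this
    have h2 : ‖((k : ℝ) * s) • w‖ ≤ R := by
      rw [norm_smul, hw, mul_one, Real.norm_eq_abs, abs_of_nonneg (by positivity)]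
      have hk' : (k : ℝ) ≤ N := by
        have := Finset.mem_range.1 hk
        exact_mod_cast this.le
      calc (k : ℝ) * s ≤ N * s := mul_le_mul_of_nonneg_right hk' hs0.le
        _ = R := by rw [hs]; field_simp
    rw [mem_ball_zero_iff]
    have h3 : z = ((k : ℝ) * s) • w + ((-((k : ℝ) * s)) • w + z) := by
      rw [← add_assoc, neg_smul, add_neg_cancel, zero_add]
    calc ‖z‖ = ‖((k : ℝ) * s) • w + ((-((k : ℝ) * s)) • w + z)‖ := by rw [← h3]
      _ ≤ ‖((k : ℝ) * s) • w‖ + ‖(-((k : ℝ) * s)) • w + z‖ := norm_add_le _ _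
      _ < 2 * R := by linarith
  calc (N : ℝ≥0∞) * volume T = ∑ k ∈ Finset.range N, volume (F k) := by
        rw [Finset.sum_congr rfl (fun k _ => hFv k)]; simp
    _ = volume (⋃ k ∈ Finset.range N, F k) :=
        (measure_biUnion_finset hdisj (fun k _ => hFm k)).symm
    _ ≤ volume (ball (0 : E) (2 * R)) := measure_mono hsub

theorem bb (E : Type) [NormedAddCommGroup E] [InnerProductSpace ℝ E] [FiniteDimensional ℝ E]
    [MeasurableSpace E] [BorelSpace E] : S_BB E := by
  intro R v₀ hR hv₀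
  set B : ℝ≥0∞ := volume (ball (0 : E) (2 * R)) with hB
  have hBfin : B ≠ ∞ := (measure_ball_lt_top).ne
  -- choose N with B < N * (v₀/2)
  obtain ⟨N, hN⟩ := exists_nat_gt (B.toReal / (v₀ / 2))
  have hNpos : (0 : ℝ) < N := lt_of_le_of_lt (by positivity) hN
  have hN0 : 0 < N := by exact_mod_cast hNpos
  refine ⟨R / N / 2, by positivity, ?_⟩
  intro H hHc hHo hHR hHv p hp
  by_contra hpH
  set m : E := ⨍ z in H, z with hm
  have hHfin : volume H ≠ ∞ := ((measure_mono hHR).trans_lt measure_ball_lt_top).ne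
  have hHne : H.Nonempty := by
    rw [nonempty_iff_ne_empty]
    rintro rfl
    rw [measure_empty] at hHv
    have : 0 < ENNReal.ofReal v₀ := ENNReal.ofReal_pos.2 hv₀
    exact absurd hHv (not_le.2 this)
  have hHpos : 0 < (volume H).toReal := by
    have h1 : (ENNReal.ofReal v₀).toReal ≤ (volume H).toReal := ENNReal.toReal_mono hHfin hHv
    rw [ENNReal.toReal_ofReal hv₀.le] at h1
    linarith
  have hHv' : v₀ ≤ (volume H).toReal := by
    have h1 : (ENNReal.ofReal v₀).toReal ≤ (volume H).toReal := ENNReal.toReal_mono hHfin hHv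
    rwa [ENNReal.toReal_ofReal hv₀.le] at h1
  obtain ⟨f, hf⟩ := geometric_hahn_banach_open_point hHc hHo hpH
  set v : E := (InnerProductSpace.toDual ℝ E).symm f with hv
  have hfv : ∀ z, f z = ⟪v, z⟫ := fun z => by
    rw [hv, InnerProductSpace.toDual_symm_apply]
  have hvne : v ≠ 0 := by
    intro h0
    obtain ⟨a, ha⟩ := hHne
    have := hf a ha
    rw [hfv, hfv, h0, inner_zero_left, inner_zero_left] at this
    exact lt_irrefl _ this
  have hvn : 0 < ‖v‖ := norm_pos_iff.2 hvne
  set w : E := ‖v‖⁻¹ • v with hw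
  have hw1 : ‖w‖ = 1 := by
    rw [hw, norm_smul, norm_inv, norm_norm, inv_mul_cancel₀ hvn.ne']
  have hwlt : ∀ z ∈ H, ⟪z, w⟫ < ⟪p, w⟫ := by
    intro z hz
    have := hf z hz
    rw [hfv, hfv] at this
    rw [hw, inner_smul_right, inner_smul_right, real_inner_comm v z, real_inner_comm v p]
    exact mul_lt_mul_of_pos_left this (inv_pos.2 hvn)
  -- the function ξ
  let ξ : E → ℝ := fun z => ⟪p, w⟫ - ⟪z, w⟫
  have hIid : IntegrableOn (fun z : E => z) H := by
    refine Measure.integrableOn_of_bounded (M := R) hHfin ?_ ?_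
    · exact aestronglyMeasurable_id
    · refine (ae_restrict_iff' hHo.measurableSet).2 (Eventually.of_forall fun z hz => ?_)
      have := hHR hz
      rw [mem_ball_zero_iff] at this
      exact this.le
  have hIin : IntegrableOn (fun z : E => ⟪z, w⟫) H := hIid.inner_const w
  have hIξ : IntegrableOn ξ H := by
    refine Integrable.sub ?_ hIin
    exact integrableOn_const hHfin
  have hmi : ⟪m, w⟫ * (volume H).toReal = ∫ z in H, ⟪z, w⟫ := by
    have h1 : ∫ z in H, ⟪z, w⟫ = ⟪∫ z in H, z, w⟫ := by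
      have := ContinuousLinearMap.integral_comp_comm (innerSL ℝ w) hIid
      simp only [innerSL_apply_apply] at this
      rw [real_inner_comm, ← this]
      refine integral_congr_ae (Eventually.of_forall fun z => ?_)
      exact real_inner_comm _ _
    rw [h1, hm, setAverage_eq, inner_smul_left]
    simp only [RCLike.conj_to_real, Measure.real]
    field_simp
  have hξi : ∫ z in H, ξ z = ⟪p - m, w⟫ * (volume H).toReal := by
    have : ∫ z in H, ξ z = (∫ z in H, ⟪p, w⟫) - ∫ z in H, ⟪z, w⟫ :=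
      integral_sub (integrableOn_const hHfin) hIin
    rw [this, ← hmi, setIntegral_const, inner_sub_left, smul_eq_mul, Measure.real]
    ring
  have hpm : ⟪p - m, w⟫ < R / N / 2 := by
    calc ⟪p - m, w⟫ ≤ ‖p - m‖ * ‖w‖ := real_inner_le_norm _ _
      _ = dist p m := by rw [hw1, mul_one, dist_eq_norm]
      _ < R / N / 2 := hp
  -- Markov
  have hRN : 0 < R / N := div_pos hR hNpos
  have hmark : (R / N) * (volume.restrict H).real {z | R / N ≤ ξ z} ≤ ∫ z in H, ξ z := by
    refine mul_meas_ge_le_integral_of_nonneg ?_ hIξ _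
    refine (ae_restrict_iff' hHo.measurableSet).2 (Eventually.of_forall fun z hz => ?_)
    have := hwlt z hz
    show (0 : ℝ) ≤ ⟪p, w⟫ - ⟪z, w⟫
    linarith
  have hset : MeasurableSet {z : E | R / N ≤ ξ z} := by
    refine IsClosed.measurableSet (isClosed_le continuous_const ?_)
    show Continuous fun z : E => ⟪p, w⟫ - ⟪z, w⟫
    fun_prop
  have hA : (volume.restrict H).real {z | R / N ≤ ξ z} ≤ (volume H).toReal / 2 := by
    rw [hξi] at hmark
    have h1 : ⟪p - m, w⟫ * (volume H).toReal ≤ (R / N / 2) * (volume H).toReal :=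
      mul_le_mul_of_nonneg_right hpm.le hHpos.le
    have h2 : (R / N) * (volume.restrict H).real {z | R / N ≤ ξ z} ≤
        (R / N) * ((volume H).toReal / 2) := by linarith
    exact le_of_mul_le_mul_left h2 hRN
  -- the slab
  set T : Set E := {z : E | z ∈ ball (0 : E) R ∧ ⟪p, w⟫ - R / N < ⟪z, w⟫ ∧ ⟪z, w⟫ < ⟪p, w⟫} with hT
  have hTle := slab_le R hR N hN0 w hw1 ⟪p, w⟫
  have hTfin : volume T ≠ ∞ := by
    refine ((measure_mono (fun z hz => hz.1)).trans_lt (measure_ball_lt_top (x := (0 : E)) (r := R))).ne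
  have hcov : H ⊆ T ∪ ({z | R / N ≤ ξ z} ∩ H) := by
    intro z hz
    by_cases h : R / N ≤ ξ z
    · exact Or.inr ⟨h, hz⟩
    · left
      have h' : ⟪p, w⟫ - ⟪z, w⟫ < R / N := not_le.1 h
      exact ⟨hHR hz, by linarith, hwlt z hz⟩
  have h3 : (volume H).toReal ≤ (volume T).toReal + (volume H).toReal / 2 := by
    have h4 : volume H ≤ volume T + volume ({z | R / N ≤ ξ z} ∩ H) :=
      (measure_mono hcov).trans (measure_union_le _ _)
    have h5 : volume ({z | R / N ≤ ξ z} ∩ H) ≠ ∞ :=
      ((measure_mono inter_subset_right).trans_lt (lt_top_iff_ne_top.2 hHfin)).ne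
    have h6 : (volume H).toReal ≤ (volume T).toReal + (volume ({z | R / N ≤ ξ z} ∩ H)).toReal := by
      rw [← ENNReal.toReal_add hTfin h5]
      exact ENNReal.toReal_mono (ENNReal.add_ne_top.2 ⟨hTfin, h5⟩) h4
    have h7 : (volume ({z | R / N ≤ ξ z} ∩ H)).toReal = (volume.restrict H).real {z | R / N ≤ ξ z} := by
      rw [Measure.real, Measure.restrict_apply hset]
    rw [h7] at h6
    linarith
  have h8 : (N : ℝ) * (volume T).toReal ≤ B.toReal := by
    have := ENNReal.toReal_mono hBfin hTle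
    rwa [ENNReal.toReal_mul, ENNReal.toReal_natCast] at this
  have h9 : B.toReal < N * (v₀ / 2) := by
    rwa [div_lt_iff₀ (by positivity)] at hN
  have h10 : v₀ / 2 ≤ (volume T).toReal := by linarith
  have h11 : (N : ℝ) * (v₀ / 2) ≤ N * (volume T).toReal := mul_le_mul_of_nonneg_left h10 hNpos.le
  linarith

end Pool.Agent.Helper188_CS
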